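import Pool.Agent.Lib.PRI.Defs

/-!
# PRI.As: primitive representations are torsion free over abelian normal subgroups (1.5 h)
PROOF of `ass_fg`. `R = Algebra.adjoin k (ρ '' Y) ⊆ End V` is commutative (`Algebra.adjoinCommRingOfComm` or work with a surjection from `MonoidAlgebra k Y`), generated by finitely many elements (generators of `Y` and their inverses), so Noetherian. `V` is an `R`-module. `R` is stable under `c_g : r ↦ ρ g * r * ρ g⁻¹` (`Y` normal). `Ass V` (associated primes: prime ideals of the form `ann v`)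
is not empty (`V ≠ 0`, `R` Noetherian); let `Q` be a maximal element of `Ass V`; every nonzero `w ∈ V` whose annihilator contains a maximal element `Q'` of `Ass V` has annihilator `Q'` (the nonzero module `R w` has an associated prime, which contains `ann w ⊇ Q'`, and is in `Ass V`, so it is `Q'` and `ann w ⊆ Q'`). For an ideal `I` let `V_I = {v | I v = 0}`; `ρ g V_Q = V_{c_g Q}` and all
`c_g Q` are maximal elements of `Ass V`. `D = {V_{c_g Q} | g ∈ G}`. Independence: a relation `v_1 + ⋯ + v_n = 0`, `v_i ∈ V_{Q_i}` nonzero, `Q_i` different maximal elements, `n ≥ 2`: the product `Q_2 ⋯ Q_n` kills `v_2 + ⋯ + v_n = -v_1`, so it is in `ann v_1 = Q_1`, so some `Q_i ⊆ Q_1`, a contradiction to maximality. The sum of `D` is invariant under `G` and not zero, so it is `V` (`Irr`). By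
`Prim` `D` has one element: `V_{c_g Q} = V_Q` for all `g`, so `V_Q` is invariant, `V = V_Q`, `Q V = 0`, `Q = 0` (operators). So for `w ≠ 0` `ann w ⊇ 0 = Q`, so `ann w = 0`: nonzero elements of `R` are injective. `ass_union`: every element of `adjoin k (ρ '' A)` is in `adjoin k (ρ '' Y)` for a finitely generated normal `Y ≤ A`.
-/

set_option autoImplicit false

namespace Pool.Agent.Lib.PRI

variable {G k V : Type} [Group G] [Field k] [AddCommGroup V] [Module k V]

namespace AsAux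

/-- the ring of operators generated by `Y` -/
abbrev RR (ρ : Representation k G V) (Y : Subgroup G) : Subalgebra k (Module.End k V) :=
  Algebra.adjoin k (ρ '' (Y : Set G))

theorem comm_of (ρ : Representation k G V) (Y : Subgroup G)
    (hY : ∀ a ∈ Y, ∀ b ∈ Y, a * b = b * a) {r s : Module.End k V}
    (hr : r ∈ RR ρ Y) (hs : s ∈ RR ρ Y) : r * s = s * r := by
  have h1 : RR ρ Y ≤ Subalgebra.centralizer k (ρ '' (Y : Set G)) := by
    refine Algebra.adjoin_le ?_
    rintro _ ⟨a, ha, rfl⟩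
    rw [SetLike.mem_coe, Subalgebra.mem_centralizer_iff]
    rintro _ ⟨b, hb, rfl⟩
    rw [← map_mul, ← map_mul, hY b hb a ha]
  have h2 : RR ρ Y ≤ Subalgebra.centralizer k {r} := by
    refine Algebra.adjoin_le ?_
    rintro _ ⟨a, ha, rfl⟩
    rw [SetLike.mem_coe, Subalgebra.mem_centralizer_iff]
    intro g hg
    rw [Set.mem_singleton_iff] at hg
    rw [hg]
    exact ((Subalgebra.mem_centralizer_iff k).1 (h1 hr) (ρ a) ⟨a, ha, rfl⟩).symm
  exact (Subalgebra.mem_centralizer_iff k).1 (h2 hs) r rfl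

theorem inv_mul_rho (ρ : Representation k G V) (g : G) : ρ g⁻¹ * ρ g = 1 := by
  rw [← map_mul, inv_mul_cancel, map_one]

theorem mul_inv_rho (ρ : Representation k G V) (g : G) : ρ g * ρ g⁻¹ = 1 := by
  rw [← map_mul, mul_inv_cancel, map_one]

theorem conj_mem (ρ : Representation k G V) (Y : Subgroup G) (hn : Y.Normal) (g : G)
    {r : Module.End k V} (hr : r ∈ RR ρ Y) : ρ g * r * ρ g⁻¹ ∈ RR ρ Y := by
  refine Algebra.adjoin_induction (p := fun r _ => ρ g * r * ρ g⁻¹ ∈ RR ρ Y) ?_ ?_ ?_ ?_ hr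
  · rintro _ ⟨y, hy, rfl⟩
    rw [← map_mul, ← map_mul]
    exact Algebra.subset_adjoin ⟨g * y * g⁻¹, hn.conj_mem y hy g, rfl⟩
  · intro c
    rw [← Algebra.commutes, mul_assoc, mul_inv_rho, mul_one]
    exact Subalgebra.algebraMap_mem _ c
  · intro a b _ _ ha hb
    rw [mul_add, add_mul]
    exact add_mem ha hb
  · intro a b _ _ ha hb
    have h : ρ g * (a * b) * ρ g⁻¹ = (ρ g * a * ρ g⁻¹) * (ρ g * b * ρ g⁻¹) := by
      calc ρ g * (a * b) * ρ g⁻¹ = ρ g * a * 1 * b * ρ g⁻¹ := by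
            rw [mul_one, mul_assoc (ρ g) a b]
        _ = (ρ g * a * ρ g⁻¹) * (ρ g * b * ρ g⁻¹) := by
            rw [← inv_mul_rho ρ g]
            simp only [mul_assoc]
    rw [h]
    exact mul_mem ha hb

/-- the operators of the ring that kill `v` -/
def An (ρ : Representation k G V) (Y : Subgroup G) (v : V) : Set (Module.End k V) :=
  {r | r ∈ RR ρ Y ∧ r v = 0}

theorem exists_max (ρ : Representation k G V) (Y : Subgroup G)
    (hY : ∀ a ∈ Y, ∀ b ∈ Y, a * b = b * a) (hfg : Y.FG) (hV : Nontrivial V) :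
    ∃ v0 : V, v0 ≠ 0 ∧ ∀ w : V, w ≠ 0 → An ρ Y v0 ⊆ An ρ Y w → An ρ Y w ⊆ An ρ Y v0 := by
  classical
  let _ : CommGroup Y :=
    { (inferInstance : Group Y) with
      mul_comm := fun a b => Subtype.ext (hY a a.2 b b.2) }
  have hfg' : Monoid.FG Y := Group.fg_iff_monoid_fg.1 ((Group.fg_iff_subgroup_fg Y).2 hfg)
  have hN : IsNoetherianRing (MonoidAlgebra k Y) :=
    Algebra.FiniteType.isNoetherianRing k (MonoidAlgebra k Y)
  let φ : MonoidAlgebra k Y →ₐ[k] Module.End k V :=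
    MonoidAlgebra.lift k (Module.End k V) Y (ρ.comp Y.subtype)
  have hφ1 : ∀ s, φ s ∈ RR ρ Y := by
    intro s
    rw [MonoidAlgebra.lift_apply]
    refine Subalgebra.sum_mem _ fun a _ => Subalgebra.smul_mem _ ?_ _
    exact Algebra.subset_adjoin ⟨a, a.2, rfl⟩
  have hφ2 : RR ρ Y ≤ φ.range := by
    refine Algebra.adjoin_le ?_
    rintro _ ⟨y, hy, rfl⟩
    refine ⟨MonoidAlgebra.single ⟨y, hy⟩ 1, ?_⟩
    change MonoidAlgebra.lift k (Module.End k V) Y (ρ.comp Y.subtype) _ = _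
    rw [MonoidAlgebra.lift_single, one_smul]
    rfl
  let I : V → Ideal (MonoidAlgebra k Y) := fun v =>
    { carrier := {s | φ s v = 0}
      add_mem' := by
        intro a b ha hb
        change φ (a + b) v = 0
        rw [map_add, LinearMap.add_apply, show φ a v = 0 from ha, show φ b v = 0 from hb, add_zero]
      zero_mem' := by
        change φ 0 v = 0
        rw [map_zero, LinearMap.zero_apply]
      smul_mem' := by
        intro c a ha
        change φ (c * a) v = 0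
        rw [map_mul, Module.End.mul_apply, show φ a v = 0 from ha, map_zero] }
  have hI : ∀ v s, s ∈ I v ↔ φ s v = 0 := fun v s => Iff.rfl
  obtain ⟨v1, hv1⟩ := exists_ne (0 : V)
  obtain ⟨J, ⟨v0, hv0, rfl⟩, hJ⟩ := (set_has_maximal_iff_noetherian.2 hN)
    {J | ∃ v : V, v ≠ 0 ∧ I v = J} ⟨I v1, v1, hv1, rfl⟩
  refine ⟨v0, hv0, fun w hw hsub => ?_⟩
  have h1 : I v0 ≤ I w := by
    intro s hs
    exact (hsub (show φ s ∈ An ρ Y v0 from ⟨hφ1 s, (hI v0 s).1 hs⟩)).2
  have h2 : I w ≤ I v0 := by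
    by_contra h3
    exact hJ (I w) ⟨w, hw, rfl⟩ (lt_of_le_not_ge h1 h3)
  rintro r ⟨hr, hr0⟩
  obtain ⟨s, hs⟩ := hφ2 hr
  have hs' : φ s = r := hs
  refine ⟨hr, ?_⟩
  have h3 : s ∈ I w := by
    rw [hI, hs']
    exact hr0
  have h4 := (hI v0 s).1 (h2 h3)
  rwa [hs'] at h4

/-- the vectors killed by the operators killing `v` -/
def U (ρ : Representation k G V) (Y : Subgroup G) (v : V) : Submodule k V where
  carrier := {w | An ρ Y v ⊆ An ρ Y w}
  add_mem' := by
    intro a b ha hb r hr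
    refine ⟨hr.1, ?_⟩
    rw [map_add, (ha hr).2, (hb hr).2, add_zero]
  zero_mem' := by
    intro r hr
    exact ⟨hr.1, map_zero r⟩
  smul_mem' := by
    intro c a ha r hr
    refine ⟨hr.1, ?_⟩
    rw [map_smul, (ha hr).2, smul_zero]

theorem mem_U {ρ : Representation k G V} {Y : Subgroup G} {v w : V} :
    w ∈ U ρ Y v ↔ An ρ Y v ⊆ An ρ Y w := Iff.rfl

/-- the annihilator of `v` is maximal -/
def Gd (ρ : Representation k G V) (Y : Subgroup G) (v : V) : Prop :=
  v ≠ 0 ∧ ∀ w : V, w ≠ 0 → An ρ Y v ⊆ An ρ Y w → An ρ Y w ⊆ An ρ Y v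

theorem conj_An {ρ : Representation k G V} {Y : Subgroup G} (hn : Y.Normal) (g : G) {v : V}
    {r : Module.End k V} (hr : r ∈ An ρ Y v) : ρ g * r * ρ g⁻¹ ∈ An ρ Y (ρ g v) := by
  refine ⟨conj_mem ρ Y hn g hr.1, ?_⟩
  rw [Module.End.mul_apply, ← Module.End.mul_apply (ρ g⁻¹) (ρ g) v, inv_mul_rho,
    Module.End.one_apply, Module.End.mul_apply, hr.2, map_zero]

theorem An_sub {ρ : Representation k G V} {Y : Subgroup G} (hn : Y.Normal) (g : G) {v w : V} :
    An ρ Y (ρ g v) ⊆ An ρ Y (ρ g w) ↔ An ρ Y v ⊆ An ρ Y w := by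
  have key : ∀ (g : G) (v w : V), An ρ Y v ⊆ An ρ Y w → An ρ Y (ρ g v) ⊆ An ρ Y (ρ g w) := by
    intro g v w h r hr
    have h1 := conj_An hn g⁻¹ hr
    rw [← Module.End.mul_apply (ρ g⁻¹) (ρ g) v, inv_mul_rho, Module.End.one_apply] at h1
    have h2 := conj_An hn g (h h1)
    have e : ρ g * (ρ g⁻¹ * r * ρ g⁻¹⁻¹) * ρ g⁻¹ = r := by
      rw [inv_inv]
      calc ρ g * (ρ g⁻¹ * r * ρ g) * ρ g⁻¹ = (ρ g * ρ g⁻¹) * r * (ρ g * ρ g⁻¹) := by
            simp only [mul_assoc]
        _ = r := by rw [mul_inv_rho, one_mul, mul_one]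
    rwa [e] at h2
  constructor
  · intro h
    have h1 := key g⁻¹ _ _ h
    rwa [← Module.End.mul_apply (ρ g⁻¹) (ρ g) v, ← Module.End.mul_apply (ρ g⁻¹) (ρ g) w,
      inv_mul_rho, Module.End.one_apply, Module.End.one_apply] at h1
  · exact key g v w

theorem rho_surj (ρ : Representation k G V) (g : G) (w : V) : ρ g (ρ g⁻¹ w) = w := by
  rw [← Module.End.mul_apply, mul_inv_rho, Module.End.one_apply]

theorem rho_ne {ρ : Representation k G V} (g : G) {v : V} (hv : v ≠ 0) : ρ g v ≠ 0 := by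
  intro h
  apply hv
  have h1 := congrArg (ρ g⁻¹) h
  rwa [← Module.End.mul_apply, inv_mul_rho, Module.End.one_apply, map_zero] at h1

theorem Gd_conj {ρ : Representation k G V} {Y : Subgroup G} (hn : Y.Normal) (g : G) {v : V}
    (hv : Gd ρ Y v) : Gd ρ Y (ρ g v) := by
  refine ⟨rho_ne g hv.1, ?_⟩
  intro w hw h
  rw [← rho_surj ρ g w, An_sub hn g] at h ⊢
  exact hv.2 _ (rho_ne g⁻¹ hw) h

theorem map_U {ρ : Representation k G V} {Y : Subgroup G} (hn : Y.Normal) (g : G) (v : V) :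
    (U ρ Y v).map (ρ g) = U ρ Y (ρ g v) := by
  ext w
  rw [Submodule.mem_map]
  constructor
  · rintro ⟨u, hu, rfl⟩
    exact (An_sub hn g).2 hu
  · intro h
    refine ⟨ρ g⁻¹ w, ?_, rho_surj ρ g w⟩
    rw [mem_U] at h
    rw [← rho_surj ρ g w, An_sub hn g] at h
    exact h

end AsAux

open AsAux

theorem ass_fg (ρ : Representation k G V) (hi : Irr ρ) (hp : Prim ρ) (Y : Subgroup G) (hn : Y.Normal)
    (hY : ∀ a ∈ Y, ∀ b ∈ Y, a * b = b * a) (hfg : Y.FG) (r : Module.End k V)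
    (hr : r ∈ Algebra.adjoin k (ρ '' (Y : Set G))) (h0 : r ≠ 0) : Function.Injective r := by
  classical
  obtain ⟨v0, hv0, hmax⟩ := exists_max ρ Y hY hfg hi.1
  have hgd : Gd ρ Y v0 := ⟨hv0, hmax⟩
  -- nonzero vectors of `U v` have the same annihilator
  have hsame : ∀ v, Gd ρ Y v → ∀ w ∈ U ρ Y v, w ≠ 0 → An ρ Y w = An ρ Y v :=
    fun v hv w hw hw0 => Set.Subset.antisymm (hv.2 w hw0 hw) hw
  let D : Set (Submodule k V) := {W | ∃ g, W = U ρ Y (ρ g v0)}
  have hself : ∀ v : V, v ∈ U ρ Y v := fun v => mem_U.2 subset_rfl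
  have hD0 : ⊥ ∉ D := by
    rintro ⟨g, hg⟩
    have h1 : ρ g v0 ∈ (⊥ : Submodule k V) := by
      rw [hg]
      exact hself _
    exact rho_ne g hv0 ((Submodule.mem_bot k).1 h1)
  have hinv : ∀ W ∈ D, ∀ g, W.map (ρ g) ∈ D := by
    rintro _ ⟨h, rfl⟩ g
    refine ⟨g * h, ?_⟩
    rw [map_U hn, map_mul, Module.End.mul_apply]
  have htop : sSup D = ⊤ := by
    have h1 : ∀ g, ∀ w ∈ sSup D, ρ g w ∈ sSup D := by
      intro g
      have h2 : sSup D ≤ (sSup D).comap (ρ g) := by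
        refine sSup_le fun W hW => ?_
        rw [← Submodule.map_le_iff_le_comap]
        exact le_sSup (hinv W hW g)
      exact h2
    rcases hi.2 _ h1 with h2 | h2
    · exfalso
      have h3 : v0 ∈ sSup D := by
        have h4 : U ρ Y (ρ 1 v0) ≤ sSup D := le_sSup ⟨1, rfl⟩
        rw [map_one, Module.End.one_apply] at h4
        exact h4 (hself v0)
      rw [h2] at h3
      exact hv0 ((Submodule.mem_bot k).1 h3)
    · exact h2
  have hind : sSupIndep D := by
    rintro W ⟨g, rfl⟩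
    rw [Submodule.disjoint_def]
    intro u hu hu2
    have hg := Gd_conj hn g hgd
    set v := ρ g v0 with hv
    -- the vectors killed by an operator injective on `U v`
    let K : Submodule k V :=
      { carrier := {u | ∃ r ∈ RR ρ Y, r u = 0 ∧ ∀ w ∈ U ρ Y v, w ≠ 0 → r w ≠ 0}
        add_mem' := by
          rintro a b ⟨r1, h1, h2, h3⟩ ⟨r2, h4, h5, h6⟩
          refine ⟨r1 * r2, mul_mem h1 h4, ?_, ?_⟩
          · rw [map_add, Module.End.mul_apply, Module.End.mul_apply, h5, map_zero, add_zero,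
              ← Module.End.mul_apply, comm_of ρ Y hY h1 h4, Module.End.mul_apply, h2, map_zero]
          · intro w hw hw0
            rw [Module.End.mul_apply]
            refine h3 _ ?_ (h6 w hw hw0)
            rw [mem_U] at hw ⊢
            intro s hs
            refine ⟨hs.1, ?_⟩
            rw [← Module.End.mul_apply, comm_of ρ Y hY hs.1 h4, Module.End.mul_apply, (hw hs).2,
              map_zero]
        zero_mem' := ⟨1, one_mem _, map_zero _, fun w _ hw => hw⟩
        smul_mem' := by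
          rintro c a ⟨r1, h1, h2, h3⟩
          exact ⟨r1, h1, by rw [map_smul, h2, smul_zero], h3⟩ }
    have hK : sSup (D \ {U ρ Y v}) ≤ K := by
      refine sSup_le ?_
      rintro _ ⟨⟨g', rfl⟩, hne⟩
      have hg' := Gd_conj hn g' hgd
      set v' := ρ g' v0 with hv'
      have h1 : ¬ An ρ Y v' ⊆ An ρ Y v := by
        intro h2
        apply hne
        have h3 : An ρ Y v = An ρ Y v' := hsame v' hg' v h2 hg.1
        rw [Set.mem_singleton_iff]
        ext w
        rw [mem_U, mem_U, h3]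
      obtain ⟨s, hs, hs'⟩ := Set.not_subset.1 h1
      intro a ha
      refine ⟨s, hs.1, (ha hs).2, ?_⟩
      intro w hw hw0 h4
      have h5 : s ∈ An ρ Y w := ⟨hs.1, h4⟩
      rw [hsame v hg w hw hw0] at h5
      exact hs' h5
    obtain ⟨s, _, h1, h2⟩ := hK hu2
    by_contra h3
    exact h2 u hu h3 h1
  have hsub := hp D hD0 hind htop hinv
  -- `U v0` is everything
  have hU : U ρ Y v0 = ⊤ := by
    have h1 : U ρ Y v0 ∈ D := ⟨1, by rw [map_one, Module.End.one_apply]⟩
    have h2 : ∀ g, ∀ w ∈ U ρ Y v0, ρ g w ∈ U ρ Y v0 := by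
      intro g w hw
      have h3 : (U ρ Y v0).map (ρ g) = U ρ Y v0 := hsub (hinv _ h1 g) h1
      rw [← h3]
      exact Submodule.mem_map_of_mem hw
    rcases hi.2 _ h2 with h3 | h3
    · exfalso
      exact hD0 (h3 ▸ h1)
    · exact h3
  have hzero : ∀ s ∈ An ρ Y v0, s = 0 := by
    intro s hs
    ext w
    have hw : w ∈ U ρ Y v0 := by rw [hU]; trivial
    rw [(hw hs).2, LinearMap.zero_apply]
  rw [injective_iff_map_eq_zero]
  intro w hw
  by_contra hw0
  have h1 : r ∈ An ρ Y w := ⟨hr, hw⟩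
  rw [hsame v0 hgd w (by rw [hU]; trivial) hw0] at h1
  exact h0 (hzero r h1)

theorem ass_union (ρ : Representation k G V) (hi : Irr ρ) (hp : Prim ρ) (A : Subgroup G)
    (hA : ∀ a ∈ A, ∀ b ∈ A, a * b = b * a)
    (hex : ∀ Y0 : Subgroup G, Y0 ≤ A → Y0.FG → ∃ Y : Subgroup G, Y0 ≤ Y ∧ Y ≤ A ∧ Y.FG ∧ Y.Normal)
    (r : Module.End k V) (hr : r ∈ Algebra.adjoin k (ρ '' (A : Set G))) (h0 : r ≠ 0) :
    Function.Injective r := by
  classical
  have key : ∃ Y0 : Subgroup G, Y0 ≤ A ∧ Y0.FG ∧ r ∈ RR ρ Y0 := by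
    refine Algebra.adjoin_induction
      (p := fun r _ => ∃ Y0 : Subgroup G, Y0 ≤ A ∧ Y0.FG ∧ r ∈ RR ρ Y0) ?_ ?_ ?_ ?_ hr
    · rintro _ ⟨a, ha, rfl⟩
      refine ⟨Subgroup.zpowers a, ?_, ?_, ?_⟩
      · rw [Subgroup.zpowers_le]
        exact ha
      · exact ⟨{a}, by rw [Finset.coe_singleton, Subgroup.zpowers_eq_closure]⟩
      · exact Algebra.subset_adjoin ⟨a, Subgroup.mem_zpowers a, rfl⟩
    · intro c
      exact ⟨⊥, bot_le, Subgroup.FG.bot, Subalgebra.algebraMap_mem _ c⟩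
    · rintro a b _ _ ⟨Y1, h1, h2, h3⟩ ⟨Y2, h4, h5, h6⟩
      refine ⟨Y1 ⊔ Y2, sup_le h1 h4, h2.sup h5, add_mem ?_ ?_⟩
      · exact Algebra.adjoin_mono (Set.image_mono (SetLike.coe_subset_coe.2 le_sup_left)) h3
      · exact Algebra.adjoin_mono (Set.image_mono (SetLike.coe_subset_coe.2 le_sup_right)) h6
    · rintro a b _ _ ⟨Y1, h1, h2, h3⟩ ⟨Y2, h4, h5, h6⟩
      refine ⟨Y1 ⊔ Y2, sup_le h1 h4, h2.sup h5, mul_mem ?_ ?_⟩
      · exact Algebra.adjoin_mono (Set.image_mono (SetLike.coe_subset_coe.2 le_sup_left)) h3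
      · exact Algebra.adjoin_mono (Set.image_mono (SetLike.coe_subset_coe.2 le_sup_right)) h6
  obtain ⟨Y0, h1, h2, h3⟩ := key
  obtain ⟨Y, h4, h5, h6, h7⟩ := hex Y0 h1 h2
  refine ass_fg ρ hi hp Y h7 (fun a ha b hb => hA a (h5 ha) b (h5 hb)) h6 r ?_ h0
  exact Algebra.adjoin_mono (Set.image_mono (SetLike.coe_subset_coe.2 h4)) h3

end Pool.Agent.Lib.PRI
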