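import Pool.Agent.Lib.PRI.Jd

/-!
# PRI.Dec: decomposition of the representation (1.5 h)
`E = SkewMonoidAlgebra F H`, `E_Y` = elements with coefficients in `FY D Y`.
PROOF. `coeff_desc`: let `∑_j single 1 (ι t_j) * r_j = ∑_l single 1 (f_l) * s_l` (`hJ`). Write `f_l = ∑_i c_{l,i} ι (t'_{l,i})` (`hspan`) and collect all `t_j` and `t'_{l,i}` into one finite list `τ_1, …, τ_q ∈ A` of different classes modulo `Y`, such that every `t_j` is some `τ` itself and `ι t'_{l,i} = c ι τ` with `c ∈ ι Y ⊆ FY` (replace `t'` by the representative `τ` of its class: `ι (τ y) = ι τ ι y`, `dat_mul`). So `f_l = ∑_τ φ_{l,τ} ι τ` with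
`φ_{l,τ} ∈ FY`. Compare the coefficients at `h ∈ H`: `∑_j ι t_j r_j(h) = ∑_τ ι τ ∑_l φ_{l,τ} s_l(h)`; by independence (`hind`) `r_j(h) = ∑_l φ_{l,t_j} s_l(h)` for all `h`, so `r_j = ∑_l single 1 φ_{l,t_j} * s_l ∈ J`. `not_prim`: let `U` be the span of `{ρ g v | g ∈ H ⊔ Y}` (`H ⊔ Y` = products `y h`, `Y` normal), `D' = {U.map (ρ a) | a ∈ A}`. (1) Every `u ∈ U` is `∑_h act (c h) (ρ h v)` for some `c : H →₀ B` with values in
`k[ι Y] ⊆ FY` (`ρ (y h) v = act (ι y) (ρ h v)`). (2) If `t_j ∈ A` are in different classes modulo `Y`, `u_j ∈ U` and `∑ ρ t_j u_j = 0` then all `u_j = 0`: let `r_j` be the element of `E` with coefficients `c_j`; `∑_j single 1 (ι t_j) * r_j ∈ J` (`mem_J_iff`), so `r_j ∈ J` by `coeff_desc`, so `u_j = 0` (`mem_J_iff`). (3) `ρ a U` depends only on the class of `a` modulo `Y`; `ρ g (ρ a U) = ρ (h a h⁻¹ a')... `: every `g` is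
`a' h` with `a' ∈ A`, `h ∈ H` (`H ⊔ A = ⊤`, `A` normal), `g a U = a' (h a h⁻¹) h U = (a' h a h⁻¹) U`, so `D'` is invariant under `G`. (4) `⊥ ∉ D'` (`v ∈ U`, `v ≠ 0`), `sSup D'` is invariant and nonzero, so `⊤` (`Irr`). (5) `sSupIndep D'` by (2). (6) `D'` is not a subsingleton: for `a ∈ A`, `a ∉ Y`, `ρ a U = U` would give `ρ a v = u ∈ U`, `ρ a v - ρ 1 u = 0`, so `v = 0` by (2). Contradiction to `Prim`; so `A ≤ Y`.
-/

set_option autoImplicit false

namespace Pool.Agent.Lib.PRI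

variable {G k V : Type} [Group G] [Field k] [AddCommGroup V] [Module k V]
variable {ρ : Representation k G V} {A : Subgroup G} {F : Type} [Field F] [Algebra k F]
  [MulSemiringAction G F]

namespace DecAux

theorem functional {K E : Type} [Field K] [AddCommGroup E] [Module K E] {m : ℕ} {w : Fin m → E}
    (hw : LinearIndependent K w) (i : Fin m) :
    ∃ φ : E →ₗ[K] K, φ (w i) = 1 ∧ ∀ j, j ≠ i → φ (w j) = 0 := by
  obtain ⟨φ, hφ⟩ := LinearMap.exists_extend ((Module.Basis.span hw).coord i)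
  have h1 : ∀ j, φ (w j) = (Module.Basis.span hw).coord i (Module.Basis.span hw j) := by
    intro j
    rw [← hφ, LinearMap.comp_apply, Submodule.subtype_apply, Module.Basis.span_apply]
  refine ⟨φ, ?_, fun j hj => ?_⟩
  · rw [h1, Module.Basis.coord_apply, Module.Basis.repr_self, Finsupp.single_eq_same]
  · rw [h1, Module.Basis.coord_apply, Module.Basis.repr_self, Finsupp.single_apply, if_neg hj]

theorem coeff_fsum {H : Subgroup G} {κ : Type} (s : Finset κ) (f : κ → SkewMonoidAlgebra F H)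
    (h : H) : (∑ i ∈ s, f i).coeff h = ∑ i ∈ s, (f i).coeff h := by
  classical
  induction s using Finset.induction_on with
  | empty => rfl
  | insert a s ha ih =>
    rw [Finset.sum_insert ha, Finset.sum_insert ha, SkewMonoidAlgebra.coeff_add,
      Finsupp.add_apply, ih]

end DecAux

open DecAux

theorem coeff_desc (D : Dat ρ A F) (hV : Nontrivial V) (H Y : Subgroup G) (hYA : Y ≤ A)
    (J : Ideal (SkewMonoidAlgebra F H))
    (hind : ∀ (m : ℕ) (t : Fin m → G), (∀ i, t i ∈ A) → (∀ i j, i ≠ j → (t i)⁻¹ * t j ∉ Y) →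
      LinearIndependent (FY D Y) (fun i => D.ι (t i)))
    (hspan : ∀ f : F, ∃ (m : ℕ) (t : Fin m → G) (c : Fin m → F), (∀ i, t i ∈ A ∧ c i ∈ FY D Y) ∧
      f = ∑ i, c i * D.ι (t i))
    (hJ : ∀ r ∈ J, ∃ (m : ℕ) (f : Fin m → F) (s : Fin m → SkewMonoidAlgebra F H),
      (∀ l, s l ∈ J ∧ ∀ h, (s l).coeff h ∈ FY D Y) ∧ r = ∑ l, SkewMonoidAlgebra.single 1 (f l) * s l)
    (m : ℕ) (t : Fin m → G) (htA : ∀ i, t i ∈ A) (htY : ∀ i j, i ≠ j → (t i)⁻¹ * t j ∉ Y)
    (r : Fin m → SkewMonoidAlgebra F H) (hr : ∀ i h, (r i).coeff h ∈ FY D Y)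
    (hmem : ∑ i, SkewMonoidAlgebra.single 1 (D.ι (t i)) * r i ∈ J) (i : Fin m) : r i ∈ J := by
  obtain ⟨n, f, s, hs, hR⟩ := hJ _ hmem
  obtain ⟨φ, h1, h2⟩ := functional (hind m t htA htY) i
  have key : ∀ h : H, (r i).coeff h = ∑ l, (φ (f l) : F) * (s l).coeff h := by
    intro h
    have e1 : ∑ j, (⟨(r j).coeff h, hr j h⟩ : FY D Y) • D.ι (t j) =
        ∑ l, (⟨(s l).coeff h, (hs l).2 h⟩ : FY D Y) • f l := by
      have e2 := congrArg (fun x : SkewMonoidAlgebra F H => x.coeff h) hR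
      simp only [coeff_fsum, SkewMonoidAlgebra.coeff_single_one_mul] at e2
      have e3 : ∀ (x : FY D Y) (y : F), x • y = (x : F) * y := fun x y => rfl
      simp only [e3]
      rw [Finset.sum_congr rfl (fun j _ => mul_comm ((r j).coeff h) (D.ι (t j))), e2]
      exact Finset.sum_congr rfl (fun l _ => mul_comm _ _)
    have e4 := congrArg φ e1
    rw [map_sum, map_sum] at e4
    simp only [map_smul, smul_eq_mul] at e4
    rw [Finset.sum_eq_single i (fun j _ hj => by rw [h2 j hj, mul_zero])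
      (fun hi => absurd (Finset.mem_univ i) hi), h1, mul_one] at e4
    have e5 := congrArg (fun x : FY D Y => (x : F)) e4
    simp only at e5
    rw [e5]
    push_cast
    exact Finset.sum_congr rfl (fun l _ => mul_comm _ _)
  have e6 : r i = ∑ l, SkewMonoidAlgebra.single 1 ((φ (f l) : F)) * s l := by
    refine SkewMonoidAlgebra.ext fun h => ?_
    rw [coeff_fsum, key]
    simp only [SkewMonoidAlgebra.coeff_single_one_mul]
  rw [e6]
  exact J.sum_mem fun l _ => J.mul_mem_left _ (hs l).1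

namespace DecAux

/-- the vector attached to a finitely supported family of operators -/
noncomputable def Phi (D : Dat ρ A F) (H : Subgroup G) (v : V) : (H →₀ D.B) →+ V :=
  Finsupp.liftAddHom (fun h : H => AddMonoidHom.mk' (fun x : D.B => D.act x (ρ h v))
    (fun x y => by rw [map_add, LinearMap.add_apply]))

theorem Phi_apply (D : Dat ρ A F) (H : Subgroup G) (v : V) (c : H →₀ D.B) :
    Phi D H v c = c.sum fun h x => D.act x (ρ h v) := rfl

theorem Phi_single (D : Dat ρ A F) (H : Subgroup G) (v : V) (h : H) (x : D.B) :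
    Phi D H v (Finsupp.single h x) = D.act x (ρ h v) := by
  rw [Phi_apply, Finsupp.sum_single_index]
  rw [map_zero, LinearMap.zero_apply]

/-- multiplication of the coefficients -/
noncomputable def mulC (D : Dat ρ A F) (H : Subgroup G) (b : D.B) (c : H →₀ D.B) : H →₀ D.B :=
  Finsupp.mapRange (fun x => b * x) (mul_zero b) c

theorem Phi_mulC (D : Dat ρ A F) (H : Subgroup G) (v : V) (b : D.B) (c : H →₀ D.B) :
    Phi D H v (mulC D H b c) = D.act b (Phi D H v c) := by
  unfold mulC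
  induction c using Finsupp.induction_linear with
  | zero => rw [Finsupp.mapRange_zero, map_zero, map_zero]
  | add c d hc hd =>
    rw [Finsupp.mapRange_add (fun x y => mul_add b x y), map_add, map_add, map_add, hc, hd]
  | single h x =>
    rw [Finsupp.mapRange_single, Phi_single, Phi_single, map_mul, Module.End.mul_apply]

theorem form (D : Dat ρ A F) (H Y : Subgroup G) (hYA : Y ≤ A) (hYn : Y.Normal) (v : V) (u : V)
    (hu : u ∈ Submodule.span k {x | ∃ g ∈ H ⊔ Y, x = ρ g v}) :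
    ∃ c : H →₀ D.B, (∀ h, (c h : F) ∈ FY D Y) ∧ Phi D H v c = u := by
  classical
  refine Submodule.span_induction (p := fun u _ => ∃ c : H →₀ D.B, (∀ h, (c h : F) ∈ FY D Y) ∧
    Phi D H v c = u) ?_ ?_ ?_ ?_ hu
  · rintro _ ⟨g, hg, rfl⟩
    rw [sup_comm, Subgroup.mem_sup_of_normal_left] at hg
    obtain ⟨y, hy, h, hh, rfl⟩ := hg
    refine ⟨Finsupp.single ⟨h, hh⟩ ⟨D.ι y, D.ι_mem y (hYA hy)⟩, fun h' => ?_, ?_⟩
    · rw [Finsupp.single_apply]
      split_ifs
      · exact IntermediateField.subset_adjoin _ _ ⟨y, hy, rfl⟩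
      · exact zero_mem _
    · rw [Phi_single, D.act_ι y (hYA hy), map_mul, Module.End.mul_apply]
  · exact ⟨0, fun h => zero_mem _, map_zero _⟩
  · rintro x y _ _ ⟨c, hc, hc'⟩ ⟨d, hd, hd'⟩
    refine ⟨c + d, fun h => ?_, by rw [map_add, hc', hd']⟩
    rw [Finsupp.add_apply]
    exact add_mem (hc h) (hd h)
  · rintro a x _ ⟨c, hc, hc'⟩
    refine ⟨mulC D H (algebraMap k D.B a) c, fun h => ?_, ?_⟩
    · have e1 : ((mulC D H (algebraMap k D.B a) c h : D.B) : F) =
          algebraMap k F a * (c h : F) := rfl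
      rw [e1]
      exact mul_mem (IntermediateField.algebraMap_mem _ a) (hc h)
    · rw [Phi_mulC, hc', AlgHom.commutes, Module.algebraMap_end_apply]

/-- the element of the skew group ring with given coefficients -/
noncomputable def el (D : Dat ρ A F) (H : Subgroup G) (c : H →₀ D.B) : SkewMonoidAlgebra F H :=
  ⟨Finsupp.mapRange (fun x : D.B => (x : F)) rfl c⟩

theorem el_coeff (D : Dat ρ A F) (H : Subgroup G) (c : H →₀ D.B) (h : H) :
    (el D H c).coeff h = (c h : F) := rfl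

theorem indep (D : Dat ρ A F) (hV : Nontrivial V) (H Y : Subgroup G) (hYA : Y ≤ A)
    (hYn : Y.Normal) (v : V)
    (hdesc : ∀ (m : ℕ) (t : Fin m → G), (∀ i, t i ∈ A) → (∀ i j, i ≠ j → (t i)⁻¹ * t j ∉ Y) →
      ∀ r : Fin m → SkewMonoidAlgebra F H, (∀ i h, (r i).coeff h ∈ FY D Y) →
        ∑ i, SkewMonoidAlgebra.single 1 (D.ι (t i)) * r i ∈ Jset D H v → ∀ i, r i ∈ Jset D H v)
    (m : ℕ) (t : Fin m → G) (htA : ∀ i, t i ∈ A) (htY : ∀ i j, i ≠ j → (t i)⁻¹ * t j ∉ Y)
    (u : Fin m → V) (hu : ∀ i, u i ∈ Submodule.span k {x | ∃ g ∈ H ⊔ Y, x = ρ g v})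
    (h0 : ∑ i, ρ (t i) (u i) = 0) (i : Fin m) : u i = 0 := by
  choose c hc1 hc2 using fun i => form D H Y hYA hYn v (u i) (hu i)
  have h1 := hdesc m t htA htY (fun i => el D H (c i)) (fun i h => hc1 i h) ?_ i
  · rw [mem_J_iff D hV H v _ (c i) (fun h => rfl), ← Phi_apply, hc2] at h1
    exact h1
  · rw [mem_J_iff D hV H v _ (∑ j, mulC D H ⟨D.ι (t j), D.ι_mem _ (htA j)⟩ (c j)) (fun h => ?_),
      ← Phi_apply, map_sum, ← h0]
    · refine Finset.sum_congr rfl fun j _ => ?_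
      rw [Phi_mulC, hc2, D.act_ι _ (htA j)]
    · rw [coeff_fsum, Finsupp.finsetSum_apply]
      have e1 := map_sum D.B.val (fun j => mulC D H ⟨D.ι (t j), D.ι_mem _ (htA j)⟩ (c j) h)
        Finset.univ
      refine Eq.trans e1 (Finset.sum_congr rfl fun j _ => ?_)
      rw [SkewMonoidAlgebra.coeff_single_one_mul, el_coeff]
      rfl

theorem indep' (D : Dat ρ A F) (hV : Nontrivial V) (H Y : Subgroup G) (hYA : Y ≤ A)
    (hYn : Y.Normal) (v : V)
    (hdesc : ∀ (m : ℕ) (t : Fin m → G), (∀ i, t i ∈ A) → (∀ i j, i ≠ j → (t i)⁻¹ * t j ∉ Y) →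
      ∀ r : Fin m → SkewMonoidAlgebra F H, (∀ i h, (r i).coeff h ∈ FY D Y) →
        ∑ i, SkewMonoidAlgebra.single 1 (D.ι (t i)) * r i ∈ Jset D H v → ∀ i, r i ∈ Jset D H v)
    {κ : Type} (s : Finset κ) (t : κ → G) (htA : ∀ i ∈ s, t i ∈ A)
    (htY : ∀ i ∈ s, ∀ j ∈ s, i ≠ j → (t i)⁻¹ * t j ∉ Y)
    (u : κ → V) (hu : ∀ i ∈ s, u i ∈ Submodule.span k {x | ∃ g ∈ H ⊔ Y, x = ρ g v})
    (h0 : ∑ i ∈ s, ρ (t i) (u i) = 0) (i : κ) (hi : i ∈ s) : u i = 0 := by
  have h1 := indep D hV H Y hYA hYn v hdesc s.card (fun j => t (s.equivFin.symm j))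
    (fun j => htA _ (s.equivFin.symm j).2)
    (fun j l hjl => htY _ (s.equivFin.symm j).2 _ (s.equivFin.symm l).2 (fun h => hjl
      (s.equivFin.symm.injective (Subtype.ext h))))
    (fun j => u (s.equivFin.symm j)) (fun j => hu _ (s.equivFin.symm j).2) ?_ (s.equivFin ⟨i, hi⟩)
  · simpa using h1
  · rw [← h0, ← Finset.sum_coe_sort s]
    exact Equiv.sum_comp s.equivFin.symm (fun j : s => ρ (t j) (u j))

end DecAux

theorem not_prim (D : Dat ρ A F) (hi : Irr ρ) (hp : Prim ρ) (hn : A.Normal)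
    (hA : ∀ a ∈ A, ∀ b ∈ A, a * b = b * a) (H Y : Subgroup G) (hHA : H ⊔ A = ⊤) (hYA : Y ≤ A)
    (hYn : Y.Normal) (hHY : H ⊓ A ≤ Y) (v : V) (hv : v ≠ 0)
    (hdesc : ∀ (m : ℕ) (t : Fin m → G), (∀ i, t i ∈ A) → (∀ i j, i ≠ j → (t i)⁻¹ * t j ∉ Y) →
      ∀ r : Fin m → SkewMonoidAlgebra F H, (∀ i h, (r i).coeff h ∈ FY D Y) →
        ∑ i, SkewMonoidAlgebra.single 1 (D.ι (t i)) * r i ∈ Jset D H v → ∀ i, r i ∈ Jset D H v) :
    A ≤ Y := by
  classical
  have hV : Nontrivial V := hi.1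
  set U : Submodule k V := Submodule.span k {x | ∃ g ∈ H ⊔ Y, x = ρ g v} with hU
  have hmm : ∀ (g g' : G) (W : Submodule k V), W.map (ρ (g * g')) = (W.map (ρ g')).map (ρ g) := by
    intro g g' W
    rw [map_mul, ← Submodule.map_comp]
    rfl
  have hle : ∀ g ∈ H ⊔ Y, U.map (ρ g) ≤ U := by
    intro g hg
    rw [hU, Submodule.map_span_le]
    rintro _ ⟨g', hg', rfl⟩
    refine Submodule.subset_span ⟨g * g', mul_mem hg hg', ?_⟩
    rw [map_mul, Module.End.mul_apply]
  have hUL : ∀ g ∈ H ⊔ Y, U.map (ρ g) = U := by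
    intro g hg
    refine le_antisymm (hle g hg) ?_
    have h1 := Submodule.map_mono (f := ρ g) (hle g⁻¹ (inv_mem hg))
    rw [← hmm, mul_inv_cancel, map_one] at h1
    have h2 : U.map (1 : Module.End k V) = U := Submodule.map_id U
    rwa [h2] at h1
  have hvU : v ∈ U := Submodule.subset_span ⟨1, one_mem _, by rw [map_one]; rfl⟩
  have hinj : ∀ g, Function.Injective (ρ g) := by
    intro g x y hxy
    have h1 := congrArg (ρ g⁻¹) hxy
    rwa [← Module.End.mul_apply, ← Module.End.mul_apply, ← map_mul, inv_mul_cancel, map_one] at h1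
  set DD : Set (Submodule k V) := {W | ∃ a ∈ A, W = U.map (ρ a)} with hDD
  have hperm : ∀ W ∈ DD, ∀ g, W.map (ρ g) ∈ DD := by
    rintro _ ⟨a, ha, rfl⟩ g
    have hg : g ∈ A ⊔ H := by
      rw [sup_comm, hHA]
      trivial
    rw [Subgroup.mem_sup_of_normal_left] at hg
    obtain ⟨a', ha', h, hh, rfl⟩ := hg
    refine ⟨a' * (h * a * h⁻¹), mul_mem ha' (hn.conj_mem a ha h), ?_⟩
    rw [← hmm]
    have e1 : a' * h * a = a' * (h * a * h⁻¹) * h := by group
    rw [e1, hmm, hUL h (Subgroup.mem_sup_left hh)]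
  have hbot : ⊥ ∉ DD := by
    rintro ⟨a, ha, h1⟩
    have h2 : ρ a v ∈ U.map (ρ a) := Submodule.mem_map_of_mem hvU
    rw [← h1, Submodule.mem_bot] at h2
    exact hv (hinj a (by rw [h2, map_zero]))
  have hUD : U ∈ DD := ⟨1, one_mem _, (hUL 1 (one_mem _)).symm⟩
  have htop : sSup DD = ⊤ := by
    have hinv : ∀ g, ∀ w ∈ sSup DD, ρ g w ∈ sSup DD := by
      intro g w hw
      have h1 : sSup DD ≤ (sSup DD).comap (ρ g) := by
        refine sSup_le fun W hW => ?_
        rw [← Submodule.map_le_iff_le_comap]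
        exact le_sSup (hperm W hW g)
      exact h1 hw
    rcases hi.2 (sSup DD) hinv with h1 | h1
    · exfalso
      have h2 : v ∈ sSup DD := le_sSup hUD hvU
      rw [h1, Submodule.mem_bot] at h2
      exact hv h2
    · exact h1
  have hcl : ∀ a ∈ A, ∀ b ∈ A, a⁻¹ * b ∈ Y → U.map (ρ a) = U.map (ρ b) := by
    intro a _ b _ hab
    have e1 : b = a * (a⁻¹ * b) := by group
    rw [e1, hmm, hUL _ (Subgroup.mem_sup_right hab)]
  have hind : sSupIndep DD := by
    intro W hW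
    rw [Submodule.disjoint_def]
    intro w hw1 hw2
    rw [Submodule.mem_sSup_iff_exists_finset] at hw2
    obtain ⟨s, hs, hw3⟩ := hw2
    rw [Submodule.mem_iSup_finset_iff_exists_sum (fun i : Submodule k V => i)] at hw3
    obtain ⟨μ, hμ⟩ := hw3
    have hch : ∀ X : Submodule k V, ∃ a : G, X ∈ DD → a ∈ A ∧ X = U.map (ρ a) := by
      intro X
      by_cases hX : X ∈ DD
      · obtain ⟨a, ha, h1⟩ := hX
        exact ⟨a, fun _ => ⟨ha, h1⟩⟩
      · exact ⟨1, fun h => absurd h hX⟩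
    choose τ hτ using hch
    have hWs : W ∉ s := fun h => (hs h).2 rfl
    have hsD : ∀ X ∈ insert W s, X ∈ DD := by
      intro X hX
      rcases Finset.mem_insert.1 hX with rfl | hX
      · exact hW
      · exact (hs hX).1
    -- the vectors
    have hz : ∀ X : Submodule k V, ∃ z : V, X ∈ insert W s →
        z ∈ U ∧ ρ (τ X) z = (if X = W then w else -(μ X : V)) := by
      intro X
      by_cases hX : X ∈ insert W s
      · have h1 : (if X = W then w else -(μ X : V)) ∈ U.map (ρ (τ X)) := by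
          rw [← (hτ X (hsD X hX)).2]
          split_ifs with h2
          · rw [h2]
            exact hw1
          · exact neg_mem (μ X).2
        obtain ⟨z, hz1, hz2⟩ := h1
        exact ⟨z, fun _ => ⟨hz1, hz2⟩⟩
      · exact ⟨0, fun h => absurd h hX⟩
    choose z hz using hz
    have h5 := indep' D hV H Y hYA hYn v hdesc (insert W s) τ
      (fun X hX => (hτ X (hsD X hX)).1)
      (fun X hX X' hX' hne hY => hne (by
        rw [(hτ X (hsD X hX)).2, (hτ X' (hsD X' hX')).2]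
        exact hcl _ (hτ X (hsD X hX)).1 _ (hτ X' (hsD X' hX')).1 hY))
      z (fun X hX => (hz X hX).1) ?_ W (Finset.mem_insert_self _ _)
    · have h6 := (hz W (Finset.mem_insert_self _ _)).2
      rw [h5, map_zero, if_pos rfl] at h6
      exact h6.symm
    · rw [Finset.sum_insert hWs, (hz W (Finset.mem_insert_self _ _)).2, if_pos rfl]
      have h6 : ∑ X ∈ s, ρ (τ X) (z X) = ∑ X ∈ s, -(μ X : V) := by
        refine Finset.sum_congr rfl fun X hX => ?_
        rw [(hz X (Finset.mem_insert_of_mem hX)).2, if_neg]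
        rintro rfl
        exact hWs hX
      rw [h6, Finset.sum_neg_distrib, hμ, add_neg_cancel]
  have hsub := hp DD hbot hind htop hperm
  intro a ha
  by_contra haY
  have h1 : U.map (ρ a) = U := hsub ⟨a, ha, rfl⟩ hUD
  have h2 : ρ a v ∈ U := by
    rw [← h1]
    exact Submodule.mem_map_of_mem hvU
  have h3 := indep D hV H Y hYA hYn v hdesc 2 ![a, 1] ?_ ?_ ![v, -(ρ a v)] ?_ ?_ 0
  · exact hv h3
  · intro i
    fin_cases i
    · exact ha
    · exact one_mem _
  · intro i j hij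
    fin_cases i <;> fin_cases j
    · exact absurd rfl hij
    · intro h4
      have h5 : a⁻¹ * 1 ∈ Y := h4
      rw [mul_one] at h5
      exact haY (by simpa using inv_mem h5)
    · intro h4
      have h5 : (1 : G)⁻¹ * a ∈ Y := h4
      rw [inv_one, one_mul] at h5
      exact haY h5
    · exact absurd rfl hij
  · intro i
    fin_cases i
    · exact hvU
    · exact neg_mem h2
  · rw [Fin.sum_univ_two]
    change ρ a v + ρ 1 (-(ρ a v)) = 0
    rw [map_one, Module.End.one_apply, add_neg_cancel]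

end Pool.Agent.Lib.PRI
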