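import Mathlib

/-!
# Library PRI (MP_d9ed73_al): primitive representations of nilpotent minimax groups. Definitions.

Theorem (file PRI.Main): let `G` be a nilpotent minimax group with an abelian normal subgroup `A` such that `G / A` is
finitely generated, `k` a finitely generated field of characteristic `0`. If `G` has a faithful irreducible primitive
representation over `k`, then `G` is finitely generated.
-/

set_option autoImplicit false

namespace Pool.Agent.Lib.PRI

/-- `G` is minimax: it has a finite series of subgroups, each normal in the next one, such that the subgroups between two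
consecutive terms (that is, the subgroups of the factor) satisfy the minimal or the maximal condition. -/
def Minimax (G : Type) [Group G] : Prop :=
  ∃ (n : ℕ) (s : ℕ → Subgroup G), s 0 = ⊥ ∧ s n = ⊤ ∧ ∀ i < n, s i ≤ s (i + 1) ∧
    ((s i).subgroupOf (s (i + 1))).Normal ∧
      (WellFoundedLT (Set.Icc (s i) (s (i + 1))) ∨ WellFoundedGT (Set.Icc (s i) (s (i + 1))))

/-- `k` is finitely generated as a field (over its prime field `ℚ`). -/
def FGField (k : Type) [Field k] [CharZero k] : Prop :=
  ∃ S : Finset k, IntermediateField.adjoin ℚ (S : Set k) = ⊤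

/-- `n` is a positive integer all of whose prime divisors are in `π`. -/
def PiNum (π : Finset ℕ) (n : ℕ) : Prop := 0 < n ∧ ∀ p, p.Prime → p ∣ n → p ∈ π

/-- `π` is a set of primes, `F` contains the `p`-th roots of unity for `p ∈ π`, and the fourth ones if `2 ∈ π`. -/
def GoodRoots (F : Type) [Field F] (π : Finset ℕ) : Prop :=
  (∀ p ∈ π, p.Prime) ∧ (∀ p ∈ π, ∃ ζ : F, IsPrimitiveRoot ζ p) ∧ (2 ∈ π → ∃ ζ : F, IsPrimitiveRoot ζ 4)

section

variable {G k V : Type} [Group G] [Field k] [AddCommGroup V] [Module k V]

/-- the representation is irreducible -/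
def Irr (ρ : Representation k G V) : Prop :=
  Nontrivial V ∧ ∀ W : Submodule k V, (∀ g, ∀ w ∈ W, ρ g w ∈ W) → W = ⊥ ∨ W = ⊤

/-- the representation is primitive: a decomposition of `V` into a direct sum of nonzero subspaces that are permuted by
`G` has at most one summand -/
def Prim (ρ : Representation k G V) : Prop :=
  ∀ D : Set (Submodule k V), ⊥ ∉ D → sSupIndep D → sSup D = ⊤ →
    (∀ W ∈ D, ∀ g, W.map (ρ g) ∈ D) → D.Subsingleton

/-- The field of fractions of the commutative ring of operators generated by the abelian normal subgroup `A`: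
`B ⊆ F` is a copy of this ring (`act` is the action on `V`), `ι a` is the element of `B` that acts as `a ∈ A`, `F` is the
field of fractions of `B`, `G` acts on `F` by conjugation. -/
structure Dat (ρ : Representation k G V) (A : Subgroup G) (F : Type) [Field F] [Algebra k F]
    [MulSemiringAction G F] where
  ι : G → F
  B : Subalgebra k F
  act : B →ₐ[k] Module.End k V
  inj : ∀ b : B, b ≠ 0 → Function.Injective (act b)
  frac : ∀ f : F, ∃ b : B, b ≠ 0 ∧ (b : F) * f ∈ B
  ι_mem : ∀ a ∈ A, ι a ∈ B
  act_ι : ∀ (a : G) (ha : a ∈ A), act ⟨ι a, ι_mem a ha⟩ = ρ a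
  gen : Algebra.adjoin k (ι '' (A : Set G)) = B
  smul_mem : ∀ (g : G), ∀ b ∈ B, g • b ∈ B
  act_smul : ∀ (g : G) (b : B), act ⟨g • (b : F), smul_mem g b b.2⟩ * ρ g = ρ g * act b
  smul_k : ∀ (g : G) (c : k), g • (algebraMap k F c) = algebraMap k F c

/-- the subfield generated by `Y ≤ A` -/
def FY {ρ : Representation k G V} {A : Subgroup G} {F : Type} [Field F] [Algebra k F] [MulSemiringAction G F]
    (D : Dat ρ A F) (Y : Subgroup G) : IntermediateField k F :=
  IntermediateField.adjoin k (D.ι '' (Y : Set G))

/-- the annihilator of `v` in the skew group ring of `H` over `F` -/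
def Jset {ρ : Representation k G V} {A : Subgroup G} {F : Type} [Field F] [Algebra k F] [MulSemiringAction G F]
    (D : Dat ρ A F) (H : Subgroup G) (v : V) : Set (SkewMonoidAlgebra F H) :=
  {r | ∃ b : D.B, b ≠ 0 ∧ ∃ c : H →₀ D.B, (∀ h, (c h : F) = b * r.coeff h) ∧
    (c.sum fun h x => D.act x (ρ h v)) = 0}

end

end Pool.Agent.Lib.PRI
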