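import Pool.Agent.Lib.PRI.Jd

/-!
# PRI.Ds: the annihilator is defined over a finitely generated subgroup (1.2 h)
PROOF. `J` is finitely generated as a left ideal, by `r_1, …, r_n`, with finitely many coefficients; each coefficient is in `F = k(ι A)` (`dat_gen`), so in `k(ι S)` for a finite set `S ⊆ A` (`IntermediateField.exists_finset_of_mem_adjoin` or the fraction representation). `Y0 = Y1 ⊔ closure S`, `Y` from `hex`. Every element of `J` is `∑ e_i r_i`, `e_i = ∑_h single h f = ∑_h single 1 f * single h 1`, so it is a sum of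
`single 1 f * (single h 1 * r_i)`, and `single h 1 * r_i ∈ J` has the coefficients `h • r_i.coeff (h⁻¹ x)`, which are in `FY D Y` because `h • ι y = ι (h y h⁻¹)` (`dat_smul`, `Y` normal in `G`), `h` fixes `k` (`D.smul_k`), so `h • FY ⊆ FY`.
-/

set_option autoImplicit false

namespace Pool.Agent.Lib.PRI

variable {G k V : Type} [Group G] [Field k] [AddCommGroup V] [Module k V]
variable {ρ : Representation k G V} {A : Subgroup G} {F : Type} [Field F] [Algebra k F]
  [MulSemiringAction G F]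

namespace DsAux

open SkewMonoidAlgebra

/-- the elements of the required form -/
def PP (D : Dat ρ A F) (H Y : Subgroup G) (J : Ideal (SkewMonoidAlgebra F H))
    (r : SkewMonoidAlgebra F H) : Prop :=
  ∃ (m : ℕ) (f : Fin m → F) (s : Fin m → SkewMonoidAlgebra F H),
    (∀ l, s l ∈ J ∧ ∀ h, (s l).coeff h ∈ FY D Y) ∧ r = ∑ l, SkewMonoidAlgebra.single 1 (f l) * s l

theorem pp_zero {D : Dat ρ A F} {H Y : Subgroup G} {J : Ideal (SkewMonoidAlgebra F H)} :
    PP D H Y J 0 :=
  ⟨0, fun _ => 0, fun _ => 0, fun l => l.elim0, by simp⟩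

theorem pp_add {D : Dat ρ A F} {H Y : Subgroup G} {J : Ideal (SkewMonoidAlgebra F H)}
    {r r' : SkewMonoidAlgebra F H} (h : PP D H Y J r) (h' : PP D H Y J r') : PP D H Y J (r + r') := by
  obtain ⟨m, f, s, hs, rfl⟩ := h
  obtain ⟨m', f', s', hs', rfl⟩ := h'
  refine ⟨m + m', Fin.append f f', Fin.append s s', ?_, ?_⟩
  · intro l
    refine Fin.addCases (fun i => ?_) (fun i => ?_) l
    · rw [Fin.append_left]
      exact hs i
    · rw [Fin.append_right]
      exact hs' i
  · rw [Fin.sum_univ_add]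
    simp only [Fin.append_left, Fin.append_right]

theorem pp_base {D : Dat ρ A F} {H Y : Subgroup G} {J : Ideal (SkewMonoidAlgebra F H)}
    {r : SkewMonoidAlgebra F H} (h : r ∈ J) (h' : ∀ x, r.coeff x ∈ FY D Y) : PP D H Y J r := by
  refine ⟨1, fun _ => 1, fun _ => r, fun _ => ⟨h, h'⟩, ?_⟩
  rw [Fin.sum_univ_one, single_one_one, one_mul]

theorem fy_smul {D : Dat ρ A F} (hV : Nontrivial V) (hn : A.Normal) {Y : Subgroup G} (hY : Y ≤ A)
    (hYn : Y.Normal) (g : G) {f : F} (hf : f ∈ FY D Y) : g • f ∈ FY D Y := by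
  have key : ∀ x ∈ IntermediateField.adjoin k (D.ι '' (Y : Set G)), g • x ∈ FY D Y := by
    intro x hx
    induction hx using IntermediateField.adjoin_induction with
    | mem x hx =>
      obtain ⟨y, hy, rfl⟩ := hx
      rw [dat_smul D hV hn g (hY hy)]
      exact IntermediateField.subset_adjoin k _ ⟨g * y * g⁻¹, hYn.conj_mem y hy g, rfl⟩
    | algebraMap c =>
      rw [D.smul_k]
      exact IntermediateField.algebraMap_mem _ c
    | add x y _ _ hx hy =>
      rw [smul_add]
      exact IntermediateField.add_mem _ hx hy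
    | inv x _ hx =>
      rw [smul_inv'']
      exact IntermediateField.inv_mem _ hx
    | mul x y _ _ hx hy =>
      rw [smul_mul']
      exact IntermediateField.mul_mem _ hx hy
  exact key f hf

theorem pp_single {D : Dat ρ A F} (hV : Nontrivial V) (hn : A.Normal) {H Y : Subgroup G}
    (hY : Y ≤ A) (hYn : Y.Normal) {J : Ideal (SkewMonoidAlgebra F H)}
    {r : SkewMonoidAlgebra F H} (h : PP D H Y J r) (x : H) (c : F) :
    PP D H Y J (single x c * r) := by
  obtain ⟨m, f, s, hs, rfl⟩ := h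
  refine ⟨m, fun l => c * x • f l, fun l => single x 1 * s l, fun l => ⟨?_, ?_⟩, ?_⟩
  · exact J.mul_mem_left _ (hs l).1
  · intro y
    rw [coeff_single_mul, one_mul]
    exact fy_smul hV hn hY hYn (x : G) ((hs l).2 _)
  · rw [Finset.mul_sum]
    refine Finset.sum_congr rfl fun l _ => ?_
    rw [← mul_assoc, ← mul_assoc, single_mul_single, single_mul_single, mul_one, one_mul,
      smul_one, mul_one]

theorem pp_mul {D : Dat ρ A F} (hV : Nontrivial V) (hn : A.Normal) {H Y : Subgroup G}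
    (hY : Y ≤ A) (hYn : Y.Normal) {J : Ideal (SkewMonoidAlgebra F H)}
    {r : SkewMonoidAlgebra F H} (h : PP D H Y J r) (a : SkewMonoidAlgebra F H) :
    PP D H Y J (a * r) := by
  induction a using SkewMonoidAlgebra.induction_on with
  | zero =>
    rw [zero_mul]
    exact pp_zero
  | single x c => exact pp_single hV hn hY hYn h x c
  | add a b ha hb =>
    rw [add_mul]
    exact pp_add ha hb

theorem fy_mono {D : Dat ρ A F} {Y Y' : Subgroup G} (h : Y ≤ Y') {f : F} (hf : f ∈ FY D Y) :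
    f ∈ FY D Y' :=
  IntermediateField.adjoin.mono k _ _ (Set.image_mono h) hf

theorem exists_fg (D : Dat ρ A F) (f : F) : ∃ Y : Subgroup G, Y ≤ A ∧ Y.FG ∧ f ∈ FY D Y := by
  classical
  have h1 : f ∈ IntermediateField.adjoin k (D.ι '' (A : Set G)) := by
    rw [dat_gen D]
    exact IntermediateField.mem_top
  obtain ⟨T, hT, hfT⟩ := IntermediateField.exists_finset_of_mem_adjoin h1
  obtain ⟨S, hS, hST⟩ := Finset.subset_set_image_iff.1 hT
  refine ⟨Subgroup.closure (S : Set G), ?_, ⟨S, rfl⟩, ?_⟩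
  · rw [Subgroup.closure_le]
    exact hS
  · refine IntermediateField.adjoin.mono k _ _ ?_ hfT
    rw [← hST, Finset.coe_image]
    exact Set.image_mono Subgroup.subset_closure

theorem exists_fg_fin (D : Dat ρ A F) {ι : Type} (S : Finset ι) (f : ι → F) :
    ∃ Y : Subgroup G, Y ≤ A ∧ Y.FG ∧ ∀ i ∈ S, f i ∈ FY D Y := by
  classical
  induction S using Finset.induction_on with
  | empty => exact ⟨⊥, bot_le, ⟨∅, by simp⟩, fun i hi => absurd hi (Finset.notMem_empty i)⟩
  | insert a S _ ih =>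
    obtain ⟨Y, h1, h2, h3⟩ := ih
    obtain ⟨Y', h1', h2', h3'⟩ := exists_fg D (f a)
    refine ⟨Y ⊔ Y', sup_le h1 h1', h2.sup h2', ?_⟩
    intro i hi
    rw [Finset.mem_insert] at hi
    rcases hi with rfl | hi
    · exact fy_mono le_sup_right h3'
    · exact fy_mono le_sup_left (h3 i hi)

theorem exists_fg_el (D : Dat ρ A F) {H : Subgroup G} (T : Finset (SkewMonoidAlgebra F H)) :
    ∃ Y : Subgroup G, Y ≤ A ∧ Y.FG ∧ ∀ t ∈ T, ∀ h, t.coeff h ∈ FY D Y := by
  classical
  induction T using Finset.induction_on with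
  | empty => exact ⟨⊥, bot_le, ⟨∅, by simp⟩, fun i hi => absurd hi (Finset.notMem_empty i)⟩
  | insert a S _ ih =>
    obtain ⟨Y, h1, h2, h3⟩ := ih
    obtain ⟨Y', h1', h2', h3'⟩ := exists_fg_fin D a.support (fun h => a.coeff h)
    refine ⟨Y ⊔ Y', sup_le h1 h1', h2.sup h2', ?_⟩
    intro i hi h
    rw [Finset.mem_insert] at hi
    rcases hi with rfl | hi
    · by_cases hh : h ∈ i.support
      · exact fy_mono le_sup_right (h3' h hh)
      · rw [notMem_support_iff.1 hh]
        exact IntermediateField.zero_mem _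
    · exact fy_mono le_sup_left (h3 i hi h)

end DsAux

open DsAux

theorem exists_Y (D : Dat ρ A F) (hV : Nontrivial V) (hn : A.Normal) (H : Subgroup G)
    (hN : IsNoetherianRing (SkewMonoidAlgebra F H))
    (hex : ∀ Y0 : Subgroup G, Y0 ≤ A → Y0.FG →
      ∃ Y : Subgroup G, Y0 ≤ Y ∧ Y ≤ A ∧ Y.FG ∧ Y.Normal ∧ H ⊓ A ≤ Y)
    (J : Ideal (SkewMonoidAlgebra F H)) (Y1 : Subgroup G) (h1 : Y1 ≤ A) (hf : Y1.FG) :
    ∃ Y : Subgroup G, Y1 ≤ Y ∧ Y ≤ A ∧ Y.FG ∧ Y.Normal ∧ H ⊓ A ≤ Y ∧ ∀ r ∈ J,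
      ∃ (m : ℕ) (f : Fin m → F) (s : Fin m → SkewMonoidAlgebra F H),
        (∀ l, s l ∈ J ∧ ∀ h, (s l).coeff h ∈ FY D Y) ∧
          r = ∑ l, SkewMonoidAlgebra.single 1 (f l) * s l := by
  obtain ⟨T, hT⟩ : J.FG := (isNoetherianRing_iff_ideal_fg _).1 hN J
  obtain ⟨Y2, h2, hf2, hY2⟩ := exists_fg_el D T
  obtain ⟨Y, hY0, hYA, hYf, hYn, hHY⟩ := hex (Y1 ⊔ Y2) (sup_le h1 h2) (hf.sup hf2)
  refine ⟨Y, le_sup_left.trans hY0, hYA, hYf, hYn, hHY, ?_⟩
  intro r hr
  rw [← hT] at hr
  change PP D H Y J r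
  refine Submodule.span_induction (p := fun r _ => PP D H Y J r) ?_ pp_zero ?_ ?_ hr
  · intro t ht
    refine pp_base ?_ fun x => fy_mono (le_sup_right.trans hY0) (hY2 t ht x)
    rw [← hT]
    exact Submodule.subset_span ht
  · intro x y _ _ hx hy
    exact pp_add hx hy
  · intro a x _ hx
    exact pp_mul hV hn hYA hYn hx a

end Pool.Agent.Lib.PRI
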