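import Pool.Agent.Lib.PRI.Defs

/-!
# PRI.Fc: the field of fractions of the ring of operators (1.5 h)
PROOF. `exists_dat`: `B₀ = Algebra.adjoin k (ρ '' A)`, commutative ring (`Algebra.adjoinCommRingOfComm`), a domain (`r s = 0`, `r ≠ 0` injective, so `s = 0`; `1 ≠ 0` as `V` is nontrivial). `F = FractionRing B₀` with its `k`-algebra structure, `B` = range of `B₀ → F` (`IsScalarTower.toAlgHom`), `act` = inverse of `B₀ ≃ B`, followed by the inclusion into `End V`. `ι a` = image of `ρ a` for `a ∈ A` (`0`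
otherwise). `frac`: every element of `F` is `x / y` (`IsFractionRing.div_surjective`). The action of `g` on `B₀`: `c_g r = ρ g * r * ρ g⁻¹` (maps `ρ a` to `ρ (g a g⁻¹)`, `A` normal), a ring automorphism of `B₀`, extended to `F` (`IsFractionRing.ringEquivOfRingEquiv` / `fieldEquivOfAlgEquiv`); `g ↦ ` this automorphism is multiplicative by uniqueness of the extension, so it is a `MulSemiringAction`
(`MulSemiringAction.ofRingHom`-like construction: define `smul g x = φ g x` and check the axioms). The other lemmas: `V` nontrivial and `inj` show that `act` is injective on elements: if `act b = act b'` then `b = b'` (`act (b - b') = 0` is not injective). `ι` is multiplicative on `A`: compare the actions; `g • ι a = ι (g a g⁻¹)`: `act (g • ι a) * ρ g = ρ g * ρ a = ρ (g a g⁻¹) * ρ g`; `a • b = b` for `a ∈ A`: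
`act (a • b) * ρ a = ρ a * act b = act b * ρ a` (`B` commutative), `a • f = f` for `f ∈ F` (fractions). `F = k(ι A)` by `frac` and `gen`.
-/

set_option autoImplicit false

namespace Pool.Agent.Lib.PRI

variable {G k V : Type} [Group G] [Field k] [AddCommGroup V] [Module k V]

namespace FcAux

theorem mk_dat (ρ : Representation k G V) (A : Subgroup G) (B₀ : Type) [CommRing B₀] [IsDomain B₀]
    [Algebra k B₀] [MulSemiringAction G B₀] (act0 : B₀ →ₐ[k] Module.End k V)
    (hinj0 : ∀ b : B₀, b ≠ 0 → Function.Injective (act0 b)) (ι0 : G → B₀)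
    (hι : ∀ a ∈ A, act0 (ι0 a) = ρ a) (hgen : Algebra.adjoin k (ι0 '' (A : Set G)) = ⊤)
    (hc : ∀ (g : G) (b : B₀), act0 (g • b) * ρ g = ρ g * act0 b)
    (hk : ∀ (g : G) (c : k), g • (algebraMap k B₀ c) = algebraMap k B₀ c) :
    ∃ (F : Type) (_ : Field F) (_ : Algebra k F) (_ : MulSemiringAction G F),
      Nonempty (Dat ρ A F) := by
  let F : Type := FractionRing B₀
  let hact : MulSemiringAction G F := IsFractionRing.mulSemiringAction G B₀ F
  have hsd : SMulDistribClass G B₀ F := IsFractionRing.smulDistribClass G B₀ F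
  have hsm : ∀ (g : G) (b : B₀), g • algebraMap B₀ F b = algebraMap B₀ F (g • b) := fun g b =>
    (algebraMap.coe_smul' g b F).symm
  let e0 : B₀ →ₐ[k] F := IsScalarTower.toAlgHom k B₀ F
  have he0 : Function.Injective e0 := IsFractionRing.injective B₀ F
  let e : B₀ ≃ₐ[k] e0.range := AlgEquiv.ofInjective e0 he0
  have he : ∀ b, ((e b : e0.range) : F) = algebraMap B₀ F b := fun _ => rfl
  refine ⟨F, inferInstance, inferInstance, hact, ⟨?_⟩⟩
  exact
    { ι := fun g => algebraMap B₀ F (ι0 g)
      B := e0.range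
      act := act0.comp (e.symm : e0.range →ₐ[k] B₀)
      inj := by
        intro b hb
        have h1 : e.symm b ≠ 0 := by
          intro h
          exact hb ((map_eq_zero_iff e.symm e.symm.injective).1 h)
        exact hinj0 _ h1
      frac := by
        intro f
        obtain ⟨x, y, hy, rfl⟩ := IsFractionRing.div_surjective (A := B₀) f
        have hy0 : y ≠ 0 := nonZeroDivisors.ne_zero hy
        have hy1 : algebraMap B₀ F y ≠ 0 := by
          rwa [Ne, IsFractionRing.to_map_eq_zero_iff]
        refine ⟨e y, ?_, ?_⟩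
        · intro h
          exact hy0 ((map_eq_zero_iff e e.injective).1 h)
        · rw [he, mul_div_cancel₀ _ hy1]
          exact ⟨x, rfl⟩
      ι_mem := fun a _ => ⟨ι0 a, rfl⟩
      act_ι := by
        intro a ha
        have h1 : e.symm ⟨algebraMap B₀ F (ι0 a), ⟨ι0 a, rfl⟩⟩ = ι0 a := by
          rw [AlgEquiv.symm_apply_eq]
          rfl
        change act0 (e.symm ⟨algebraMap B₀ F (ι0 a), _⟩) = ρ a
        rw [h1, hι a ha]
      gen := by
        have h1 : (fun g => algebraMap B₀ F (ι0 g)) '' (A : Set G)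
            = e0 '' (ι0 '' (A : Set G)) := by
          rw [Set.image_image]
          rfl
        rw [h1, ← AlgHom.map_adjoin, hgen, Algebra.map_top]
      smul_mem := by
        rintro g _ ⟨b, rfl⟩
        exact ⟨g • b, (hsm g b).symm⟩
      act_smul := by
        intro g b
        obtain ⟨b0, rfl⟩ := e.surjective b
        have h1 : ∀ hx, e.symm ⟨g • ((e b0 : e0.range) : F), hx⟩ = g • b0 := by
          intro hx
          rw [AlgEquiv.symm_apply_eq]
          apply Subtype.ext
          exact hsm g b0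
        have h2 : e.symm (e b0) = b0 := e.symm_apply_apply b0
        change act0 (e.symm ⟨g • ((e b0 : e0.range) : F), _⟩) * ρ g = ρ g * act0 (e.symm (e b0))
        rw [h1, h2, hc]
      smul_k := by
        intro g c
        rw [IsScalarTower.algebraMap_apply k B₀ F, hsm, hk] }

theorem cj_mem {ρ : Representation k G V} {A : Subgroup G} (hn : A.Normal) (g : G)
    {r : Module.End k V} (hr : r ∈ Algebra.adjoin k (ρ '' (A : Set G))) :
    ρ g * r * ρ g⁻¹ ∈ Algebra.adjoin k (ρ '' (A : Set G)) := by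
  have hg : ρ g⁻¹ * ρ g = 1 := by rw [← map_mul, inv_mul_cancel, map_one]
  have hg' : ρ g * ρ g⁻¹ = 1 := by rw [← map_mul, mul_inv_cancel, map_one]
  induction hr using Algebra.adjoin_induction with
  | mem x hx =>
    obtain ⟨a, ha, rfl⟩ := hx
    rw [← map_mul, ← map_mul]
    exact Algebra.subset_adjoin ⟨g * a * g⁻¹, hn.conj_mem a ha g, rfl⟩
  | algebraMap c =>
    have h1 : ρ g * algebraMap k (Module.End k V) c * ρ g⁻¹ = algebraMap k _ c := by
      rw [← Algebra.commutes, mul_assoc, hg', mul_one]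
    rw [h1]
    exact Subalgebra.algebraMap_mem _ c
  | add x y _ _ hx hy =>
    rw [mul_add, add_mul]
    exact Subalgebra.add_mem _ hx hy
  | mul x y _ _ hx hy =>
    have h1 : ρ g * (x * y) * ρ g⁻¹ = (ρ g * x * ρ g⁻¹) * (ρ g * y * ρ g⁻¹) := by
      calc ρ g * (x * y) * ρ g⁻¹ = ρ g * x * 1 * y * ρ g⁻¹ := by
            rw [mul_one, ← mul_assoc]
        _ = ρ g * x * (ρ g⁻¹ * ρ g) * y * ρ g⁻¹ := by rw [hg]
        _ = _ := by simp only [mul_assoc]
    rw [h1]
    exact Subalgebra.mul_mem _ hx hy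

end FcAux

open FcAux

theorem exists_dat (ρ : Representation k G V) (hV : Nontrivial V) (A : Subgroup G) (hn : A.Normal)
    (hA : ∀ a ∈ A, ∀ b ∈ A, a * b = b * a)
    (htf : ∀ r ∈ Algebra.adjoin k (ρ '' (A : Set G)), r ≠ 0 → Function.Injective r) :
    ∃ (F : Type) (_ : Field F) (_ : Algebra k F) (_ : MulSemiringAction G F), Nonempty (Dat ρ A F) := by
  classical
  set B₀ := Algebra.adjoin k (ρ '' (A : Set G)) with hB₀
  have hcomm : IsMulCommutative B₀ := Algebra.isMulCommutative_adjoin k (by
    rintro _ ⟨a, ha, rfl⟩ _ ⟨b, hb, rfl⟩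
    rw [← map_mul, hA a ha b hb, map_mul])
  let hcr : CommRing B₀ := { (inferInstance : Ring B₀) with mul_comm := fun a b => hcomm.is_comm.comm a b }
  have hnt : Nontrivial B₀ := by
    refine ⟨0, 1, fun h => ?_⟩
    have h1 : (0 : Module.End k V) = 1 := congrArg Subtype.val h
    obtain ⟨v, hv⟩ := exists_ne (0 : V)
    apply hv
    have h2 := congrArg (fun f : Module.End k V => f v) h1
    exact h2.symm
  have hnz : NoZeroDivisors B₀ := by
    refine ⟨fun {a b} hab => ?_⟩
    by_cases ha : a = 0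
    · exact Or.inl ha
    · right
      have h1 := htf a a.2 (fun h => ha (Subtype.ext h))
      apply Subtype.ext
      apply LinearMap.ext
      intro v
      apply h1
      have h2 : ((a * b : B₀) : Module.End k V) v = 0 := by rw [hab]; rfl
      have h3 : (a : Module.End k V) (((0 : B₀) : Module.End k V) v) = 0 :=
        LinearMap.map_zero (a : Module.End k V)
      rw [h3]
      exact h2
  have hdom : IsDomain B₀ := NoZeroDivisors.to_isDomain B₀
  let hact : MulSemiringAction G B₀ :=
    { smul := fun g b => ⟨ρ g * b * ρ g⁻¹, cj_mem hn g b.2⟩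
      one_smul := by
        intro b
        apply Subtype.ext
        change ρ 1 * (b : Module.End k V) * ρ 1⁻¹ = b
        rw [inv_one, map_one, one_mul, mul_one]
      mul_smul := by
        intro g h b
        apply Subtype.ext
        change ρ (g * h) * (b : Module.End k V) * ρ (g * h)⁻¹ = ρ g * (ρ h * b * ρ h⁻¹) * ρ g⁻¹
        rw [mul_inv_rev, map_mul, map_mul]
        simp only [mul_assoc]
      smul_zero := by
        intro g
        apply Subtype.ext
        change ρ g * 0 * ρ g⁻¹ = 0
        rw [mul_zero, zero_mul]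
      smul_add := by
        intro g a b
        apply Subtype.ext
        change ρ g * ((a : Module.End k V) + b) * ρ g⁻¹ = ρ g * a * ρ g⁻¹ + ρ g * b * ρ g⁻¹
        rw [mul_add, add_mul]
      smul_one := by
        intro g
        apply Subtype.ext
        change ρ g * 1 * ρ g⁻¹ = 1
        rw [mul_one, ← map_mul, mul_inv_cancel, map_one]
      smul_mul := by
        intro g a b
        apply Subtype.ext
        change ρ g * ((a : Module.End k V) * b) * ρ g⁻¹ = ρ g * a * ρ g⁻¹ * (ρ g * b * ρ g⁻¹)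
        have hg : ρ g⁻¹ * ρ g = 1 := by rw [← map_mul, inv_mul_cancel, map_one]
        calc ρ g * ((a : Module.End k V) * b) * ρ g⁻¹ = ρ g * a * 1 * b * ρ g⁻¹ := by
              rw [mul_one, ← mul_assoc]
          _ = ρ g * a * (ρ g⁻¹ * ρ g) * b * ρ g⁻¹ := by rw [hg]
          _ = _ := by simp only [mul_assoc] }
  refine mk_dat ρ A B₀ B₀.val ?_ (fun g => if h : g ∈ A then ⟨ρ g, Algebra.subset_adjoin ⟨g, h, rfl⟩⟩ else 0)
    ?_ ?_ ?_ ?_
  · intro b hb
    exact htf b b.2 (fun h => hb (Subtype.ext h))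
  · intro a ha
    simp only [dif_pos ha]
    rfl
  · have h1 : (fun g => if h : g ∈ A then (⟨ρ g, Algebra.subset_adjoin ⟨g, h, rfl⟩⟩ : B₀) else 0) ''
        (A : Set G) = ((↑) : B₀ → Module.End k V) ⁻¹' (ρ '' (A : Set G)) := by
      ext x
      constructor
      · rintro ⟨a, ha, rfl⟩
        refine ⟨a, ha, ?_⟩
        simp only [dif_pos (show a ∈ A from ha)]
      · rintro ⟨a, ha, hx⟩
        refine ⟨a, ha, ?_⟩
        apply Subtype.ext
        simp only [dif_pos (show a ∈ A from ha)]
        exact hx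
    rw [h1]
    exact Algebra.adjoin_adjoin_coe_preimage
  · intro g b
    change ρ g * (b : Module.End k V) * ρ g⁻¹ * ρ g = ρ g * b
    rw [mul_assoc, ← map_mul, inv_mul_cancel, map_one, mul_one]
  · intro g c
    apply Subtype.ext
    change ρ g * algebraMap k (Module.End k V) c * ρ g⁻¹ = algebraMap k _ c
    rw [← Algebra.commutes, mul_assoc, ← map_mul, mul_inv_cancel, map_one, mul_one]

section

variable {ρ : Representation k G V} {A : Subgroup G} {F : Type} [Field F] [Algebra k F]
  [MulSemiringAction G F] (D : Dat ρ A F)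

theorem dat_ext (hV : Nontrivial V) {b b' : D.B} (h : D.act b = D.act b') : b = b' := by
  by_contra hne
  have h1 : b - b' ≠ 0 := sub_ne_zero.2 hne
  have h2 := D.inj _ h1
  obtain ⟨v, hv⟩ := exists_ne (0 : V)
  apply hv
  apply h2
  rw [map_sub, h, sub_self, LinearMap.zero_apply, LinearMap.zero_apply]

theorem dat_mul (hV : Nontrivial V) {a b : G} (ha : a ∈ A) (hb : b ∈ A) : D.ι (a * b) = D.ι a * D.ι b := by
  have h1 : (⟨D.ι (a * b), D.ι_mem _ (A.mul_mem ha hb)⟩ : D.B)
      = ⟨D.ι a, D.ι_mem a ha⟩ * ⟨D.ι b, D.ι_mem b hb⟩ := by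
    apply dat_ext D hV
    rw [map_mul, D.act_ι _ (A.mul_mem ha hb), D.act_ι a ha, D.act_ι b hb, map_mul]
  exact congrArg Subtype.val h1

theorem dat_one (hV : Nontrivial V) : D.ι 1 = 1 := by
  have h1 : (⟨D.ι 1, D.ι_mem _ A.one_mem⟩ : D.B) = 1 := by
    apply dat_ext D hV
    rw [D.act_ι _ A.one_mem, map_one, map_one]
  exact congrArg Subtype.val h1

theorem dat_inj (hf : Function.Injective ρ) {a b : G} (ha : a ∈ A) (hb : b ∈ A) (h : D.ι a = D.ι b) :
    a = b := by
  apply hf
  rw [← D.act_ι a ha, ← D.act_ι b hb]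
  congr 1
  exact Subtype.ext h

theorem dat_smul (hV : Nontrivial V) (hn : A.Normal) (g : G) {a : G} (ha : a ∈ A) :
    g • D.ι a = D.ι (g * a * g⁻¹) := by
  have ha' : g * a * g⁻¹ ∈ A := hn.conj_mem a ha g
  have hg : ρ g * ρ g⁻¹ = 1 := by rw [← map_mul, mul_inv_cancel, map_one]
  have h1 : (⟨g • D.ι a, D.smul_mem g _ (D.ι_mem a ha)⟩ : D.B)
      = ⟨D.ι (g * a * g⁻¹), D.ι_mem _ ha'⟩ := by
    apply dat_ext D hV
    have h2 := D.act_smul g ⟨D.ι a, D.ι_mem a ha⟩
    rw [D.act_ι a ha] at h2
    rw [D.act_ι _ ha']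
    have h3 := congrArg (fun f => f * ρ g⁻¹) h2
    simp only [mul_assoc, hg, mul_one] at h3
    rw [h3, map_mul, map_mul, mul_assoc]
  exact congrArg Subtype.val h1

theorem dat_gen : IntermediateField.adjoin k (D.ι '' (A : Set G)) = ⊤ := by
  rw [eq_top_iff]
  intro f _
  obtain ⟨b, hb, hbf⟩ := D.frac f
  have hle : ∀ x ∈ D.B, x ∈ IntermediateField.adjoin k (D.ι '' (A : Set G)) := by
    intro x hx
    rw [← D.gen] at hx
    exact IntermediateField.algebra_adjoin_le_adjoin k _ hx
  have hb0 : (b : F) ≠ 0 := fun h => hb (Subtype.ext h)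
  have h1 := IntermediateField.div_mem _ (hle _ hbf) (hle _ b.2)
  rwa [mul_div_cancel_left₀ _ hb0] at h1

end

end Pool.Agent.Lib.PRI
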