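import Pool.Agent.Lib.PRI.Defs

/-!
# PRI.FrA: groups of finite rank with integer valued homomorphisms

`B0` is generated by a finite set `S`; the vectors `w i = (v i s)_{s ∈ S}` span a finitely generated
subgroup of `ℤ ^ S`, so finitely many of them, the `w (c y)`, span all. For `x ∈ B0` the number
`v i x` is a linear function of `w i`, so if `v (c y) x = 1` for all `y`, then `v i x = 1` for all `i`. If
`b ∈ B` and `v (c y) b = 1` for all `y`, take `b ^ m ∈ B0`: `v i b = 1` for all `i`. So the homomorphism
`B → ℤ ^ _` given by the `v (c y)` has kernel `⨅ i, (v i).ker`, and its image is finitely generated.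
-/

set_option autoImplicit false

namespace Pool.Agent.Lib.PRI

namespace FrAAux

theorem lin {B : Type} [CommGroup B] {S : Finset B} {I : Type} (v : I → B →* Multiplicative ℤ)
    {x : B} (hx : x ∈ Subgroup.closure (S : Set B)) :
    ∃ L : (S → ℤ) →ₗ[ℤ] ℤ, ∀ i, Multiplicative.toAdd (v i x)
      = L (fun s => Multiplicative.toAdd (v i (s : B))) := by
  induction hx using Subgroup.closure_induction with
  | mem x hx =>
    refine ⟨LinearMap.proj (⟨x, hx⟩ : S), fun i => ?_⟩
    rfl
  | one =>
    refine ⟨0, fun i => ?_⟩
    rw [map_one]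
    rfl
  | mul x y _ _ hx hy =>
    obtain ⟨L, hL⟩ := hx
    obtain ⟨L', hL'⟩ := hy
    refine ⟨L + L', fun i => ?_⟩
    rw [map_mul, toAdd_mul, hL, hL']
    rfl
  | inv x _ hx =>
    obtain ⟨L, hL⟩ := hx
    refine ⟨-L, fun i => ?_⟩
    rw [map_inv, toAdd_inv, hL]
    rfl

end FrAAux

theorem fr_lemma {B : Type} [CommGroup B] (B0 : Subgroup B) (h0 : B0.FG)
    (ht : ∀ b : B, ∃ m : ℕ, 0 < m ∧ b ^ m ∈ B0) {I : Type} (v : I → B →* Multiplicative ℤ)
    (hN : (⨅ i, (v i).ker).FG) : Group.FG B := by
  classical
  obtain ⟨S, hS⟩ := h0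
  let w : I → (S → ℤ) := fun i s => Multiplicative.toAdd (v i (s : B))
  have hfg : (Submodule.span ℤ (Set.range w)).FG := IsNoetherian.noetherian _
  obtain ⟨s', hs', hspan⟩ := (Submodule.fg_span_iff_fg_span_finset_subset _).1 hfg
  have hc : ∀ y : s', ∃ i, w i = y := fun y => hs' y.2
  choose c hc using hc
  let f : Additive B →+ (s' → ℤ) :=
    { toFun := fun b y => Multiplicative.toAdd (v (c y) (Additive.toMul b))
      map_zero' := by
        funext y
        change Multiplicative.toAdd (v (c y) 1) = 0
        rw [map_one]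
        rfl
      map_add' := fun a b => by
        funext y
        change Multiplicative.toAdd (v (c y) (Additive.toMul a * Additive.toMul b)) = _
        rw [map_mul]
        rfl }
  have hf : ∀ b : B, f (Additive.ofMul b) = 0 ↔ b ∈ ⨅ i, (v i).ker := by
    intro b
    rw [Subgroup.mem_iInf]
    constructor
    · intro h i
      rw [MonoidHom.mem_ker]
      have h1 : ∀ y, Multiplicative.toAdd (v (c y) b) = 0 := fun y => congrFun h y
      obtain ⟨m, hm, hb⟩ := ht b
      rw [← hS] at hb
      obtain ⟨L, hL⟩ := FrAAux.lin v hb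
      have h2 : Submodule.span ℤ (Set.range w) ≤ LinearMap.ker L := by
        rw [hspan, Submodule.span_le]
        intro y hy
        rw [SetLike.mem_coe, LinearMap.mem_ker]
        have h3 := hL (c ⟨y, hy⟩)
        have h4 : L y = Multiplicative.toAdd (v (c ⟨y, hy⟩) (b ^ m)) := by
          rw [h3]
          exact congrArg L (hc ⟨y, hy⟩).symm
        rw [h4, map_pow, toAdd_pow, h1, smul_zero]
      have h5 : L (w i) = 0 := LinearMap.mem_ker.1 (h2 (Submodule.subset_span ⟨i, rfl⟩))
      have h6 := hL i
      rw [map_pow, toAdd_pow] at h6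
      have h7 : m • Multiplicative.toAdd (v i b) = 0 := h6.trans h5
      rw [smul_eq_zero] at h7
      rcases h7 with h7 | h7
      · omega
      · exact Multiplicative.toAdd.injective h7
    · intro h
      funext y
      have h1 := h (c y)
      rw [MonoidHom.mem_ker] at h1
      change Multiplicative.toAdd (v (c y) b) = 0
      rw [h1]
      rfl
  have htop : (⊤ : Submodule ℤ (Additive B)).FG := by
    refine Submodule.fg_of_fg_map_of_fg_inf_ker f.toIntLinearMap (IsNoetherian.noetherian _) ?_
    obtain ⟨T, hT⟩ := hN
    refine ⟨T.image Additive.ofMul, ?_⟩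
    apply le_antisymm
    · rw [Submodule.span_le]
      intro b hb
      rw [Finset.coe_image] at hb
      obtain ⟨t, ht1, rfl⟩ := hb
      refine ⟨trivial, ?_⟩
      change f (Additive.ofMul t) = 0
      rw [hf, ← hT]
      exact Subgroup.subset_closure ht1
    · rintro b ⟨_, hb⟩
      change f b = 0 at hb
      have h1 := (hf (Additive.toMul b)).1 hb
      rw [← hT] at h1
      have h2 : ∀ x ∈ Subgroup.closure (T : Set B),
          Additive.ofMul x ∈ Submodule.span ℤ ((T.image Additive.ofMul : Finset (Additive B)) :
            Set (Additive B)) := by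
        intro x hx
        induction hx using Subgroup.closure_induction with
        | mem x hx =>
          apply Submodule.subset_span
          rw [Finset.coe_image]
          exact ⟨x, hx, rfl⟩
        | one => exact Submodule.zero_mem _
        | mul x y _ _ hx hy => exact Submodule.add_mem _ hx hy
        | inv x _ hx => exact Submodule.neg_mem _ hx
      exact h2 _ h1
  have hfin : Module.Finite ℤ (Additive B) := ⟨htop⟩
  have h8 : AddGroup.FG (Additive B) := Module.Finite.iff_addGroup_fg.1 hfin
  exact GroupFG.iff_add_fg.2 h8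

end Pool.Agent.Lib.PRI
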