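import Pool.Agent.Lib.PRI.Defs

/-!
# PRI.FrD: valuations of function fields of one variable (1.5 h)
PROOF. `dedekind_vals`: `I = HeightOneSpectrum O`, `v = valuationOfNeZero`; all valuations of `x` and `x⁻¹` are `≤ 1`, so both are in `O` (Mathlib: `IsDedekindDomain.HeightOneSpectrum.mem_integers_of_valuation_le_one`, `valuationOfNeZero_eq`); conversely a unit has valuation `1`. `function_vals`: `O` = integral closure of `K₀[t]` (`Algebra.adjoin K₀ {t}`, isomorphic to `K₀[X]`, a principal
ideal domain) in `K`, `O'` = integral closure of `K₀[t⁻¹]` in `K` (`t⁻¹` is transcendental too, `K` is finite over `K₀(t⁻¹) = K₀(t)`). Characteristic `0`, so both are Dedekind domains with fraction field `K` (`integralClosure.isDedekindDomain`, separable). `I` = the disjoint union of the two index sets. If all `v i x = 1` then `x ∈ O` and `x ∈ O'`: `x` is integral over `K₀[t]` and over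
`K₀[t⁻¹]`. The coefficients of the minimal polynomial of `x` over `K₀(t)` are in `K₀[t]` and in `K₀[t⁻¹]` (integrally closed: `minpoly.isIntegrallyClosed_eq_field_fractions'`), and `K₀[t] ∩ K₀[t⁻¹] = K₀` (a polynomial in `t` that is a polynomial in `t⁻¹` is constant, `t` transcendental), so `x` is algebraic over `K₀`.
-/

set_option autoImplicit false

namespace Pool.Agent.Lib.PRI

theorem dedekind_vals {O K : Type} [CommRing O] [IsDedekindDomain O] [Field K] [Algebra O K]
    [IsFractionRing O K] : ∃ (I : Type) (v : I → Kˣ →* Multiplicative ℤ), ∀ x : Kˣ,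
      (∀ i, v i x = 1) ↔ ∃ u : Oˣ, algebraMap O K u = (x : K) := by
  refine ⟨IsDedekindDomain.HeightOneSpectrum O, fun w => w.valuationOfNeZero, fun x => ⟨fun h => ?_, ?_⟩⟩
  · have h1 : ∀ w : IsDedekindDomain.HeightOneSpectrum O, w.valuation K (x : K) = 1 := fun w => by
      rw [← IsDedekindDomain.HeightOneSpectrum.valuationOfNeZero_eq, h w]; rfl
    have h2 : ∀ w : IsDedekindDomain.HeightOneSpectrum O, w.valuation K ((x⁻¹ : Kˣ) : K) = 1 := fun w => by
      rw [← IsDedekindDomain.HeightOneSpectrum.valuationOfNeZero_eq, map_inv, h w, inv_one]; rfl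
    obtain ⟨a, ha⟩ := IsDedekindDomain.HeightOneSpectrum.mem_integers_of_valuation_le_one K (x : K)
      (fun w => (h1 w).le)
    obtain ⟨b, hb⟩ := IsDedekindDomain.HeightOneSpectrum.mem_integers_of_valuation_le_one K ((x⁻¹ : Kˣ) : K)
      (fun w => (h2 w).le)
    have hab : a * b = 1 := by
      apply IsFractionRing.injective O K
      rw [map_mul, ha, hb, map_one]
      exact x.mul_inv
    exact ⟨⟨a, b, hab, by rw [mul_comm]; exact hab⟩, ha⟩
  · rintro ⟨u, hu⟩ w
    have : x = Units.map (algebraMap O K : O →* K) u := Units.ext hu.symm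
    rw [this]
    exact IsDedekindDomain.HeightOneSpectrum.valuation_of_unit_eq w u

namespace FrDAux

open IntermediateField.algebraAdjoinAdjoin

theorem pid {K₀ K : Type} [Field K₀] [Field K] [Algebra K₀ K] (t : K) :
    IsPrincipalIdealRing (Algebra.adjoin K₀ {t}) := by
  have hs : Function.Surjective ((Polynomial.aeval t : Polynomial K₀ →ₐ[K₀] K).codRestrict (Algebra.adjoin K₀ {t})
      (fun p => by
        rw [Algebra.adjoin_singleton_eq_range_aeval]; exact ⟨p, rfl⟩)) := by
    rintro ⟨y, hy⟩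
    have hy' := hy
    rw [Algebra.adjoin_singleton_eq_range_aeval] at hy'
    obtain ⟨p, hp⟩ := hy'
    exact ⟨p, Subtype.ext hp⟩
  exact IsPrincipalIdealRing.of_surjective _ hs

theorem ded {K₀ K : Type} [Field K₀] [Field K] [Algebra K₀ K] (t : K) :
    IsDedekindDomain (Algebra.adjoin K₀ {t}) := by
  have := pid (K₀ := K₀) t
  infer_instance

theorem one_side {K₀ K : Type} [Field K₀] [CharZero K₀] [Field K] [Algebra K₀ K] (t : K)
    (hfin : FiniteDimensional (IntermediateField.adjoin K₀ {t}) K) :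
    ∃ (I : Type) (v : I → Kˣ →* Multiplicative ℤ), ∀ x : Kˣ, (∀ i, v i x = 1) →
      IsIntegral (Algebra.adjoin K₀ {t}) (x : K) := by
  have := ded (K₀ := K₀) t
  have : CharZero (IntermediateField.adjoin K₀ {t}) := charZero_of_injective_algebraMap (algebraMap K₀ _).injective
  have : IsScalarTower (Algebra.adjoin K₀ {t}) (IntermediateField.adjoin K₀ {t}) K := inferInstance
  have : IsDedekindDomain (integralClosure (Algebra.adjoin K₀ {t}) K) :=
    integralClosure.isDedekindDomain (Algebra.adjoin K₀ {t}) (IntermediateField.adjoin K₀ {t}) K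
  have : IsFractionRing (integralClosure (Algebra.adjoin K₀ {t}) K) K :=
    integralClosure.isFractionRing_of_finite_extension (IntermediateField.adjoin K₀ {t}) K
  obtain ⟨I, v, hv⟩ := dedekind_vals (O := integralClosure (Algebra.adjoin K₀ {t}) K) (K := K)
  refine ⟨I, v, fun x hx => ?_⟩
  obtain ⟨u, hu⟩ := (hv x).1 hx
  rw [← hu]
  exact (u : integralClosure (Algebra.adjoin K₀ {t}) K).2

theorem coeff_mem {K₀ K : Type} [Field K₀] [Field K] [Algebra K₀ K] (t : K)
    (F : IntermediateField K₀ K) (hF : F = IntermediateField.adjoin K₀ {t}) (x : K)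
    (hx : IsIntegral (Algebra.adjoin K₀ {t}) x) (n : ℕ) :
    (((minpoly F x).coeff n : F) : K) ∈ Algebra.adjoin K₀ {t} := by
  subst hF
  have := ded (K₀ := K₀) t
  have h := minpoly.isIntegrallyClosed_eq_field_fractions' (R := Algebra.adjoin K₀ {t})
    (IntermediateField.adjoin K₀ {t}) hx
  rw [h, Polynomial.coeff_map]
  exact ((minpoly (Algebra.adjoin K₀ {t}) x).coeff n).2

theorem inter {K₀ K : Type} [Field K₀] [Field K] [Algebra K₀ K] (t : K) (ht : Transcendental K₀ t) (y : K)
    (h1 : y ∈ Algebra.adjoin K₀ {t}) (h2 : y ∈ Algebra.adjoin K₀ {t⁻¹}) : ∃ c : K₀, algebraMap K₀ K c = y := by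
  rw [Algebra.adjoin_singleton_eq_range_aeval] at h1 h2
  obtain ⟨p, hp⟩ := h1
  obtain ⟨q, hq⟩ := h2
  have ht0 : t ≠ 0 := fun h => ht (h ▸ isAlgebraic_zero)
  have hp' : Polynomial.aeval t p = y := hp
  have hq' : Polynomial.aeval t⁻¹ q = y := hq
  letI : Invertible t⁻¹ := invertibleOfNonzero (inv_ne_zero ht0)
  have h3 := Polynomial.eval₂_reverse_mul_pow (algebraMap K₀ K) t⁻¹ q
  have h4 : (⅟(t⁻¹) : K) = t := by rw [invOf_eq_inv, inv_inv]
  rw [h4, ← Polynomial.aeval_def, ← Polynomial.aeval_def, hq', ← hp'] at h3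
  have h5 : Polynomial.aeval t q.reverse = Polynomial.aeval t (p * Polynomial.X ^ q.natDegree) := by
    rw [map_mul, map_pow, Polynomial.aeval_X, ← h3, mul_assoc, ← mul_pow, inv_mul_cancel₀ ht0, one_pow, mul_one]
  have h6 : q.reverse = p * Polynomial.X ^ q.natDegree := (transcendental_iff_injective.1 ht) h5
  have h7 : p.natDegree = 0 := by
    by_cases hp0 : p = 0
    · simp [hp0]
    have h8 : (p * Polynomial.X ^ q.natDegree).natDegree = p.natDegree + q.natDegree := by
      rw [Polynomial.natDegree_mul_X_pow _ hp0]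
    have h9 := Polynomial.reverse_natDegree_le q
    rw [h6, h8] at h9
    omega
  rw [Polynomial.eq_C_of_natDegree_eq_zero h7] at hp'
  exact ⟨p.coeff 0, by rw [← hp', Polynomial.aeval_C]⟩

theorem adjoin_inv {K₀ K : Type} [Field K₀] [Field K] [Algebra K₀ K] (t : K) :
    IntermediateField.adjoin K₀ {t} = IntermediateField.adjoin K₀ {t⁻¹} := by
  apply le_antisymm
  · rw [IntermediateField.adjoin_simple_le_iff]
    have := IntermediateField.mem_adjoin_simple_self K₀ t⁻¹
    simpa using inv_mem this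
  · rw [IntermediateField.adjoin_simple_le_iff]
    exact inv_mem (IntermediateField.mem_adjoin_simple_self K₀ t)

end FrDAux

open FrDAux in
theorem function_vals {K₀ K : Type} [Field K₀] [CharZero K₀] [Field K] [Algebra K₀ K] (t : K)
    (ht : Transcendental K₀ t) (hfin : FiniteDimensional (IntermediateField.adjoin K₀ {t}) K) :
    ∃ (I : Type) (v : I → Kˣ →* Multiplicative ℤ), ∀ x : Kˣ, (∀ i, v i x = 1) → IsAlgebraic K₀ (x : K) := by
  obtain ⟨I₁, v₁, h₁⟩ := one_side (K₀ := K₀) t hfin
  obtain ⟨I₂, v₂, h₂⟩ := one_side (K₀ := K₀) t⁻¹ (adjoin_inv (K₀ := K₀) t ▸ hfin)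
  refine ⟨I₁ ⊕ I₂, Sum.elim v₁ v₂, fun x hx => ?_⟩
  have hx1 : IsIntegral (Algebra.adjoin K₀ {t}) (x : K) := h₁ x (fun i => hx (Sum.inl i))
  have hx2 : IsIntegral (Algebra.adjoin K₀ {t⁻¹}) (x : K) := h₂ x (fun i => hx (Sum.inr i))
  have hint : IsIntegral (IntermediateField.adjoin K₀ {t}) (x : K) := IsIntegral.of_finite _ _
  have key : ∀ n, ∃ c : K₀, algebraMap K₀ (IntermediateField.adjoin K₀ {t}) c =
      (minpoly (IntermediateField.adjoin K₀ {t}) (x : K)).coeff n := fun n => by
    obtain ⟨c, hc⟩ := inter t ht _ (coeff_mem t _ rfl (x : K) hx1 n) (coeff_mem t⁻¹ _ (adjoin_inv t) (x : K) hx2 n)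
    exact ⟨c, Subtype.ext hc⟩
  have hl : minpoly (IntermediateField.adjoin K₀ {t}) (x : K) ∈
      Polynomial.lifts (algebraMap K₀ (IntermediateField.adjoin K₀ {t})) := by
    rw [Polynomial.lifts_iff_coeff_lifts]
    intro n
    exact key n
  obtain ⟨P, hP⟩ := (Polynomial.mem_lifts _).1 hl
  refine ⟨P, ?_, ?_⟩
  · rintro rfl
    rw [Polynomial.map_zero] at hP
    exact minpoly.ne_zero hint hP.symm
  · have := minpoly.aeval (IntermediateField.adjoin K₀ {t}) (x : K)
    rw [← hP, Polynomial.aeval_map_algebraMap] at this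
    exact this

end Pool.Agent.Lib.PRI
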