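import Pool.Agent.Lib.PRI.FrN

/-!
# PRI.FrG: subgroups of finite rank in the multiplicative group of a finitely generated field (1.5 h)
PROOF. Induction on `d`. `d = 0`: `IntermediateField.adjoin ℚ ∅ = ⊥`, so `K` is a number field: `fr_number`. `d + 1`: let `K₀ = adjoin ℚ (x '' first d)`, `t = x (last)`, `L` the algebraic closure of `K₀` in `K` (`algebraicClosure K₀ K`, an intermediate field). `t` is transcendental over `K₀` and over `L`. `L` is finite over `K₀`: elements `l_1, …, l_r ∈ L` independent over `K₀` are
independent over `K₀(t)` (multiply a relation by a common denominator in `K₀[t]`; a relation `∑ p_i(t) l_i = 0` is a polynomial relation of `t` over `L`, so all coefficients `∑ p_{i,j} l_i = 0`), so `r ≤ [K : K₀(t)]`. The claim holds for `L` (induction: `x` restricted to the first `d` indices, as elements of `L`; `L` is finite over `adjoin ℚ`). Now let `B0 ≤ B ≤ Kˣ`. `fr_lemma` for the group `B` and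
the valuations of `function_vals` (for `K₀`, `K`, `t`: `K₀(t) = adjoin ℚ (range x)`, `K` finite over it): the common kernel `N ≤ B` consists of elements algebraic over `K₀`, so it is (isomorphic to) a subgroup of `Lˣ`; `N ⊓ B0` is finitely generated (subgroup of a finitely generated abelian group) and `N / (N ⊓ B0)` is torsion, so `N` is finitely generated by induction.
-/

set_option autoImplicit false

namespace Pool.Agent.Lib.PRI

namespace FrGAux

open IntermediateField.algebraAdjoinAdjoin in
theorem finite_of_transcendental {K₀ K : Type} [Field K₀] [Field K] [Algebra K₀ K] (t : K)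
    (ht : Transcendental K₀ t) (hf : FiniteDimensional (IntermediateField.adjoin K₀ {t}) K)
    (L : IntermediateField K₀ K) [Algebra.IsAlgebraic K₀ L] : FiniteDimensional K₀ L := by
  have hL : Transcendental L t := ht.extendScalars L
  let b := Module.Basis.ofVectorSpace K₀ L
  have hli : LinearIndependent (IntermediateField.adjoin K₀ {t}) (fun i => (b i : K)) := by
    rw [← LinearIndependent.iff_fractionRing (Algebra.adjoin K₀ {t})]
    rw [linearIndependent_iff']
    intro s g hg i hi
    have hp : ∀ i, ∃ p : Polynomial K₀, Polynomial.aeval t p = (g i : K) := by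
      intro i
      have h : (g i : K) ∈ (Polynomial.aeval (R := K₀) t).range := by
        rw [← Algebra.adjoin_singleton_eq_range_aeval]
        exact (g i).2
      exact h
    choose p hp using hp
    have h1 : (∑ j ∈ s, Polynomial.C (b j) * (p j).map (algebraMap K₀ L)) = 0 := by
      by_contra hne
      apply hL
      refine ⟨_, hne, ?_⟩
      rw [map_sum, ← hg]
      apply Finset.sum_congr rfl
      intro j _
      rw [map_mul, Polynomial.aeval_C, Polynomial.aeval_map_algebraMap, hp, Algebra.smul_def, mul_comm]
      rfl
    have h2 : ∀ n, (p i).coeff n = 0 := by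
      intro n
      have h3 := congrArg (fun q => Polynomial.coeff q n) h1
      simp only [Polynomial.finsetSum_coeff, Polynomial.coeff_C_mul, Polynomial.coeff_map,
        Polynomial.coeff_zero] at h3
      have h4 : ∑ j ∈ s, (p j).coeff n • b j = 0 := by
        rw [← h3]
        apply Finset.sum_congr rfl
        intro j _
        rw [Algebra.smul_def, mul_comm]
      exact linearIndependent_iff'.1 b.linearIndependent s _ h4 i hi
    have h5 : p i = 0 := Polynomial.ext h2
    have h6 := hp i
    rw [h5, map_zero] at h6
    exact Subtype.ext h6.symm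
  have : Finite (Module.Basis.ofVectorSpaceIndex K₀ L) := hli.finite_of_isNoetherian
  exact Module.Finite.of_basis b

/-- finitely generated subgroups and injective homomorphisms -/
theorem fg_of_map {G H : Type*} [Group G] [Group H] (f : G →* H) (hf : Function.Injective f)
    (S : Subgroup G) (h : (S.map f).FG) : S.FG := by
  rw [← Group.fg_iff_subgroup_fg] at h ⊢
  let e := S.equivMapOfInjective f hf
  exact Group.fg_of_surjective (f := e.symm.toMonoidHom) e.symm.surjective

theorem fg_map {G H : Type*} [Group G] [Group H] (f : G →* H) {S : Subgroup G} (h : S.FG) :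
    (S.map f).FG := by
  classical
  obtain ⟨T, rfl⟩ := h
  exact ⟨T.image f, by rw [Finset.coe_image, MonoidHom.map_closure]⟩

theorem finite_transfer {K : Type} [Field K] [CharZero K] {d : ℕ} (z : Fin d → K)
    (L : IntermediateField (IntermediateField.adjoin ℚ (Set.range z)) K)
    (hL : FiniteDimensional (IntermediateField.adjoin ℚ (Set.range z)) L) (y : Fin d → L)
    (hy : ∀ i, (y i : K) = z i) : FiniteDimensional (IntermediateField.adjoin ℚ (Set.range y)) L := by
  let f : L →ₐ[ℚ] K := (L.val : L →+* K).toRatAlgHom
  have hf : (IntermediateField.adjoin ℚ (Set.range y)).map f = IntermediateField.adjoin ℚ (Set.range z) := by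
    rw [IntermediateField.adjoin_map]
    congr 1
    rw [← Set.range_comp]
    congr 1
    funext i
    exact hy i
  have hs : ∀ k : IntermediateField.adjoin ℚ (Set.range z), ∃ a : IntermediateField.adjoin ℚ (Set.range y),
      ((a : L) : K) = k := by
    intro k
    have hk : (k : K) ∈ (IntermediateField.adjoin ℚ (Set.range y)).map f := by
      rw [hf]
      exact k.2
    obtain ⟨a, ha, hak⟩ := hk
    exact ⟨⟨a, ha⟩, hak⟩
  obtain ⟨S, hS⟩ := hL.1
  refine ⟨⟨S, ?_⟩⟩
  rw [eq_top_iff]
  intro l _
  have hl : l ∈ Submodule.span (IntermediateField.adjoin ℚ (Set.range z)) (S : Set L) := by rw [hS]; trivial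
  clear * - hl hs
  induction hl using Submodule.span_induction with
  | mem s hs => exact Submodule.subset_span hs
  | zero => exact zero_mem _
  | add a b _ _ ha hb => exact add_mem ha hb
  | smul k a _ ha =>
    obtain ⟨c, hc⟩ := hs k
    have : k • a = c • a := by
      apply Subtype.ext
      have h1 : ((k • a : L) : K) = (k : K) * (a : K) := rfl
      have h2 : ((c • a : L) : K) = ((c : L) : K) * (a : K) := rfl
      rw [h1, h2, hc]
    rw [this]
    exact Submodule.smul_mem _ _ ha

end FrGAux

open FrGAux

theorem fr_ind (d : ℕ) : ∀ (K : Type) [Field K] [CharZero K] (x : Fin d → K), AlgebraicIndependent ℚ x →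
    FiniteDimensional (IntermediateField.adjoin ℚ (Set.range x)) K →
    ∀ B0 B : Subgroup Kˣ, B0.FG → B0 ≤ B → (∀ b ∈ B, ∃ m : ℕ, 0 < m ∧ b ^ m ∈ B0) → B.FG := by
  induction d with
  | zero =>
    intro K _ _ x hx hf B0 B h0 hle ht
    have h1 : IntermediateField.adjoin ℚ (Set.range x) = ⊥ := by
      rw [Set.range_eq_empty, IntermediateField.adjoin_empty]
    rw [h1] at hf
    have h2 : FiniteDimensional ℚ K := FiniteDimensional.trans ℚ (⊥ : IntermediateField ℚ K) K
    have : NumberField K := ⟨⟩
    exact fr_number B0 B h0 hle ht
  | succ d ih =>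
    intro K _ _ x hx hf B0 B h0 hle ht
    let K₀ : IntermediateField ℚ K := IntermediateField.adjoin ℚ (Set.range (Fin.init x))
    let t : K := x (Fin.last d)
    -- transcendence of t
    have htr : Transcendental K₀ t := by
      rw [IntermediateField.transcendental_adjoin_iff]
      have h1 := hx.transcendental_adjoin (s := Set.range Fin.castSucc) (i := Fin.last d) (by
        rintro ⟨i, hi⟩
        exact (Fin.castSucc_lt_last i).ne hi)
      have h2 : x '' Set.range Fin.castSucc = Set.range (Fin.init x) := by
        rw [← Set.range_comp]
        rfl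
      rw [h2] at h1
      exact h1
    -- K is finite over K₀(t)
    have hres : (IntermediateField.adjoin K₀ {t}).restrictScalars ℚ =
        IntermediateField.adjoin ℚ (Set.range x) := by
      refine (IntermediateField.adjoin_adjoin_left ℚ (Set.range (Fin.init x)) {t}).trans ?_
      congr 1
      ext y
      constructor
      · rintro (⟨i, rfl⟩ | rfl)
        · exact ⟨_, rfl⟩
        · exact ⟨_, rfl⟩
      · rintro ⟨i, rfl⟩
        refine Fin.lastCases ?_ (fun j => ?_) i
        · exact Or.inr rfl
        · exact Or.inl ⟨j, rfl⟩
    have hfin : FiniteDimensional (IntermediateField.adjoin K₀ {t}) K := by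
      have h3 : FiniteDimensional ((IntermediateField.adjoin K₀ {t}).restrictScalars ℚ) K := by
        rw [hres]
        exact hf
      exact h3
    -- the algebraic closure of K₀ in K
    let L : IntermediateField K₀ K := algebraicClosure K₀ K
    have hLf : FiniteDimensional K₀ L := finite_of_transcendental t htr hfin L
    -- induction for L
    let y : Fin d → L := fun i => ⟨x i.castSucc, mem_algebraicClosure_iff.2
      (isAlgebraic_algebraMap (R := K₀) (A := K) ⟨x i.castSucc, IntermediateField.subset_adjoin _ _ ⟨i, rfl⟩⟩)⟩
    have hyf : FiniteDimensional (IntermediateField.adjoin ℚ (Set.range y)) L :=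
      finite_transfer (Fin.init x) L hLf y (fun _ => rfl)
    have hyi : AlgebraicIndependent ℚ y := by
      have h1 : AlgebraicIndependent ℚ (Fin.init x) := hx.comp Fin.castSucc (Fin.castSucc_injective d)
      exact AlgebraicIndependent.of_comp ((L.val : L →+* K).toRatAlgHom) h1
    obtain ⟨I, v, hv⟩ := function_vals t htr hfin
    rw [← Group.fg_iff_subgroup_fg]
    apply fr_lemma (B0.subgroupOf B) (FrNAux.fg_subgroupOf h0 hle) _ (fun i => (v i).comp B.subtype)
    · have hNalg : ∀ b ∈ (⨅ i, ((v i).comp B.subtype).ker), IsAlgebraic K₀ ((b : Kˣ) : K) := by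
        intro b hb
        apply hv
        intro i
        rw [Subgroup.mem_iInf] at hb
        exact hb i
      generalize (⨅ i, ((v i).comp B.subtype).ker) = N at hNalg ⊢
      let g : Lˣ →* Kˣ := Units.map (L.val : L →* K)
      have hg : Function.Injective g := Units.map_injective L.val.injective
      have hr : N.map B.subtype ≤ g.range := by
        rintro _ ⟨b, hb, rfl⟩
        have h2 : ((b : Kˣ) : K) ∈ L := mem_algebraicClosure_iff.2 (hNalg b hb)
        have h3 : (⟨_, h2⟩ : L) ≠ 0 := by
          intro h
          exact (b : Kˣ).ne_zero (congrArg Subtype.val h)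
        exact ⟨Units.mk0 _ h3, Units.ext rfl⟩
      have h5 : ((N.map B.subtype).comap g).map g = N.map B.subtype :=
        Subgroup.map_comap_eq_self hr
      have h6 : ((N.map B.subtype).comap g).FG := by
        apply ih L y hyi hyf ((B0 ⊓ N.map B.subtype).comap g) ((N.map B.subtype).comap g)
        · apply fg_of_map g hg
          rw [Subgroup.map_comap_eq_self (inf_le_right.trans hr)]
          exact FrNAux.fg_of_le h0 inf_le_left
        · exact Subgroup.comap_mono inf_le_right
        · intro b hb
          have h7 : g b ∈ N.map B.subtype := hb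
          have h8 : g b ∈ B := by
            obtain ⟨c, _, hc⟩ := h7
            rw [← hc]
            exact c.2
          obtain ⟨m, hm, hm2⟩ := ht (g b) h8
          refine ⟨m, hm, ?_⟩
          rw [Subgroup.mem_comap, map_pow]
          exact ⟨hm2, pow_mem h7 m⟩
      apply fg_of_map B.subtype B.subtype_injective
      rw [← h5]
      exact fg_map g h6
    · intro b
      obtain ⟨m, hm, hb⟩ := ht b b.2
      exact ⟨m, hm, hb⟩

end Pool.Agent.Lib.PRI
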