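import Pool.Agent.Lib.PRI.FrA
import Pool.Agent.Lib.PRI.FrD

/-!
# PRI.FrN: subgroups of finite rank in the multiplicative group of a number field (1 h)
PROOF. `fr_lemma` for the group `B` with the restrictions of the valuations of `dedekind_vals` (`O = 𝓞 K`). The common kernel is `B ∩ (𝓞 K)ˣ`, a subgroup of the finitely generated abelian group `(𝓞 K)ˣ` (Dirichlet's unit theorem: `NumberField.Units`, instance `Monoid.FG (𝓞 K)ˣ` or the structure theorem), so finitely generated.
-/

set_option autoImplicit false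

namespace Pool.Agent.Lib.PRI

open NumberField

namespace FrNAux

/-- subgroups of finitely generated abelian groups -/
lemma fg_of_le {G : Type*} [CommGroup G] {S T : Subgroup G} (hT : T.FG) (h : S ≤ T) : S.FG := by
  rw [Subgroup.fg_iff_add_fg] at hT ⊢
  have h1 : (AddSubgroup.toIntSubmodule T.toAddSubgroup).FG := by
    rw [Submodule.fg_iff_addSubgroup_fg]
    exact hT
  have h2 : AddSubgroup.toIntSubmodule S.toAddSubgroup ≤
      AddSubgroup.toIntSubmodule T.toAddSubgroup := fun x hx => h hx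
  have h3 := Submodule.FG.of_le h1 h2
  rw [Submodule.fg_iff_addSubgroup_fg] at h3
  exact h3

lemma fg_subgroupOf {G : Type*} [Group G] {S T : Subgroup G} (hS : S.FG) (h : S ≤ T) :
    (S.subgroupOf T).FG := by
  rw [← Group.fg_iff_subgroup_fg] at hS ⊢
  exact Group.fg_of_surjective (f := (Subgroup.subgroupOfEquivOfLe h).symm.toMonoidHom)
    (Subgroup.subgroupOfEquivOfLe h).symm.surjective

end FrNAux

open FrNAux

theorem fr_number {K : Type} [Field K] [NumberField K] (B0 B : Subgroup Kˣ) (h0 : B0.FG) (hle : B0 ≤ B)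
    (ht : ∀ b ∈ B, ∃ m : ℕ, 0 < m ∧ b ^ m ∈ B0) : B.FG := by
  obtain ⟨I, v, hv⟩ := dedekind_vals (O := 𝓞 K) (K := K)
  rw [← Group.fg_iff_subgroup_fg]
  apply fr_lemma (B0.subgroupOf B) (fg_subgroupOf h0 hle) _ (fun i => (v i).comp B.subtype)
  · -- the common kernel
    let φ : (𝓞 K)ˣ →* Kˣ := Units.map (algebraMap (𝓞 K) K).toMonoidHom
    have hR : φ.range.FG := by
      rw [← Group.fg_iff_subgroup_fg]
      have h1 : Group.FG (𝓞 K)ˣ := ⟨(Subgroup.fg_iff_submonoid_fg _).2
        (by simpa using (inferInstance : Monoid.FG (𝓞 K)ˣ).fg_top)⟩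
      exact Group.fg_of_surjective (f := φ.rangeRestrict) φ.rangeRestrict_surjective
    have hle2 : (⨅ i, ((v i).comp B.subtype).ker).map B.subtype ≤ φ.range := by
      rintro _ ⟨b, hb, rfl⟩
      have hb' : ∀ i, v i (b : Kˣ) = 1 := by
        intro i
        have h2 : b ∈ ⨅ i, ((v i).comp B.subtype).ker := hb
        rw [Subgroup.mem_iInf] at h2
        exact h2 i
      obtain ⟨u, hu⟩ := (hv (b : Kˣ)).1 hb'
      exact ⟨u, Units.ext hu⟩
    have hfg := fg_of_le hR hle2
    generalize (⨅ i, ((v i).comp B.subtype).ker) = N at hfg ⊢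
    rw [← Group.fg_iff_subgroup_fg] at hfg ⊢
    let e := N.equivMapOfInjective B.subtype B.subtype_injective
    exact Group.fg_of_surjective (f := e.symm.toMonoidHom) e.symm.surjective
  · intro b
    obtain ⟨m, hm, hb⟩ := ht b b.2
    exact ⟨m, hm, hb⟩

end Pool.Agent.Lib.PRI
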