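import Pool.Agent.Lib.PRI.FrG

/-!
# PRI.FrT: finitely generated fields (0.9 h)
PROOF. `fg_basis`: the finite generating set `S` contains a transcendence basis (`exists_isTranscendenceBasis_subset` or similar: a maximal algebraically independent subset of `S`), enumerate it by `Fin d`; all elements of `S` are algebraic over `adjoin ℚ (range x)`, and `K` is generated by `S`, so `K` is finite over it (`IntermediateField.finiteDimensional_adjoin`, `adjoin_adjoin_left`,
restriction of scalars: `IntermediateField.adjoin (adjoin ℚ (range x)) S = ⊤`). `fr_fg`: `fr_ind`. `fgfield_adjoin`: if `k` is finitely generated, `k → Ω`, `T ⊆ Ω` finite, then the subfield generated by the image of `k` and `T` is finitely generated: it is generated over `ℚ` by the images of `S` and `T`.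
-/

set_option autoImplicit false

namespace Pool.Agent.Lib.PRI

namespace FrTAux

lemma fg_iff {K : Type} [Field K] [CharZero K] : FGField K ↔ Algebra.EssFiniteType ℚ K := by
  rw [← IntermediateField.fg_top_iff]
  rfl

end FrTAux

open FrTAux

theorem fg_basis {K : Type} [Field K] [CharZero K] (hK : FGField K) :
    ∃ (d : ℕ) (x : Fin d → K), AlgebraicIndependent ℚ x ∧
      FiniteDimensional (IntermediateField.adjoin ℚ (Set.range x)) K := by
  have hE : Algebra.EssFiniteType ℚ K := fg_iff.1 hK
  obtain ⟨s, hs⟩ := hK
  have : Algebra.IsAlgebraic (Algebra.adjoin ℚ (s : Set K)) K := by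
    rw [← IntermediateField.isAlgebraic_adjoin_iff_top, hs, Algebra.isAlgebraic_iff_isIntegral]
    exact Algebra.isIntegral_of_surjective IntermediateField.topEquiv.surjective
  obtain ⟨t, hts, ht⟩ := exists_isTranscendenceBasis_subset (R := ℚ) (s : Set K)
  lift t to Finset K using s.finite_toSet.subset hts
  let e := t.equivFin
  let x : Fin t.card → K := fun i => (e.symm i : K)
  have hx : IsTranscendenceBasis ℚ x := ht.comp_equiv e.symm
  have hr : Set.range x = (t : Set K) := by
    ext y
    constructor
    · rintro ⟨i, rfl⟩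
      exact (e.symm i).2
    · intro hy
      exact ⟨e ⟨y, hy⟩, by simp [x]⟩
  refine ⟨t.card, x, hx.1, ?_⟩
  have : Module.Finite (IntermediateField.adjoin ℚ (Set.range x)) K := by
    apply +allowSynthFailures Algebra.finite_of_essFiniteType_of_isAlgebraic
    · exact .of_comp ℚ _ _
    · exact hx.isAlgebraic_field
  exact this

theorem fr_fg {K : Type} [Field K] [CharZero K] (hK : FGField K) (B0 B : Subgroup Kˣ) (h0 : B0.FG)
    (hle : B0 ≤ B) (ht : ∀ b ∈ B, ∃ m : ℕ, 0 < m ∧ b ^ m ∈ B0) : B.FG := by
  obtain ⟨d, x, hx, hf⟩ := fg_basis hK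
  exact fr_ind d K x hx hf B0 B h0 hle ht

theorem fgfield_adjoin {k Ω : Type} [Field k] [CharZero k] [Field Ω] [CharZero Ω] [Algebra k Ω]
    (hk : FGField k) (T : Finset Ω) : FGField (IntermediateField.adjoin k (T : Set Ω)) := by
  have h1 : Algebra.EssFiniteType ℚ k := fg_iff.1 hk
  have h2 : Algebra.EssFiniteType k (IntermediateField.adjoin k (T : Set Ω)) :=
    IntermediateField.essFiniteType_iff.2 ⟨T, rfl⟩
  exact fg_iff.2 (Algebra.EssFiniteType.comp ℚ k _)

end Pool.Agent.Lib.PRI
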