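import Pool.Agent.Lib.PRI.Fc

/-!
# PRI.Jd: the annihilator of a vector in the skew group ring (1.3 h)
`Jset D H v` is defined in PRI.Defs; `Ideal` of a noncommutative ring means left ideal.
PROOF. `exists_J`. Zero: `b = 1`, `c = 0`. Sum of `r, r'` with `(b, c)`, `(b', c')`: `b b'`, `b' c + b c'` (`act` is multiplicative, `B` commutative: `∑ act (b' c_h) (ρ h v) = act b' (∑ ⋯) = 0`; `B` is a domain). Left multiplication: it is enough to treat `single h0 f * r` (every element is a sum of `single`s), `(single h0 f * r).coeff h = f * h0 • r.coeff (h0⁻¹ h)` (`SkewMonoidAlgebra.coeff_single_mul`). Choose `d ∈ B`, `d ≠ 0`,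
`d f ∈ B` (`D.frac`), `b' = d * (h0 • b)` (nonzero), `c' h = (d f) * (h0 • c (h0⁻¹ h))` (in `B` by `smul_mem`); `∑_h act (c' h) (ρ h v) = act (d f) (∑_h act (h0 • c (h0⁻¹ h)) (ρ h0 (ρ (h0⁻¹ h) v))) = act (d f) (ρ h0 (∑ act (c h') (ρ h' v))) = 0` by `act_smul`. `mem_J_iff`: `←`: `b = 1`. `→`: `c' h = b c_h`, so `0 = ∑ act (b c_h) (ρ h v) = act b (∑ act (c_h) (ρ h v))`, and `act b` is
injective (`D.inj`). `single_mem`: for `a ∈ A`, `h ∈ H` with `a h` in place: see the statement: for `y ∈ H ⊓ A` the element `single y 1 - single 1 (ι y)` is in `J` (`ρ y v - act (ι y) v = 0`).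
-/

set_option autoImplicit false

namespace Pool.Agent.Lib.PRI

namespace JdAux

variable {G k V : Type} [Group G] [Field k] [AddCommGroup V] [Module k V]
variable {ρ : Representation k G V} {A : Subgroup G} {F : Type} [Field F] [Algebra k F]
  [MulSemiringAction G F]

/-- the value of a formal sum on `v` -/
noncomputable def T (D : Dat ρ A F) (H : Subgroup G) (v : V) (c : H →₀ D.B) : V :=
  c.sum fun h x => D.act x (ρ h v)

theorem T_add (D : Dat ρ A F) (H : Subgroup G) (v : V) (c c' : H →₀ D.B) :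
    T D H v (c + c') = T D H v c + T D H v c' := by
  classical
  unfold T
  refine Finsupp.sum_add_index' (fun h => by simp) (fun h x y => by simp)

/-- multiply all coefficients by `b` -/
noncomputable def mulc (D : Dat ρ A F) (H : Subgroup G) (b : D.B) (c : H →₀ D.B) : H →₀ D.B :=
  c.mapRange (fun x => b * x) (mul_zero b)

theorem mulc_apply (D : Dat ρ A F) (H : Subgroup G) (b : D.B) (c : H →₀ D.B) (h : H) :
    ((mulc D H b c) h : F) = (b : F) * (c h : F) := by
  simp [mulc]

theorem T_mulc (D : Dat ρ A F) (H : Subgroup G) (v : V) (b : D.B) (c : H →₀ D.B) :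
    T D H v (mulc D H b c) = D.act b (T D H v c) := by
  unfold T mulc
  rw [Finsupp.sum_mapRange_index (fun h => by simp)]
  unfold Finsupp.sum
  rw [map_sum]
  refine Finset.sum_congr rfl fun h _ => ?_
  change D.act (b * c h) (ρ h v) = D.act b (D.act (c h) (ρ h v))
  rw [map_mul]
  rfl

/-- the translate of a formal sum -/
noncomputable def shift (D : Dat ρ A F) (H : Subgroup G) (h0 : H) (c : H →₀ D.B) : H →₀ D.B :=
  (Finsupp.equivMapDomain (Equiv.mulLeft h0) c).mapRange
    (fun x : D.B => (⟨(h0 : G) • (x : F), D.smul_mem h0 x x.2⟩ : D.B)) (by ext; simp)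

theorem shift_apply (D : Dat ρ A F) (H : Subgroup G) (h0 : H) (c : H →₀ D.B) (h : H) :
    ((shift D H h0 c) h : F) = (h0 : G) • (c (h0⁻¹ * h) : F) := by
  simp [shift, Finsupp.equivMapDomain_apply]

theorem T_shift (D : Dat ρ A F) (H : Subgroup G) (v : V) (h0 : H) (c : H →₀ D.B) :
    T D H v (shift D H h0 c) = ρ h0 (T D H v c) := by
  unfold T shift
  rw [Finsupp.sum_mapRange_index (fun h => by
    have : (⟨(h0 : G) • ((0 : D.B) : F), D.smul_mem h0 (0 : D.B) (0 : D.B).2⟩ : D.B) = 0 := by
      ext; simp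
    simp [this])]
  rw [Finsupp.sum_equivMapDomain]
  unfold Finsupp.sum
  rw [map_sum]
  refine Finset.sum_congr rfl fun h _ => ?_
  have key := congrArg (fun φ : Module.End k V => φ (ρ h v)) (D.act_smul (h0 : G) (c h))
  simp only [Module.End.mul_apply] at key
  rw [← key]
  congr 1
  simp [map_mul]

theorem zero_mem (D : Dat ρ A F) (hV : Nontrivial V) (H : Subgroup G) (v : V) :
    (0 : SkewMonoidAlgebra F H) ∈ Jset D H v :=
  ⟨1, one_ne_zero, 0, fun h => by simp, by simp⟩

theorem add_mem (D : Dat ρ A F) (H : Subgroup G) (v : V) {r r' : SkewMonoidAlgebra F H}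
    (hr : r ∈ Jset D H v) (hr' : r' ∈ Jset D H v) : r + r' ∈ Jset D H v := by
  obtain ⟨b, hb, c, hc, h0⟩ := hr
  obtain ⟨b', hb', c', hc', h0'⟩ := hr'
  refine ⟨b * b', mul_ne_zero hb hb', mulc D H b' c + mulc D H b c', fun h => ?_, ?_⟩
  · rw [Finsupp.add_apply, Subalgebra.coe_add, mulc_apply, mulc_apply, hc, hc', Subalgebra.coe_mul,
      SkewMonoidAlgebra.coeff_add, Finsupp.add_apply]
    ring
  · change T D H v _ = 0
    rw [T_add, T_mulc, T_mulc]
    change T D H v c = 0 at h0
    change T D H v c' = 0 at h0'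
    rw [h0, h0', map_zero, map_zero, add_zero]

theorem single_mul_mem (D : Dat ρ A F) (H : Subgroup G) (v : V) (h0 : H) (f : F)
    {r : SkewMonoidAlgebra F H} (hr : r ∈ Jset D H v) :
    SkewMonoidAlgebra.single h0 f * r ∈ Jset D H v := by
  obtain ⟨b, hb, c, hc, hz⟩ := hr
  obtain ⟨d, hd, hdf⟩ := D.frac f
  refine ⟨d * ⟨(h0 : G) • (b : F), D.smul_mem h0 b b.2⟩, mul_ne_zero hd ?_,
    mulc D H ⟨(d : F) * f, hdf⟩ (shift D H h0 c), fun h => ?_, ?_⟩
  · intro h
    have h' : (h0 : G) • (b : F) = 0 := congrArg Subtype.val h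
    apply hb
    have h2 : (b : F) = 0 := by
      have := congrArg (fun x => (h0 : G)⁻¹ • x) h'
      simpa using this
    exact Subtype.ext h2
  · rw [mulc_apply, shift_apply, hc, SkewMonoidAlgebra.coeff_single_mul, Subalgebra.coe_mul, smul_mul']
    change (d : F) * f * ((h0 : G) • (b : F) * (h0 : G) • r.coeff (h0⁻¹ * h)) =
      (d : F) * ((h0 : G) • (b : F)) * (f * (h0 : G) • r.coeff (h0⁻¹ * h))
    ring
  · change T D H v _ = 0
    change T D H v c = 0 at hz
    rw [T_mulc, T_shift, hz, map_zero, map_zero]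

theorem mul_mem (D : Dat ρ A F) (hV : Nontrivial V) (H : Subgroup G) (v : V)
    (x : SkewMonoidAlgebra F H)
    {r : SkewMonoidAlgebra F H} (hr : r ∈ Jset D H v) : x * r ∈ Jset D H v := by
  induction x using SkewMonoidAlgebra.induction_on with
  | zero => rw [zero_mul]; exact zero_mem D hV H v
  | single g a => exact single_mul_mem D H v g a hr
  | add f g hf hg => rw [add_mul]; exact add_mem D H v hf hg

end JdAux

variable {G k V : Type} [Group G] [Field k] [AddCommGroup V] [Module k V]
variable {ρ : Representation k G V} {A : Subgroup G} {F : Type} [Field F] [Algebra k F]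
  [MulSemiringAction G F]

theorem exists_J (D : Dat ρ A F) (hV : Nontrivial V) (H : Subgroup G) (v : V) :
    ∃ J : Ideal (SkewMonoidAlgebra F H), (J : Set (SkewMonoidAlgebra F H)) = Jset D H v := by
  exact ⟨{ carrier := Jset D H v
           zero_mem' := JdAux.zero_mem D hV H v
           add_mem' := fun ha hb => JdAux.add_mem D H v ha hb
           smul_mem' := fun x _ hr => JdAux.mul_mem D hV H v x hr }, rfl⟩

theorem mem_J_iff (D : Dat ρ A F) (hV : Nontrivial V) (H : Subgroup G) (v : V)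
    (r : SkewMonoidAlgebra F H) (c : H →₀ D.B) (hc : ∀ h, (c h : F) = r.coeff h) :
    r ∈ Jset D H v ↔ (c.sum fun h x => D.act x (ρ h v)) = 0 := by
  constructor
  · rintro ⟨b, hb, c0, hc0, hz⟩
    have h1 : c0 = JdAux.mulc D H b c := by
      ext h
      rw [JdAux.mulc_apply, hc0, hc]
    change JdAux.T D H v c0 = 0 at hz
    change JdAux.T D H v c = 0
    rw [h1, JdAux.T_mulc] at hz
    exact D.inj b hb (by rw [hz, map_zero])
  · intro hz
    exact ⟨1, one_ne_zero, c, fun h => by rw [hc]; simp, hz⟩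

end Pool.Agent.Lib.PRI
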