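import Pool.Agent.Lib.PRI.Defs

/-!
# PRI.KsA: radicals in a radical extension of prime degree (1.5 h)
PROOF. Write `F` for its image in `Ω`, `K = F(α)`. `α ^ p = a ∈ F` is not a `p`-th power in `F` (`b ^ p = a` gives `(α/b) ^ p = 1`, so `α / b ∈ F` as `F` contains the `p`-th roots of unity), so `X^p - a` is irreducible (`X_pow_sub_C_irreducible_of_prime`), `[K : F] = p` and there is an automorphism `σ` of `K / F` with `σ α = ζ α`, `ζ` a primitive `p`-th root of unity;
`σ` generates the Galois group, `σ ^ p = 1`, fixed field `F`. Let `β ∈ K`, `β ^ n ∈ F`, `ω = σ β / β`, so `ω ^ n = 1` and `ω · σ ω ⋯ σ^(p-1) ω = 1` (`= σ^p β / β`). Claim: `ω ^ p = 1`. Then `ω = ζ^j`, `σ (β / α^j) = β / α^j`, `β ∈ F α^j`. Proof of the claim. Let `q` be a prime and `ω_q` the `q`-primary part of `ω` (a power of `ω`, so `ω_q σ ω_q ⋯ = 1` too; `q ∈ π` if `ω_q ≠ 1`);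
it is enough that `ω_q ^ p = 1`. If `ω_q ∈ F` the product is `ω_q ^ p`, done. Let `ω_q ∉ F`, of order `q ^ m`, and let `q ^ e` be the maximal order of a power of `ω_q` in `F`; `e < m`, `e ≥ 1`, and `e ≥ 2` if `q = 2` (`F` contains the `q`-th, resp. fourth roots of unity; note `q ^ m` with `m = 1`, or `m = 2`, `q = 2`, would give `ω_q ∈ F`). `η = ω_q ^ (q ^ (m - e - 1))` has
`η ^ q ∈ F`, `η ∉ F`, so `[F(η) : F] = q` (same argument), `F(η) ⊆ K`, so `q = p`. `σ ω_q = ω_q ^ s` with `s : ℕ`; `σ` fixes `ω_q ^ (p ^ (m-e))` so `s ≡ 1 mod p^e`, `s ≢ 1 mod p^m`, and `s ^ p ≡ 1 mod p^m` (`σ^p = 1`). Lifting the exponent: `v_p(s^p - 1) = v_p(s - 1) + 1` (`p` odd, `p ∣ s - 1`; or `p = 2`, `4 ∣ s - 1`), so `(s^p - 1)/(s - 1) = 1 + s + ⋯ + s^(p-1)` is `p` times a number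
prime to `p` (direct: `s = 1 + p^e w`; the sum is `≡ p mod p²`). The product is `ω_q ^ (1 + s + ⋯ + s^(p-1)) = 1`, so `p ^ m ∣ p · (prime to p)`, `m ≤ 1`, a contradiction to `m > e ≥ 1`.

In the Lean proof the claim `ω ^ p = 1` is done at once: let `N` be the order of `ω`, `σ ω = ω ^ s`; every prime `q ∣ N` has
`s ≡ 1 mod q`, so `N ∣ 1 + s + ⋯ + s^(p-1) ≡ p mod q` gives `q = p`; and `p² ∣ N` is impossible as the sum is `≡ p mod p²`.
-/

set_option autoImplicit false

namespace Pool.Agent.Lib.PRI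

namespace KsAAux

open Polynomial

/-- `1 + s + ⋯ + s ^ (p - 1)` modulo a divisor of `s - 1`. -/
theorem geom_mod (t q p : ℕ) (h : q ∣ t) (hd : q ∣ ∑ i ∈ Finset.range p, (1 + t) ^ i) : q ∣ p := by
  have h1 : ∀ i : ℕ, (1 + t) ^ i ≡ 1 [MOD q] := by
    intro i
    have h2 : 1 + t ≡ 1 [MOD q] := by
      have := (Nat.modEq_zero_iff_dvd.2 h).add_left 1
      simpa using this
    simpa using h2.pow i
  have h3 : ∑ i ∈ Finset.range p, (1 + t) ^ i ≡ ∑ i ∈ Finset.range p, 1 [MOD q] := by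
    induction p with
    | zero => rfl
    | succ k _ =>
      apply Nat.ModEq.sum
      intro i _
      exact h1 i
  have h4 : ∑ i ∈ Finset.range p, (1 + t) ^ i ≡ 0 [MOD q] := Nat.modEq_zero_iff_dvd.2 hd
  have h5 := h3.symm.trans h4
  simp at h5
  exact Nat.modEq_zero_iff_dvd.1 h5

/-- `1 + s + ⋯ + s ^ (p - 1)` modulo `p ^ 2` for `s ≡ 1` modulo `p`, `p` odd. -/
theorem geom_sq {p : ℕ} (hp : p.Prime) (h2 : p ≠ 2) (w : ℕ)
    (hd : p ^ 2 ∣ ∑ i ∈ Finset.range p, (1 + p * w) ^ i) : False := by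
  have h1 : ∀ i : ℕ, ((p : ℤ) ^ 2) ∣ (1 + p * w : ℤ) ^ i - (1 + i * (p * w)) := by
    intro i
    induction i with
    | zero => simp
    | succ k ih =>
      obtain ⟨c, hc⟩ := ih
      refine ⟨c * (1 + p * w) + k * w ^ 2, ?_⟩
      have h3 : (1 + p * w : ℤ) ^ k = (p : ℤ) ^ 2 * c + (1 + k * (p * w)) := by linarith
      rw [pow_succ, h3]
      push_cast
      ring
  have h3 : ((p : ℤ) ^ 2) ∣ ∑ i ∈ Finset.range p, ((1 + p * w : ℤ) ^ i - (1 + i * (p * w))) :=
    Finset.dvd_sum fun i _ => h1 i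
  have h4 : ((p : ℤ) ^ 2) ∣ ∑ i ∈ Finset.range p, (1 + p * w : ℤ) ^ i := by
    have := Int.natCast_dvd_natCast.2 hd
    push_cast at this
    exact this
  have h5 : ((p : ℤ) ^ 2) ∣ ∑ i ∈ Finset.range p, (1 + i * (p * w) : ℤ) := by
    rw [Finset.sum_sub_distrib] at h3
    have := h4.sub h3
    simpa using this
  have h6 : p ∣ ∑ i ∈ Finset.range p, i := by
    have h7 := Finset.sum_range_id_mul_two p
    have h8 : p ∣ (∑ i ∈ Finset.range p, i) * 2 := by rw [h7]; exact dvd_mul_right _ _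
    rcases hp.dvd_mul.1 h8 with h | h
    · exact h
    · exact absurd ((Nat.prime_dvd_prime_iff_eq hp Nat.prime_two).1 h) h2
  obtain ⟨u, hu⟩ := h6
  have h7 : ∑ i ∈ Finset.range p, (1 + i * (p * w) : ℤ) = p + p ^ 2 * (u * w) := by
    rw [Finset.sum_add_distrib, ← Finset.sum_mul]
    have : (∑ i ∈ Finset.range p, (i : ℤ)) = p * u := by
      have := congrArg (Nat.cast : ℕ → ℤ) hu
      push_cast at this
      exact this
    rw [this]
    simp
    ring
  rw [h7] at h5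
  have h8 : ((p : ℤ) ^ 2) ∣ p := by
    have := h5.sub (Dvd.intro (u * w : ℤ) rfl : ((p : ℤ) ^ 2) ∣ (p : ℤ) ^ 2 * (u * w))
    simpa using this
  have h9 : p ^ 2 ∣ p := by
    have : (((p ^ 2 : ℕ) : ℤ)) ∣ ((p : ℕ) : ℤ) := by push_cast; exact h8
    exact Int.natCast_dvd_natCast.1 this
  have h10 := Nat.le_of_dvd hp.pos h9
  have h11 := hp.two_le
  nlinarith

/-- A root of unity of `K` whose order divides that of a root of unity of `F` is fixed by a homomorphism over `F`. -/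
theorem fixed {F K : Type} [Field F] [Field K] [Algebra F K] (σ : K →ₐ[F] K) {q : ℕ} (hq : 0 < q) {ζ : F}
    (hζ : IsPrimitiveRoot ζ q) {x : K} (hx : x ^ q = 1) : σ x = x := by
  have : NeZero q := ⟨hq.ne'⟩
  have h1 : IsPrimitiveRoot (algebraMap F K ζ) q := hζ.map_of_injective (algebraMap F K).injective
  obtain ⟨i, _, hi⟩ := h1.eq_pow_of_pow_eq_one hx
  rw [← hi, map_pow, AlgHom.commutes]

/-- the order of the root of unity `σ β / β` divides `p` -/
theorem order {F K : Type} [Field F] [Field K] [Algebra F K] {π : Finset ℕ}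
    (hπ : GoodRoots F π) {p : ℕ} (hp : p ∈ π) (σ : K →ₐ[F] K) (hσ : σ ^ p = 1) {β ω : K} (hβ : β ≠ 0)
    (hω : σ β = ω * β) {n : ℕ} (hn : PiNum π n) (hωn : ω ^ n = 1) : ω ^ p = 1 := by
  have hpp : p.Prime := hπ.1 p hp
  set N := orderOf ω with hN
  have hN0 : 0 < N := orderOf_pos_iff.2 (isOfFinOrder_iff_pow_eq_one.2 ⟨n, hn.1, hωn⟩)
  have hpr : IsPrimitiveRoot ω N := IsPrimitiveRoot.orderOf ω
  have hNn : N ∣ n := orderOf_dvd_of_pow_eq_one hωn
  have : NeZero N := ⟨hN0.ne'⟩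
  have hω0 : ω ≠ 0 := by
    rintro rfl
    rw [zero_pow hn.1.ne'] at hωn
    exact zero_ne_one hωn
  -- `σ ω = ω ^ (1 + t)`
  obtain ⟨t, ht⟩ : ∃ t : ℕ, σ ω = ω ^ (1 + t) := by
    have h1 : (σ ω) ^ N = 1 := by rw [← map_pow, hpr.pow_eq_one, map_one]
    obtain ⟨i, _, hi⟩ := hpr.eq_pow_of_pow_eq_one h1
    refine ⟨i + N - 1, ?_⟩
    rw [show 1 + (i + N - 1) = i + N by omega, pow_add, hpr.pow_eq_one, mul_one, hi]
  -- divisors
  have hdiv : ∀ q : ℕ, 0 < q → q ∣ N → (∃ ζ : F, IsPrimitiveRoot ζ q) → q ∣ t := by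
    rintro q hq ⟨r, hr⟩ ⟨ζ, hζ⟩
    have hr0 : 0 < r := by
      rcases Nat.eq_zero_or_pos r with h | h
      · rw [h, mul_zero] at hr; omega
      · exact h
    have h1 : (ω ^ r) ^ q = 1 := by
      rw [← pow_mul, mul_comm, ← hr, hpr.pow_eq_one]
    have h2 := fixed σ hq hζ h1
    rw [map_pow, ht, ← pow_mul, add_mul, one_mul, pow_add] at h2
    have h3 : ω ^ (t * r) = 1 := by
      have h4 : ω ^ r ≠ 0 := pow_ne_zero _ hω0
      exact mul_left_cancel₀ h4 (by rw [h2, mul_one])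
    have h4 : N ∣ t * r := (hpr.pow_eq_one_iff_dvd _).1 h3
    rw [hr] at h4
    exact Nat.dvd_of_mul_dvd_mul_right hr0 h4
  -- the sum
  have hsum : N ∣ ∑ i ∈ Finset.range p, (1 + t) ^ i := by
    have h1 : ∀ j : ℕ, (σ ^ j) ω = ω ^ ((1 + t) ^ j) := by
      intro j
      induction j with
      | zero => simp
      | succ k ih =>
        rw [pow_succ', AlgHom.mul_apply, ih, map_pow, ht, ← pow_mul, pow_succ']
    have h2 : ∀ j : ℕ, (σ ^ j) β = ω ^ (∑ i ∈ Finset.range j, (1 + t) ^ i) * β := by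
      intro j
      induction j with
      | zero => simp
      | succ k ih =>
        rw [pow_succ, AlgHom.mul_apply, hω, map_mul, h1, ih, Finset.sum_range_succ, pow_add]
        ring
    have h3 := h2 p
    rw [hσ, AlgHom.one_apply] at h3
    have h4 : ω ^ (∑ i ∈ Finset.range p, (1 + t) ^ i) = 1 :=
      mul_right_cancel₀ hβ (by rw [← h3, one_mul])
    exact (hpr.pow_eq_one_iff_dvd _).1 h4
  -- only the prime `p` divides `N`
  have hprime : ∀ q : ℕ, q.Prime → q ∣ N → q = p := by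
    intro q hq hqN
    have h1 : q ∈ π := hn.2 q hq (hqN.trans hNn)
    have h2 := hdiv q hq.pos hqN (hπ.2.1 q h1)
    have h3 := geom_mod t q p h2 (hqN.trans hsum)
    exact (Nat.prime_dvd_prime_iff_eq hq hpp).1 h3
  have hNp : N = p ^ N.primeFactorsList.length :=
    Nat.eq_prime_pow_of_unique_prime_dvd hN0.ne' (fun {d} hd hdN => hprime d hd hdN)
  have hnot : ¬ p ^ 2 ∣ N := by
    intro hsq
    have hpN : p ∣ N := (dvd_pow_self p two_ne_zero).trans hsq
    have hpt := hdiv p hpp.pos hpN (hπ.2.1 p hp)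
    by_cases h2 : p = 2
    · subst h2
      have h4 : 4 ∣ t := hdiv 4 (by norm_num) (by simpa using hsq) (hπ.2.2 hp)
      have h5 : 4 ∣ ∑ i ∈ Finset.range 2, (1 + t) ^ i := (by simpa using hsq : 4 ∣ N).trans hsum
      simp [Finset.sum_range_succ] at h5
      omega
    · obtain ⟨w, hw⟩ := hpt
      rw [hw] at hsum
      exact geom_sq hpp h2 w (hsq.trans hsum)
  have hlen : N.primeFactorsList.length ≤ 1 := by
    by_contra h
    push Not at h
    apply hnot
    rw [hNp]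
    exact pow_dvd_pow p h
  have hNdvd : N ∣ p := by
    rw [hNp]
    calc p ^ N.primeFactorsList.length ∣ p ^ 1 := pow_dvd_pow p hlen
      _ = p := pow_one p
  exact (hpr.pow_eq_one_iff_dvd _).2 hNdvd

/-- the minimal polynomial of `α` -/
theorem minpoly_eq {F Ω : Type} [Field F] [Field Ω] [Algebra F Ω] {π : Finset ℕ}
    (hπ : GoodRoots F π) {p : ℕ} (hp : p ∈ π) {α : Ω} (hα : α ∉ Set.range (algebraMap F Ω)) {a : F}
    (ha : algebraMap F Ω a = α ^ p) : minpoly F α = X ^ p - C a := by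
  have hpp : p.Prime := hπ.1 p hp
  have hirr : Irreducible (X ^ p - C a : F[X]) := by
    apply X_pow_sub_C_irreducible_of_prime hpp
    intro b hb
    obtain ⟨ζ, hζ⟩ := hπ.2.1 p hp
    have hα0 : α ≠ 0 := by
      rintro rfl
      exact hα ⟨0, map_zero _⟩
    have hb0 : algebraMap F Ω b ≠ 0 := by
      intro h
      apply hα0
      have h1 : α ^ p = 0 := by
        rw [← ha, ← hb, map_pow, h, zero_pow hpp.ne_zero]
      exact pow_eq_zero_iff hpp.ne_zero |>.1 h1
    have h1 : (α / algebraMap F Ω b) ^ p = 1 := by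
      rw [div_pow, ← map_pow, hb, ha]
      exact div_self (pow_ne_zero _ hα0)
    have : NeZero p := ⟨hpp.ne_zero⟩
    have h2 : IsPrimitiveRoot (algebraMap F Ω ζ) p := hζ.map_of_injective (algebraMap F Ω).injective
    obtain ⟨i, _, hi⟩ := h2.eq_pow_of_pow_eq_one h1
    apply hα
    refine ⟨ζ ^ i * b, ?_⟩
    rw [map_mul, map_pow, hi]
    field_simp
  symm
  apply minpoly.eq_of_irreducible_of_monic hirr
  · simp [ha]
  · exact monic_X_pow_sub_C a hpp.ne_zero

end KsAAux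

open KsAAux Polynomial IntermediateField in
theorem kneser_step {F Ω : Type} [Field F] [Field Ω] [Algebra F Ω] [CharZero F] {π : Finset ℕ}
    (hπ : GoodRoots F π) {p : ℕ} (hp : p ∈ π) {α : Ω} (hα : α ∉ Set.range (algebraMap F Ω))
    (hαp : α ^ p ∈ Set.range (algebraMap F Ω)) {β : Ω} (hβ : β ∈ IntermediateField.adjoin F {α})
    (hβ0 : β ≠ 0) {n : ℕ} (hn : PiNum π n) (hβn : β ^ n ∈ Set.range (algebraMap F Ω)) :
    ∃ (j : ℕ) (c : F), β = algebraMap F Ω c * α ^ j := by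
  obtain ⟨a, ha⟩ := hαp
  have hpp : p.Prime := hπ.1 p hp
  have : NeZero p := ⟨hpp.ne_zero⟩
  obtain ⟨ζ, hζ⟩ := hπ.2.1 p hp
  have hmin := minpoly_eq hπ hp hα ha
  have hint : IsIntegral F α := by
    by_contra h
    have := minpoly.eq_zero h
    rw [hmin] at this
    exact (monic_X_pow_sub_C a hpp.ne_zero).ne_zero this
  let pb := IntermediateField.adjoin.powerBasis hint
  have hgen : pb.gen = AdjoinSimple.gen F α := IntermediateField.adjoin.powerBasis_gen hint
  have hgenα : (pb.gen : Ω) = α := by rw [hgen]; exact AdjoinSimple.coe_gen F α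
  have hgp : pb.gen ^ p = algebraMap F F⟮α⟯ a := by
    apply Subtype.ext
    push_cast
    rw [hgenα, ← ha]
  have hminK : minpoly F pb.gen = X ^ p - C a := by
    rw [← hmin, hgen]
    exact IntermediateField.minpoly_gen F α
  let y : F⟮α⟯ := algebraMap F F⟮α⟯ ζ * pb.gen
  have hy : aeval y (minpoly F pb.gen) = 0 := by
    rw [hminK]
    simp only [map_sub, map_pow, aeval_X, aeval_C, y]
    rw [mul_pow, ← map_pow, hζ.pow_eq_one, map_one, one_mul, hgp, sub_self]
  let σ : F⟮α⟯ →ₐ[F] F⟮α⟯ := pb.lift y hy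
  have hσg : σ pb.gen = algebraMap F F⟮α⟯ ζ * pb.gen := pb.lift_gen y hy
  have hσp : σ ^ p = 1 := by
    apply pb.algHom_ext
    have h1 : ∀ j : ℕ, (σ ^ j) pb.gen = algebraMap F F⟮α⟯ (ζ ^ j) * pb.gen := by
      intro j
      induction j with
      | zero => simp
      | succ k ih =>
        rw [pow_succ', AlgHom.mul_apply, ih, map_mul, AlgHom.commutes, hσg, ← mul_assoc, ← map_mul, pow_succ]
    rw [h1, hζ.pow_eq_one, map_one, one_mul, AlgHom.one_apply]
  let b : F⟮α⟯ := ⟨β, hβ⟩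
  have hb0 : b ≠ 0 := by
    intro h
    exact hβ0 (congrArg Subtype.val h)
  obtain ⟨d, hd⟩ := hβn
  have hbn : b ^ n = algebraMap F F⟮α⟯ d := by
    apply Subtype.ext
    push_cast
    rw [← hd]
  have hω : σ b = (σ b / b) * b := by field_simp
  have hωn : (σ b / b) ^ n = 1 := by
    rw [div_pow, ← map_pow, hbn, AlgHom.commutes]
    apply div_self
    rw [← hbn]
    exact pow_ne_zero _ hb0
  have hωp := order hπ hp σ hσp hb0 hω hn hωn
  have hζK : IsPrimitiveRoot (algebraMap F F⟮α⟯ ζ) p := hζ.map_of_injective (algebraMap F F⟮α⟯).injective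
  obtain ⟨k, hk, hkω⟩ := hζK.eq_pow_of_pow_eq_one hωp
  rw [← hkω] at hω
  have hdim : pb.dim = p := by
    have : pb.dim = (minpoly F α).natDegree := IntermediateField.adjoin.powerBasis_dim hint
    rw [this, hmin, natDegree_X_pow_sub_C]
  have hrep : b = ∑ i : Fin pb.dim, pb.basis.repr b i • pb.gen ^ (i : ℕ) := by
    conv_lhs => rw [← pb.basis.sum_repr b]
    simp [PowerBasis.coe_basis]
  have h1 : σ b = ∑ i : Fin pb.dim, (pb.basis.repr b i * ζ ^ (i : ℕ)) • pb.basis i := by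
    conv_lhs => rw [hrep]
    rw [map_sum]
    apply Finset.sum_congr rfl
    intro i _
    rw [Algebra.smul_def, map_mul, AlgHom.commutes, map_pow, hσg, mul_pow, ← map_pow, ← mul_assoc, ← map_mul,
      ← Algebra.smul_def, PowerBasis.coe_basis]
  have h2 : σ b = ∑ i : Fin pb.dim, (pb.basis.repr b i * ζ ^ k) • pb.basis i := by
    rw [hω]
    conv_lhs => rw [hrep]
    rw [Finset.mul_sum]
    apply Finset.sum_congr rfl
    intro i _
    rw [← map_pow, ← Algebra.smul_def, smul_smul, PowerBasis.coe_basis, mul_comm]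
  have h3 : ∀ i : Fin pb.dim, pb.basis.repr b i * ζ ^ (i : ℕ) = pb.basis.repr b i * ζ ^ k := by
    intro i
    have h4 := congrArg (fun v => pb.basis.repr v i) (h1.symm.trans h2)
    simp only [Module.Basis.repr_sum_self] at h4
    exact h4
  have h4 : ∀ i : Fin pb.dim, (i : ℕ) ≠ k → pb.basis.repr b i = 0 := by
    intro i hi
    by_contra hne
    have h5 := mul_left_cancel₀ hne (h3 i)
    exact hi (hζ.pow_inj (by have := i.2; omega) hk h5)
  refine ⟨k, pb.basis.repr b ⟨k, by omega⟩, ?_⟩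
  have h5 : b = pb.basis.repr b ⟨k, by omega⟩ • pb.gen ^ k := by
    conv_lhs => rw [hrep]
    rw [Finset.sum_eq_single (⟨k, by omega⟩ : Fin pb.dim)]
    · intro i _ hi
      rw [h4 i (fun h => hi (Fin.ext h)), zero_smul]
    · intro h
      exact absurd (Finset.mem_univ _) h
  have h6 := congrArg (Subtype.val) h5
  rw [Algebra.smul_def] at h6
  push_cast at h6
  rw [hgenα] at h6
  exact h6

open KsAAux Polynomial in
theorem degree_p {F Ω : Type} [Field F] [Field Ω] [Algebra F Ω] [CharZero F] {π : Finset ℕ}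
    (hπ : GoodRoots F π) {p : ℕ} (hp : p ∈ π) {α : Ω} (hα : α ∉ Set.range (algebraMap F Ω))
    (hαp : α ^ p ∈ Set.range (algebraMap F Ω)) : LinearIndependent F (fun j : Fin p => α ^ (j : ℕ)) := by
  obtain ⟨a, ha⟩ := hαp
  have hpp : p.Prime := hπ.1 p hp
  have hmin := minpoly_eq hπ hp hα ha
  have hdeg : (minpoly F α).natDegree = p := by rw [hmin, natDegree_X_pow_sub_C]
  have h := linearIndependent_pow (K := F) α
  have h2 := h.comp (Fin.cast hdeg.symm) (Fin.cast_injective hdeg.symm)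
  exact h2

end Pool.Agent.Lib.PRI
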