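import Pool.Agent.Lib.PRI.KsA

/-!
# PRI.KsB: Kneser's theorem on the independence of radicals (1.5 h)
PROOF. Let `Γ` be the subgroup of `Ωˣ` generated by the `γ i` and `Fˣ`; `Γ / Fˣ` is a finite abelian group (finitely generated, torsion), its order is a `π`-number. Induction on the order `N` (for all `F`, `m`, `γ`; a measure without quotient groups is possible too: induct on the product of the exponents, or on the number of classes modulo `Fˣ` in the finite set of products).
If `Γ = Fˣ` then `m ≤ 1` and the claim is clear (`γ i ≠ 0`). Otherwise there are `p ∈ π` and `α ∈ Γ` with `α ∉ F`, `α ^ p ∈ F` (Cauchy; or a suitable power of an element). Let `F' = F(α)` (`IntermediateField.adjoin F {α}`; `GoodRoots F' π`), `Γ'` generated by `Γ` and `F'ˣ`: its order over `F'ˣ` is smaller. Let `∑ a_i γ_i = 0`, `a_i ∈ F`. Choose representatives of the classes of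
the `γ i` modulo `F'ˣ`: `γ_i = f_i γ_{c(i)}`, `f_i ∈ F'ˣ`; `f_i ^ n ∈ F` for a `π`-number `n`, so `f_i = c_i α ^ (j_i)` (`kneser_step`), and we may take `j_i < p` (`α ^ p ∈ F`). By induction the representatives are independent over `F'`, so for each class `∑_{i} a_i f_i = 0`, i.e. `∑ a_i c_i α ^ (j_i) = 0`; the `j_i` in one class are different (`hd`), so `a_i c_i = 0`
(`degree_p`), `a_i = 0`.
-/

set_option autoImplicit false

namespace Pool.Agent.Lib.PRI

namespace KsBAux

theorem good_map {K L : Type} [Field K] [Field L] {π : Finset ℕ} (f : K →+* L)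
    (h : GoodRoots K π) : GoodRoots L π := by
  refine ⟨h.1, fun p hp => ?_, fun h2 => ?_⟩
  · obtain ⟨ζ, hζ⟩ := h.2.1 p hp
    exact ⟨f ζ, hζ.map_of_injective f.injective⟩
  · obtain ⟨ζ, hζ⟩ := h.2.2 h2
    exact ⟨f ζ, hζ.map_of_injective f.injective⟩

theorem piNum_mul {π : Finset ℕ} {m n : ℕ} (hm : PiNum π m) (hn : PiNum π n) :
    PiNum π (m * n) :=
  ⟨Nat.mul_pos hm.1 hn.1, fun p hp hd => (hp.dvd_mul.1 hd).elim (hm.2 p hp) (hn.2 p hp)⟩

theorem cls {Ω : Type} [Field Ω] [CharZero Ω] {π : Finset ℕ} {K : Subfield Ω}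
    (hπ : GoodRoots K π) {p : ℕ} (hp : p ∈ π) {α : Ω} (hα : α ∉ K) (hαp : α ^ p ∈ K)
    {T : Finset Ω} {f : Ω → Ω} (hf0 : ∀ x ∈ T, f x ≠ 0)
    (hf : ∀ x ∈ T, f x ∈ IntermediateField.adjoin K {α})
    (hn : ∀ x ∈ T, ∃ n, PiNum π n ∧ f x ^ n ∈ K)
    (hd : ∀ x ∈ T, ∀ y ∈ T, x ≠ y → ∀ c ∈ K, f x ≠ c * f y)
    {a : Ω → Ω} (ha : ∀ x ∈ T, a x ∈ K) (hs : ∑ x ∈ T, a x * f x = 0) : ∀ x ∈ T, a x = 0 := by
  classical
  have : CharZero K := K.subtype.charZero
  have hpp : p.Prime := hπ.1 p hp
  have hα' : α ∉ Set.range (algebraMap K Ω) := by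
    rintro ⟨c, rfl⟩
    exact hα c.2
  have hαp' : α ^ p ∈ Set.range (algebraMap K Ω) := ⟨⟨α ^ p, hαp⟩, rfl⟩
  have key : ∀ x ∈ T, ∃ (j : Fin p) (c : K), f x = (c : Ω) * α ^ (j : ℕ) := by
    intro x hx
    obtain ⟨n, hn1, hn2⟩ := hn x hx
    obtain ⟨j0, c0, h⟩ := kneser_step hπ hp hα' hαp' (hf x hx) (hf0 x hx) hn1
      ⟨⟨f x ^ n, hn2⟩, rfl⟩
    refine ⟨⟨j0 % p, Nat.mod_lt _ hpp.pos⟩, c0 * ⟨α ^ p, hαp⟩ ^ (j0 / p), ?_⟩
    have h1 : α ^ j0 = (α ^ p) ^ (j0 / p) * α ^ (j0 % p) := by
      rw [← pow_mul, ← pow_add, Nat.div_add_mod]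
    rw [h, h1, ← mul_assoc]
    rfl
  choose j c hjc using key
  have hc0 : ∀ x (hx : x ∈ T), (c x hx : Ω) ≠ 0 := by
    intro x hx h
    apply hf0 x hx
    rw [hjc x hx, h, zero_mul]
  have inj : Function.Injective (fun x : T => j x x.2) := by
    intro x y hxy
    by_contra hne
    have hne' : (x : Ω) ≠ y := fun h => hne (Subtype.ext h)
    refine hd x x.2 y y.2 hne' (c x x.2 / c y y.2 : Ω) (K.div_mem (c x x.2).2 (c y y.2).2) ?_
    have hxy' : j x x.2 = j y y.2 := hxy
    rw [hjc x x.2, hjc y y.2, hxy', ← mul_assoc, div_mul_cancel₀ _ (hc0 y y.2)]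
  have li := (degree_p hπ hp hα' hαp').comp _ inj
  intro x hx
  have hz := Fintype.linearIndependent_iff.1 li
    (fun x : T => (⟨a x, ha x x.2⟩ : K) * c x x.2) ?_ ⟨x, hx⟩
  · have hz2 : a x * (c x hx : Ω) = 0 := congrArg Subtype.val hz
    exact (mul_eq_zero.1 hz2).resolve_right (hc0 x hx)
  · rw [← hs, ← Finset.sum_coe_sort T (fun x => a x * f x)]
    refine Finset.sum_congr rfl fun y _ => ?_
    rw [hjc y y.2, ← mul_assoc]
    rfl

theorem aux {Ω : Type} [Field Ω] [CharZero Ω] {π : Finset ℕ} : ∀ (N : ℕ) (K : Subfield Ω)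
    (_ : GoodRoots K π) (S : Finset Ω) (e : Ω → ℕ) (_ : ∀ x ∈ S, x ≠ 0)
    (_ : ∀ x ∈ S, PiNum π (e x) ∧ x ^ e x ∈ K)
    (_ : ∀ x ∈ S, ∀ y ∈ S, x ≠ y → ∀ c ∈ K, x ≠ c * y) (_ : ∑ x ∈ S, e x ≤ N)
    (a : Ω → Ω) (_ : ∀ x ∈ S, a x ∈ K) (_ : ∑ x ∈ S, a x * x = 0), ∀ x ∈ S, a x = 0 := by
  classical
  intro N
  induction N with
  | zero =>
    intro K hπ S e h0 he hd hN a ha hs x hx
    have h1 := (he x hx).1.1
    have h2 := Finset.single_le_sum (f := e) (fun i _ => Nat.zero_le _) hx
    omega
  | succ N ih =>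
    intro K hπ S e h0 he hd hN a ha hs
    by_cases hall : ∀ x ∈ S, e x = 1
    · intro x hx
      have hxK : ∀ y ∈ S, y ∈ K := by
        intro y hy
        have h1 := (he y hy).2
        rwa [hall y hy, pow_one] at h1
      have hS : S = {x} := by
        ext y
        rw [Finset.mem_singleton]
        constructor
        · intro hy
          by_contra hne
          refine hd y hy x hx hne (y / x) (K.div_mem (hxK y hy) (hxK x hx)) ?_
          rw [div_mul_cancel₀ _ (h0 x hx)]
        · rintro rfl
          exact hx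
      rw [hS, Finset.sum_singleton] at hs
      exact (mul_eq_zero.1 hs).resolve_right (h0 x hx)
    · push Not at hall
      obtain ⟨x0, hx0, he1⟩ := hall
      obtain ⟨p, hp, hpd⟩ := Nat.exists_prime_and_dvd he1
      have hpπ : p ∈ π := (he x0 hx0).1.2 p hp hpd
      obtain ⟨k, hk⟩ := hpd
      have hpos := (he x0 hx0).1.1
      have hk0 : 0 < k := by
        rcases Nat.eq_zero_or_pos k with h | h
        · rw [h, mul_zero] at hk
          omega
        · exact h
      have hklt : k < e x0 := by
        rw [hk]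
        have h2 := hp.two_le
        nlinarith
      have hkπ : PiNum π k :=
        ⟨hk0, fun q hq hqd => (he x0 hx0).1.2 q hq (hqd.trans (hk ▸ Dvd.intro_left p rfl))⟩
      let e' : Ω → ℕ := Function.update e x0 k
      have e'le : ∀ x, e' x ≤ e x := by
        intro x
        by_cases hx : x = x0
        · subst hx
          simp only [e', Function.update_self]
          exact hklt.le
        · simp only [e', Function.update_of_ne hx]
          exact le_refl _
      have hsum : ∑ x ∈ S, e' x ≤ N := by
        have h1 : ∑ x ∈ S, e' x < ∑ x ∈ S, e x := by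
          refine Finset.sum_lt_sum (fun x _ => e'le x) ⟨x0, hx0, ?_⟩
          simp only [e', Function.update_self]
          exact hklt
        omega
      have hπ' : ∀ x ∈ S, PiNum π (e' x) := by
        intro x hx
        by_cases h : x = x0
        · subst h
          simp only [e', Function.update_self]
          exact hkπ
        · simp only [e', Function.update_of_ne h]
          exact (he x hx).1
      have hαp : (x0 ^ k) ^ p ∈ K := by
        rw [← pow_mul, mul_comm k p, ← hk]
        exact (he x0 hx0).2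
      by_cases hα : x0 ^ k ∈ K
      · refine ih K hπ S e' h0 (fun x hx => ⟨hπ' x hx, ?_⟩) hd hsum a ha hs
        by_cases h : x = x0
        · subst h
          simp only [e', Function.update_self]
          exact hα
        · simp only [e', Function.update_of_ne h]
          exact (he x hx).2
      · let E := IntermediateField.adjoin K {x0 ^ k}
        let F' : Subfield Ω := E.toSubfield
        have hKF : ∀ x ∈ K, x ∈ F' := fun x hx => E.algebraMap_mem ⟨x, hx⟩
        have hαF : x0 ^ k ∈ F' := IntermediateField.mem_adjoin_simple_self K (x0 ^ k)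
        have hFπ : GoodRoots F' π := good_map (Subfield.inclusion (fun x hx => hKF x hx)) hπ
        let C : Ω → Finset Ω := fun x => S.filter (fun y => ∃ c ∈ F', y = c * x)
        have hC : ∀ x y, x ≠ 0 → (∃ c ∈ F', x = c * y) → C x = C y := by
          rintro x y hx ⟨c, hc, h⟩
          have hc0 : c ≠ 0 := by
            rintro rfl
            exact hx (by rw [h, zero_mul])
          ext z
          simp only [C, Finset.mem_filter]
          constructor
          · rintro ⟨hz, d, hd', hzd⟩
            exact ⟨hz, d * c, F'.mul_mem hd' hc, by rw [hzd, h, mul_assoc]⟩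
          · rintro ⟨hz, d, hd', hzd⟩
            refine ⟨hz, d / c, F'.div_mem hd' hc, ?_⟩
            rw [hzd, h, ← mul_assoc, div_mul_cancel₀ _ hc0]
        let ρ : Finset Ω → Ω := fun T => if h : T.Nonempty then h.choose else 0
        have hρ : ∀ T : Finset Ω, T.Nonempty → ρ T ∈ T := by
          intro T hT
          simp only [ρ, dif_pos hT]
          exact hT.choose_spec
        let r : Ω → Ω := fun x => ρ (C x)
        have hr : ∀ x ∈ S, r x ∈ S ∧ ∃ c ∈ F', r x = c * x := by
          intro x hx
          have h1 : x ∈ C x := by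
            simp only [C, Finset.mem_filter]
            exact ⟨hx, 1, F'.one_mem, (one_mul x).symm⟩
          have h2 := hρ (C x) ⟨x, h1⟩
          simp only [C, Finset.mem_filter] at h2
          exact h2
        have hCr : ∀ x ∈ S, C (r x) = C x := fun x hx => hC _ _ (h0 _ (hr x hx).1) (hr x hx).2
        have hr0 : ∀ x ∈ S, r x ≠ 0 := fun x hx => h0 _ (hr x hx).1
        have hquo : ∀ x ∈ S, x / r x ∈ F' := by
          intro x hx
          obtain ⟨c, hc, h⟩ := (hr x hx).2
          have h1 : x / r x = 1 / c := by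
            have hc0 : c ≠ 0 := by
              rintro rfl
              exact hr0 x hx (by rw [h, zero_mul])
            have hx0' := h0 x hx
            rw [h]
            field_simp
          rw [h1]
          exact F'.div_mem F'.one_mem hc
        let S' : Finset Ω := S.image r
        have hS'S : S' ⊆ S := by
          intro s hs'
          obtain ⟨x, hx, rfl⟩ := Finset.mem_image.1 hs'
          exact (hr x hx).1
        let b : Ω → Ω := fun s => ∑ x ∈ S with r x = s, a x * (x / s)
        have hb : ∀ s ∈ S', b s = 0 := by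
          refine ih F' hFπ S' e' (fun x hx => h0 x (hS'S hx))
            (fun x hx => ⟨hπ' x (hS'S hx), ?_⟩) ?_ ?_ b ?_ ?_
          · by_cases h : x = x0
            · subst h
              simp only [e', Function.update_self]
              exact hαF
            · simp only [e', Function.update_of_ne h]
              exact hKF _ (he x (hS'S hx)).2
          · intro x hx y hy hxy c hc h
            obtain ⟨x1, hx1, rfl⟩ := Finset.mem_image.1 hx
            obtain ⟨y1, hy1, rfl⟩ := Finset.mem_image.1 hy
            apply hxy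
            have h1 : C (r x1) = C (r y1) := hC _ _ (hr0 x1 hx1) ⟨c, hc, h⟩
            rw [hCr x1 hx1, hCr y1 hy1] at h1
            exact congrArg ρ h1
          · exact (Finset.sum_le_sum_of_subset hS'S).trans hsum
          · intro s hs'
            refine F'.sum_mem fun x hx => ?_
            obtain ⟨hx1, hx2⟩ := Finset.mem_filter.1 hx
            refine F'.mul_mem (hKF _ (ha x hx1)) ?_
            rw [← hx2]
            exact hquo x hx1
          · rw [← hs, ← Finset.sum_fiberwise_of_maps_to
              (fun x hx => Finset.mem_image_of_mem r hx) (fun x => a x * x)]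
            refine Finset.sum_congr rfl fun s hs' => ?_
            simp only [b]
            rw [Finset.sum_mul]
            refine Finset.sum_congr rfl fun x hx => ?_
            rw [mul_assoc, div_mul_cancel₀ _ (h0 s (hS'S hs'))]
        intro x hx
        have hrx : r x ∈ S' := Finset.mem_image_of_mem r hx
        have hrS := (hr x hx).1
        have hfin := cls (f := fun y => y / r x) (T := S.filter (fun y => r y = r x)) (a := a)
          hπ hpπ hα hαp ?_ ?_ ?_ ?_ ?_ ?_
        · exact hfin x (Finset.mem_filter.2 ⟨hx, rfl⟩)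
        · intro y hy
          exact div_ne_zero (h0 y (Finset.mem_filter.1 hy).1) (hr0 x hx)
        · intro y hy
          obtain ⟨hy1, hy2⟩ := Finset.mem_filter.1 hy
          have h1 := hquo y hy1
          rw [hy2] at h1
          exact h1
        · intro y hy
          obtain ⟨hy1, hy2⟩ := Finset.mem_filter.1 hy
          refine ⟨e y * e (r x), piNum_mul (he y hy1).1 (he _ hrS).1, ?_⟩
          show (y / r x) ^ (e y * e (r x)) ∈ K
          rw [div_pow]
          refine K.div_mem ?_ ?_
          · rw [pow_mul]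
            exact K.pow_mem (he y hy1).2 _
          · rw [mul_comm, pow_mul]
            exact K.pow_mem (he _ hrS).2 _
        · intro y hy z hz hyz c hc h
          obtain ⟨hy1, hy2⟩ := Finset.mem_filter.1 hy
          obtain ⟨hz1, hz2⟩ := Finset.mem_filter.1 hz
          apply hd y hy1 z hz1 hyz c hc
          have h' : y / r x = c * (z / r x) := h
          rw [← mul_div_assoc, div_left_inj' (hr0 x hx)] at h'
          exact h'
        · intro y hy
          exact ha y (Finset.mem_filter.1 hy).1
        · exact hb (r x) hrx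

end KsBAux

theorem kneser {F Ω : Type} [Field F] [Field Ω] [Algebra F Ω] [CharZero F] {π : Finset ℕ}
    (hπ : GoodRoots F π) {m : ℕ} (γ : Fin m → Ω) (h0 : ∀ i, γ i ≠ 0)
    (hn : ∀ i, ∃ n, PiNum π n ∧ γ i ^ n ∈ Set.range (algebraMap F Ω))
    (hd : ∀ i j, i ≠ j → ∀ c : F, γ i ≠ algebraMap F Ω c * γ j) : LinearIndependent F γ := by
  classical
  have : CharZero Ω := charZero_of_injective_algebraMap (algebraMap F Ω).injective
  have hinj : Function.Injective γ := by
    intro i j hij
    by_contra hne
    apply hd i j hne 1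
    rw [map_one, one_mul, hij]
  let K : Subfield Ω := (algebraMap F Ω).fieldRange
  have hK : ∀ c : F, algebraMap F Ω c ∈ K := fun c => ⟨c, rfl⟩
  have hπK : GoodRoots K π := KsBAux.good_map (algebraMap F Ω).rangeRestrictField hπ
  let S : Finset Ω := Finset.univ.image γ
  have hS : ∀ x ∈ S, ∃ i, γ i = x := by
    intro x hx
    obtain ⟨i, _, hi⟩ := Finset.mem_image.1 hx
    exact ⟨i, hi⟩
  have hex : ∀ x ∈ S, ∃ n, PiNum π n ∧ x ^ n ∈ K := by
    intro x hx
    obtain ⟨i, rfl⟩ := hS x hx
    obtain ⟨n, hn1, c, hc⟩ := hn i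
    exact ⟨n, hn1, c, hc⟩
  choose! e he using hex
  rw [Fintype.linearIndependent_iff]
  intro g hg i
  let a : Ω → Ω := Function.extend γ (fun i => algebraMap F Ω (g i)) 0
  have haγ : ∀ i, a (γ i) = algebraMap F Ω (g i) := fun i => hinj.extend_apply _ _ i
  have hfin := KsBAux.aux (∑ x ∈ S, e x) K hπK S e ?_ he ?_ le_rfl a ?_ ?_ (γ i)
    (Finset.mem_image_of_mem γ (Finset.mem_univ i))
  · rw [haγ] at hfin
    exact (map_eq_zero (algebraMap F Ω)).1 hfin
  · intro x hx
    obtain ⟨i, rfl⟩ := hS x hx
    exact h0 i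
  · intro x hx y hy hxy c hc
    obtain ⟨i, rfl⟩ := hS x hx
    obtain ⟨j, rfl⟩ := hS y hy
    obtain ⟨d, rfl⟩ := hc
    exact hd i j (fun h => hxy (by rw [h])) d
  · intro x hx
    obtain ⟨i, rfl⟩ := hS x hx
    rw [haγ]
    exact hK _
  · rw [Finset.sum_image (fun i _ j _ h => hinj h), ← hg]
    refine Finset.sum_congr rfl fun j _ => ?_
    rw [haγ, Algebra.smul_def]

end Pool.Agent.Lib.PRI
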