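import Pool.Agent.Lib.PRI.FrT
import Pool.Agent.Lib.PRI.KsB

/-!
# PRI.Ku: Kummer theory for a group of finite rank (1.5 h)
PROOF. `Ω = AlgebraicClosure F` (characteristic `0`: `F` contains `k`). `A0 = closure T`, `T` finite. `F₁ ⊆ Ω` is the subfield generated by `k`, `ι T` and the primitive roots of unity of order `p`, `p ∈ π`, and `4`: `FGField F₁` (`fgfield_adjoin`), `GoodRoots F₁ π`. Let `Y1 = {a ∈ A | ι a ∈ F₁}`, a subgroup containing `A0`; `ι` maps `Y1` injectively to a subgroup `B` of `F₁ˣ` with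
`B / ι A0` torsion, so `B` and `Y1` are finitely generated (`fr_fg`). Let `Y1 ≤ Y`, `t i` as in the statement. (1) If `s_1, …, s_r ∈ A` are in different classes modulo `Y1` the `ι s_i` are independent over `F₁` (`kneser`: `ι s_i = c ι s_j` with `c ∈ F₁` gives `c = ι (s_i s_j⁻¹)`, `s_i s_j⁻¹ ∈ Y1`). (2) Let `∑ f_i ι (t i) = 0` with `f_i ∈ k(ι Y)`. Elements of
`k(ι Y)` are quotients of elements of the algebra `k[ι Y]` (`IntermediateField.mem_adjoin_iff_div`; `ι Y` is closed under products and inverses), so after multiplying by a common denominator `f_i ∈ k[ι Y]`, which is spanned over `k` by `ι Y`, so `f_i = ∑_y c_{i,y} ι y` with `y` in a finite set of representatives of `Y / Y1` and `c_{i,y} ∈ k[ι Y1] ⊆ F₁`. The elements `t_i y` are in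
different classes modulo `Y1` (`t_i` different modulo `Y`, `y ∈ Y` different modulo `Y1`), so all `c_{i,y} = 0` by (1), `f_i = 0`. Second statement: `F = k(ι A)` is algebraic over `k(ι Y)` (`a ^ n ∈ A0 ≤ Y`), so it is generated as a ring over `k(ι Y)` by `ι A` (`IntermediateField.adjoin` = `Algebra.adjoin` for algebraic elements), i.e. it is the `k(ι Y)`-span of `ι A`; collect the elements
of `A` in the same class modulo `Y`.
-/

set_option autoImplicit false

namespace Pool.Agent.Lib.PRI

namespace KuAux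

open Function

/-- Kneser's theorem for families indexed by any type. -/
theorem indep_gen {K Ω : Type} [Field K] [Field Ω] [Algebra K Ω] [CharZero K] {π : Finset ℕ}
    (hπ : GoodRoots K π) {I : Type} (γ : I → Ω) (h0 : ∀ i, γ i ≠ 0)
    (hn : ∀ i, ∃ n, PiNum π n ∧ γ i ^ n ∈ Set.range (algebraMap K Ω))
    (hd : ∀ i j, i ≠ j → ∀ c : K, γ i ≠ algebraMap K Ω c * γ j) : LinearIndependent K γ := by
  classical
  rw [linearIndependent_iff_finset_linearIndependent]
  intro s
  have e := Fintype.equivFin s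
  have h1 : LinearIndependent K (fun i : Fin (Fintype.card s) => γ (e.symm i)) := by
    refine kneser hπ _ (fun i => h0 _) (fun i => hn _) (fun i j hij c => hd _ _ ?_ c)
    intro h
    exact hij (e.symm.injective (Subtype.ext h))
  have h2 : (γ ∘ (Subtype.val : s → I)) = (fun i : Fin (Fintype.card s) => γ (e.symm i)) ∘ e := by
    funext i
    simp
  rw [h2]
  exact h1.comp _ e.injective

/-- The elements `a` with `κ a` in the subfield. -/
def pre {k Ω A : Type} [Field k] [Field Ω] [Algebra k Ω] [CommGroup A] (κ : A →* Ω)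
    (K : IntermediateField k Ω) : Subgroup A where
  carrier := {a | κ a ∈ K}
  mul_mem' := fun {a b} ha hb => by
    change κ (a * b) ∈ K
    rw [map_mul]
    exact K.mul_mem ha hb
  one_mem' := by
    change κ 1 ∈ K
    rw [map_one]
    exact K.one_mem
  inv_mem' := fun {a} ha => by
    change κ a⁻¹ ∈ K
    have h : κ a⁻¹ = (κ a)⁻¹ := by
      apply eq_inv_of_mul_eq_one_left
      rw [← map_mul, inv_mul_cancel, map_one]
    rw [h]
    exact K.inv_mem ha

theorem mem_pre {k Ω A : Type} [Field k] [Field Ω] [Algebra k Ω] [CommGroup A] (κ : A →* Ω)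
    (K : IntermediateField k Ω) (a : A) : a ∈ pre κ K ↔ κ a ∈ K := Iff.rfl

/-- `pre κ K` is finitely generated. -/
theorem pre_fg {k Ω A : Type} [Field k] [Field Ω] [CharZero Ω] [Algebra k Ω] [CommGroup A]
    (κ : A →* Ω) (hκ : Injective κ) (K : IntermediateField k Ω) (hK : FGField K) (A0 : Subgroup A)
    (h0 : A0.FG) (hle : A0 ≤ pre κ K) (ht : ∀ a : A, ∃ n : ℕ, 0 < n ∧ a ^ n ∈ A0) :
    (pre κ K).FG := by
  classical
  let f : (pre κ K) →* K :=
    { toFun := fun a => ⟨κ a.1, a.2⟩
      map_one' := Subtype.ext (map_one κ)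
      map_mul' := fun a b => Subtype.ext (map_mul κ a.1 b.1) }
  let φ : (pre κ K) →* Kˣ := MonoidHom.toHomUnits f
  have hφv : ∀ a, ((φ a : K) : Ω) = κ a.1 := fun a => rfl
  have hφ : Injective φ := by
    intro a b hab
    apply Subtype.ext
    apply hκ
    rw [← hφv a, ← hφv b, hab]
  have hg0 : Group.FG (A0.subgroupOf (pre κ K)) := by
    have : Group.FG A0 := (Group.fg_iff_subgroup_fg A0).2 h0
    exact Group.fg_of_surjective (f := (Subgroup.subgroupOfEquivOfLe hle).symm.toMonoidHom)
      (Subgroup.subgroupOfEquivOfLe hle).symm.surjective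
  have hB0 : ((A0.subgroupOf (pre κ K)).map φ).FG := by
    rw [← Group.fg_iff_subgroup_fg]
    exact Group.fg_of_surjective (f := φ.subgroupMap (A0.subgroupOf (pre κ K)))
      (φ.subgroupMap_surjective _)
  have hB : φ.range.FG := by
    refine fr_fg hK _ _ hB0 ?_ ?_
    · exact Subgroup.map_le_range _ _
    · rintro _ ⟨a, rfl⟩
      obtain ⟨n, hn, ha⟩ := ht a.1
      refine ⟨n, hn, ?_⟩
      rw [← map_pow]
      exact Subgroup.mem_map_of_mem _ (Subgroup.mem_subgroupOf.2 ha)
  rw [← Group.fg_iff_subgroup_fg]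
  have : Group.FG φ.range := (Group.fg_iff_subgroup_fg _).2 hB
  exact Group.fg_of_surjective (f := (MonoidHom.ofInjective hφ).symm.toMonoidHom)
    (MonoidHom.ofInjective hφ).symm.surjective

/-- Linear independence over the algebra generated by `ι Y`. -/
theorem indep_alg {k F Ω A : Type} [Field k] [Field F] [Field Ω] [CharZero Ω] [Algebra k F]
    [Algebra F Ω] [Algebra k Ω] [IsScalarTower k F Ω] [CommGroup A] (ι : A →* F)
    (K : IntermediateField k Ω) (π : Finset ℕ) (hG : GoodRoots K π)
    (Y1 : Subgroup A) (hY1 : ∀ a, a ∈ Y1 ↔ algebraMap F Ω (ι a) ∈ K)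
    (ht : ∀ a : A, ∃ n, PiNum π n ∧ a ^ n ∈ Y1) (Y : Subgroup A) (hle : Y1 ≤ Y) (m : ℕ)
    (t : Fin m → A) (hd : ∀ i j, i ≠ j → (t i)⁻¹ * t j ∉ Y)
    (c : Fin m → F) (hc : ∀ i, c i ∈ Algebra.adjoin k (ι '' (Y : Set A)))
    (hs : ∑ i, c i * ι (t i) = 0) : ∀ i, c i = 0 := by
  classical
  let κ : A →* Ω := (algebraMap F Ω : F →* Ω).comp ι
  have hκv : ∀ a, κ a = algebraMap F Ω (ι a) := fun a => rfl
  have hne : ∀ a, κ a ≠ 0 := by
    intro a h
    have h1 : κ a * κ a⁻¹ = 1 := by rw [← map_mul, mul_inv_cancel, map_one]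
    rw [h, zero_mul] at h1
    exact zero_ne_one h1
  -- classes of `Y` modulo `Y1`
  let Q := Y ⧸ (Y1.subgroupOf Y)
  let y : Q → A := fun q => (Quotient.out q : Y)
  have hyY : ∀ q, y q ∈ Y := fun q => (Quotient.out q : Y).2
  have hyQ : ∀ q q', (y q)⁻¹ * y q' ∈ Y1 → q = q' := by
    intro q q' h
    have h1 : ((Quotient.out q : Y) : Q) = ((Quotient.out q' : Y) : Q) := by
      rw [QuotientGroup.eq]
      exact Subgroup.mem_subgroupOf.2 h
    have h2 : ((Quotient.out q : Y) : Q) = q := Quotient.out_eq q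
    have h3 : ((Quotient.out q' : Y) : Q) = q' := Quotient.out_eq q'
    rw [h2, h3] at h1
    exact h1
  -- the family `y q * t i` is independent over `K`
  let v : Q × Fin m → Ω := fun x => κ (y x.1 * t x.2)
  have hv : LinearIndependent K v := by
    refine indep_gen hG v (fun x => hne _) (fun x => ?_) ?_
    · obtain ⟨n, hn, h1⟩ := ht (y x.1 * t x.2)
      refine ⟨n, hn, ⟨⟨κ ((y x.1 * t x.2) ^ n), (hY1 _).1 h1⟩, ?_⟩⟩
      exact map_pow κ _ n
    · rintro ⟨q, i⟩ ⟨q', i'⟩ hne' c0 h
      have h1 : κ (y q' * t i')⁻¹ * κ (y q * t i) = c0 := by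
        have h2 : κ (y q * t i) = (c0 : Ω) * κ (y q' * t i') := h
        rw [h2, mul_comm, mul_assoc, ← map_mul, mul_inv_cancel, map_one, mul_one]
      have h3 : (y q' * t i')⁻¹ * (y q * t i) ∈ Y1 := by
        rw [hY1, ← hκv, map_mul, h1]
        exact c0.2
      have h4 : (t i')⁻¹ * t i ∈ Y := by
        have h5 : (t i')⁻¹ * t i = (y q' * (y q)⁻¹) * ((y q' * t i')⁻¹ * (y q * t i)) := by
          rw [mul_inv_rev]
          have : y q' * (y q)⁻¹ * ((t i')⁻¹ * (y q')⁻¹ * (y q * t i))
              = (y q' * (y q')⁻¹) * ((y q)⁻¹ * y q) * ((t i')⁻¹ * t i) := by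
            simp only [mul_assoc, mul_comm, mul_left_comm]
          rw [this, mul_inv_cancel, inv_mul_cancel, one_mul, one_mul]
        rw [h5]
        exact Y.mul_mem (Y.mul_mem (hyY q') (Y.inv_mem (hyY q))) (hle h3)
      have hii : i' = i := by
        by_contra hii
        exact hd i' i hii h4
      subst hii
      have h6 : (y q')⁻¹ * y q ∈ Y1 := by
        have h7 : (y q' * t i')⁻¹ * (y q * t i') = (y q')⁻¹ * y q := by
          rw [mul_inv_rev]
          have : (t i')⁻¹ * (y q')⁻¹ * (y q * t i')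
              = ((t i')⁻¹ * t i') * ((y q')⁻¹ * y q) := by
            simp only [mul_assoc, mul_comm, mul_left_comm]
          rw [this, inv_mul_cancel, one_mul]
        rw [← h7]
        exact h3
      have h8 := hyQ q' q h6
      subst h8
      exact hne' rfl
  -- elements of the algebra generated by `ι Y`
  have hspan : ∀ f : F, f ∈ Algebra.adjoin k (ι '' (Y : Set A)) →
      algebraMap F Ω f ∈ Submodule.span K (Set.range fun q : Q => κ (y q)) := by
    intro f hf
    have hcl : (Submonoid.closure (ι '' (Y : Set A)) : Set F) = ι '' (Y : Set A) := by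
      have h1 : Submonoid.closure (ι '' (Y : Set A)) = Y.toSubmonoid.map ι := by
        have : (ι '' (Y : Set A)) = ((Y.toSubmonoid.map ι : Submonoid F) : Set F) := rfl
        rw [this, Submonoid.closure_eq]
      rw [h1]
      rfl
    have hf' : f ∈ Subalgebra.toSubmodule (Algebra.adjoin k (ι '' (Y : Set A))) := hf
    rw [Algebra.adjoin_eq_span, hcl] at hf'
    induction hf' using Submodule.span_induction with
    | mem x hx =>
      obtain ⟨a, ha, rfl⟩ := hx
      have ha' : a ∈ Y := ha
      let q : Q := ((⟨a, ha'⟩ : Y) : Q)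
      have h1 : (y q)⁻¹ * a ∈ Y1 := by
        have h2 : ((Quotient.out q : Y) : Q) = ((⟨a, ha'⟩ : Y) : Q) := Quotient.out_eq q
        rw [QuotientGroup.eq] at h2
        exact Subgroup.mem_subgroupOf.1 h2
      have h3 : algebraMap F Ω (ι a)
          = (⟨κ ((y q)⁻¹ * a), (hY1 _).1 h1⟩ : K) • κ (y q) := by
        rw [Algebra.smul_def]
        change κ a = κ ((y q)⁻¹ * a) * κ (y q)
        rw [← map_mul, mul_right_comm, inv_mul_cancel, one_mul]
      rw [h3]
      exact Submodule.smul_mem _ _ (Submodule.subset_span ⟨q, rfl⟩)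
    | zero => rw [map_zero]; exact Submodule.zero_mem _
    | add a b _ _ ha hb => 
      rw [map_add]
      exact Submodule.add_mem _ (ha (by
        have := ‹a ∈ Submodule.span k (ι '' (Y : Set A))›
        have h9 : a ∈ Subalgebra.toSubmodule (Algebra.adjoin k (ι '' (Y : Set A))) := by
          rw [Algebra.adjoin_eq_span, hcl]; exact this
        exact h9)) (hb (by
        have := ‹b ∈ Submodule.span k (ι '' (Y : Set A))›
        have h9 : b ∈ Subalgebra.toSubmodule (Algebra.adjoin k (ι '' (Y : Set A))) := by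
          rw [Algebra.adjoin_eq_span, hcl]; exact this
        exact h9))
    | smul r a _ ha =>
      rw [Algebra.smul_def, map_mul, ← IsScalarTower.algebraMap_apply]
      have h1 : algebraMap k Ω r * algebraMap F Ω a = (algebraMap k K r) • algebraMap F Ω a := by
        rw [Algebra.smul_def]
        rfl
      rw [h1]
      exact Submodule.smul_mem _ _ (ha (by
        have := ‹a ∈ Submodule.span k (ι '' (Y : Set A))›
        have h9 : a ∈ Subalgebra.toSubmodule (Algebra.adjoin k (ι '' (Y : Set A))) := by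
          rw [Algebra.adjoin_eq_span, hcl]; exact this
        exact h9))
  have hrep : ∀ i, ∃ l : Q →₀ K, Finsupp.linearCombination K (fun q : Q => κ (y q)) l
      = algebraMap F Ω (c i) := by
    intro i
    have := hspan (c i) (hc i)
    rw [Finsupp.mem_span_range_iff_exists_finsupp] at this
    obtain ⟨l, hl⟩ := this
    exact ⟨l, hl⟩
  choose l hl using hrep
  let L : (Q × Fin m) →₀ K := ∑ i, Finsupp.mapDomain (fun q => (q, i)) (l i)
  have hL : Finsupp.linearCombination K v L = 0 := by
    have h1 : ∀ i, Finsupp.linearCombination K v (Finsupp.mapDomain (fun q => (q, i)) (l i))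
        = algebraMap F Ω (c i * ι (t i)) := by
      intro i
      rw [Finsupp.linearCombination_mapDomain, map_mul, ← hl i, ← hκv]
      rw [Finsupp.linearCombination_apply, Finsupp.linearCombination_apply, Finsupp.sum,
        Finsupp.sum, Finset.sum_mul]
      refine Finset.sum_congr rfl fun q _ => ?_
      change (l i) q • κ (y q * t i) = (l i) q • κ (y q) * κ (t i)
      rw [map_mul, smul_mul_assoc]
    rw [map_sum, Finset.sum_congr rfl fun i _ => h1 i, ← map_sum, hs, map_zero]
  have hL0 : L = 0 := by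
    have := (linearIndependent_iff.1 hv) L hL
    exact this
  intro i
  have hli : l i = 0 := by
    ext q
    have h1 : L (q, i) = l i q := by
      change (∑ i', Finsupp.mapDomain (fun q => (q, i')) (l i')) (q, i) = l i q
      rw [Finsupp.finset_sum_apply, Finset.sum_eq_single i]
      · exact Finsupp.mapDomain_apply (fun a b h => (Prod.ext_iff.1 h).1) _ _
      · intro i' _ hi'
        apply Finsupp.mapDomain_of_notMem_range
        rintro ⟨q', hq'⟩
        exact hi' (Prod.ext_iff.1 hq').2
      · intro h; exact absurd (Finset.mem_univ _) h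
    rw [← h1, hL0]
    rfl
  have h2 := hl i
  rw [hli, map_zero] at h2
  exact (map_eq_zero (algebraMap F Ω)).1 h2.symm

end KuAux

open KuAux Function in
theorem kummer_indep {k F A : Type} [Field k] [CharZero k] (hk : FGField k) [Field F] [Algebra k F]
    [CommGroup A] (ι : A →* F) (hι : Function.Injective ι) (A0 : Subgroup A) (h0 : A0.FG) (π : Finset ℕ)
    (hπ : ∀ p ∈ π, p.Prime) (ht : ∀ a : A, ∃ n, PiNum π n ∧ a ^ n ∈ A0) :
    ∃ Y1 : Subgroup A, A0 ≤ Y1 ∧ Y1.FG ∧ ∀ Y : Subgroup A, Y1 ≤ Y → ∀ (m : ℕ) (t : Fin m → A),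
      (∀ i j, i ≠ j → (t i)⁻¹ * t j ∉ Y) →
        LinearIndependent (IntermediateField.adjoin k (ι '' (Y : Set A))) (fun i => ι (t i)) := by
  classical
  have hcF : CharZero F := charZero_of_injective_algebraMap (algebraMap k F).injective
  let Ω := AlgebraicClosure F
  have hcΩ : CharZero Ω := charZero_of_injective_algebraMap (algebraMap F Ω).injective
  obtain ⟨T, hT⟩ := h0
  have hroot : ∀ p : ℕ, ∃ ζ : Ω, 0 < p → IsPrimitiveRoot ζ p := by
    intro p
    rcases Nat.eq_zero_or_pos p with h | h
    · exact ⟨0, fun h' => absurd h' (by omega)⟩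
    · have : NeZero p := ⟨h.ne'⟩
      obtain ⟨ζ, hζ⟩ := HasEnoughRootsOfUnity.exists_primitiveRoot Ω p
      exact ⟨ζ, fun _ => hζ⟩
  choose ζ hζ using hroot
  let R : Finset Ω := (T.image fun a => algebraMap F Ω (ι a)) ∪ (π.image ζ) ∪ {ζ 4}
  let K : IntermediateField k Ω := IntermediateField.adjoin k (R : Set Ω)
  have hK : FGField K := fgfield_adjoin hk R
  have hRK : ∀ x ∈ R, x ∈ K := fun x hx => IntermediateField.subset_adjoin k _ hx
  have hG : GoodRoots K π := by
    refine ⟨hπ, fun p hp => ?_, fun _ => ?_⟩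
    · have h1 : ζ p ∈ K := hRK _ (by
        apply Finset.mem_union_left
        apply Finset.mem_union_right
        exact Finset.mem_image_of_mem _ hp)
      refine ⟨⟨ζ p, h1⟩, ?_⟩
      exact IsPrimitiveRoot.of_map_of_injective (f := K.val) (hζ p (hπ p hp).pos)
        K.val.injective
    · have h1 : ζ 4 ∈ K := hRK _ (by
        apply Finset.mem_union_right
        exact Finset.mem_singleton_self _)
      refine ⟨⟨ζ 4, h1⟩, ?_⟩
      exact IsPrimitiveRoot.of_map_of_injective (f := K.val) (hζ 4 (by norm_num))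
        K.val.injective
  let κ : A →* Ω := (algebraMap F Ω : F →* Ω).comp ι
  have hκ : Injective κ := (algebraMap F Ω).injective.comp hι
  have hle0 : A0 ≤ pre κ K := by
    rw [← hT, Subgroup.closure_le]
    intro a ha
    change κ a ∈ K
    apply hRK
    apply Finset.mem_union_left
    apply Finset.mem_union_left
    exact Finset.mem_image_of_mem (fun a => algebraMap F Ω (ι a)) ha
  refine ⟨pre κ K, hle0, ?_, ?_⟩
  · refine pre_fg κ hκ K hK A0 ⟨T, hT⟩ hle0 fun a => ?_
    obtain ⟨n, hn, ha⟩ := ht a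
    exact ⟨n, hn.1, ha⟩
  · intro Y hY m t hd
    open scoped IntermediateField.algebraAdjoinAdjoin in
    rw [← LinearIndependent.iff_fractionRing (Algebra.adjoin k (ι '' (Y : Set A)))
      (IntermediateField.adjoin k (ι '' (Y : Set A)))]
    rw [Fintype.linearIndependent_iff]
    intro g hg i
    have h1 := indep_alg (Ω := Ω) ι K π hG (pre κ K) (fun a => Iff.rfl)
      (fun a => by
        obtain ⟨n, hn, ha⟩ := ht a
        exact ⟨n, hn, hle0 ha⟩) Y hY m t hd (fun i => (g i : F)) (fun i => (g i).2) ?_ i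
    · exact Subtype.ext h1
    · exact hg

open KuAux Function in
theorem kummer_span {k F A : Type} [Field k] [Field F] [Algebra k F] [CommGroup A] (ι : A →* F)
    (hF : IntermediateField.adjoin k (Set.range ι) = ⊤) (Y : Subgroup A)
    (ht : ∀ a : A, ∃ n : ℕ, 0 < n ∧ a ^ n ∈ Y) (f : F) :
    ∃ (m : ℕ) (t : Fin m → A) (c : Fin m → IntermediateField.adjoin k (ι '' (Y : Set A))),
      (∀ i j, i ≠ j → (t i)⁻¹ * t j ∉ Y) ∧ f = ∑ i, (c i : F) * ι (t i) := by
  classical
  let K : IntermediateField k F := IntermediateField.adjoin k (ι '' (Y : Set A))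
  have hYK : ∀ a ∈ Y, ι a ∈ K := fun a ha => IntermediateField.subset_adjoin k _ ⟨a, ha, rfl⟩
  have halg : ∀ x ∈ Set.range ι, IsAlgebraic K x := by
    rintro _ ⟨a, rfl⟩
    obtain ⟨n, hn, ha⟩ := ht a
    refine IsIntegral.isAlgebraic ?_
    refine IsIntegral.of_pow hn ?_
    rw [← map_pow]
    exact isIntegral_algebraMap (R := K) (A := F) (x := ⟨ι (a ^ n), hYK _ ha⟩)
  have h1 : (IntermediateField.adjoin K (Set.range ι)).toSubalgebra
      = Algebra.adjoin K (Set.range ι) := IntermediateField.adjoin_toSubalgebra_of_isAlgebraic halg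
  have h2 : f ∈ IntermediateField.adjoin K (Set.range ι) := by
    have h3 : (IntermediateField.adjoin k (Set.range ι))
        ≤ (IntermediateField.adjoin K (Set.range ι)).restrictScalars k := by
      rw [IntermediateField.adjoin_le_iff]
      exact IntermediateField.subset_adjoin K _
    have h4 : f ∈ IntermediateField.adjoin k (Set.range ι) := by
      rw [hF]
      exact IntermediateField.mem_top
    exact h3 h4
  have h5 : f ∈ Algebra.adjoin K (Set.range ι) := by
    rw [← h1]
    exact h2
  have hcl : (Submonoid.closure (Set.range ι) : Set F) = Set.range ι := by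
    have : (Set.range ι) = ((MonoidHom.mrange ι : Submonoid F) : Set F) := rfl
    rw [this, Submonoid.closure_eq]
  have h6 : f ∈ Submodule.span K (Set.range ι) := by
    have h7 : f ∈ Subalgebra.toSubmodule (Algebra.adjoin K (Set.range ι)) := h5
    rw [Algebra.adjoin_eq_span, hcl] at h7
    exact h7
  let y : A ⧸ Y → A := fun q => Quotient.out q
  have hy : ∀ q q', (y q)⁻¹ * y q' ∈ Y → q = q' := by
    intro q q' h
    have h3 : ((y q : A) : A ⧸ Y) = ((y q' : A) : A ⧸ Y) := QuotientGroup.eq.2 h
    have h4 : ((y q : A) : A ⧸ Y) = q := Quotient.out_eq q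
    have h5 : ((y q' : A) : A ⧸ Y) = q' := Quotient.out_eq q'
    rw [h4, h5] at h3
    exact h3
  have h8 : f ∈ Submodule.span K (Set.range fun q : A ⧸ Y => ι (y q)) := by
    refine (Submodule.span_le.2 ?_) h6
    rintro _ ⟨a, rfl⟩
    let q : A ⧸ Y := (a : A ⧸ Y)
    have h9 : (y q)⁻¹ * a ∈ Y := by
      have h10 : ((y q : A) : A ⧸ Y) = (a : A ⧸ Y) := Quotient.out_eq q
      exact QuotientGroup.eq.1 h10
    have h11 : ι a = (⟨ι ((y q)⁻¹ * a), hYK _ h9⟩ : K) • ι (y q) := by
      rw [Algebra.smul_def]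
      change ι a = ι ((y q)⁻¹ * a) * ι (y q)
      rw [← map_mul, mul_right_comm, inv_mul_cancel, one_mul]
    rw [h11]
    exact Submodule.smul_mem _ _ (Submodule.subset_span ⟨q, rfl⟩)
  rw [Finsupp.mem_span_range_iff_exists_finsupp] at h8
  obtain ⟨l, hl⟩ := h8
  let e := l.support.equivFin
  refine ⟨l.support.card, fun i => y (e.symm i), fun i => l (e.symm i), ?_, ?_⟩
  · intro i j hij h
    exact hij (e.symm.injective (Subtype.ext (hy _ _ h)))
  · rw [← hl, Finsupp.sum, ← Finset.sum_coe_sort]
    rw [← Equiv.sum_comp e.symm]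
    refine Finset.sum_congr rfl fun i _ => ?_
    rw [Algebra.smul_def]
    rfl

end Pool.Agent.Lib.PRI
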