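import Pool.Agent.Lib.PRI.Defs

/-!
# PRI.Lau: Hilbert's basis theorem for skew Laurent extensions (1.5 h)
`IsNoetherianRing` is the ascending chain condition on LEFT ideals. `S` is any ring (not commutative).
PROOF. Every element of `R' = closure (R ∪ {t, u})` is `u ^ m * f` with `f ∈ P`, `P = {∑_{i ≤ n} r_i t^i | r_i ∈ R}` (`P` is closed under products because `t r = (t r u) t` and `t r u ∈ R`; `u ^ m P` increase with `m`: `u^m f = u^(m+1) (t f)`, and `P u ^ m ⊆ u ^ m P`: `r_i t^i u^m = u^m (t^m r_i u^m) t^i`). Let `J` be a left ideal of `R'`. For `n : ℕ` let `P_n` be the sums of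
degree `< n` and `L_n = {r ∈ R | ∃ g ∈ P_n, r t^n + g ∈ J}`, a left ideal of `R`. If `r ∈ L_n` then `t r u ∈ L_{n+1}` (multiply by `t`). Let `σ r = t r u`, an automorphism of `R` with inverse `u r t`; the left ideals `σ^{-n}(L_n)` increase, so they are constant for `n ≥ N`. Choose finite sets of generators of `L_0, …, L_N` and for each generator `r` of `L_j` an
element `g_r ∈ J` of the form `r t^j + (degree < j)`. Claim: these `g_r` generate `J` (as a left ideal of `R'`). By the first remark it is enough that every `f ∈ J ∩ P` is in the left ideal generated by them; induction on the degree bound: `f = r t^n + (degree < n)`, `r ∈ L_n`. If `n ≤ N`, `r = ∑ s_l r_l`, subtract `∑ s_l g_{r_l}`. If `n > N`, `L_n = σ^{n-N}(L_N)`,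
`r = ∑ s_l σ^{n-N}(r_l)`, subtract `∑ s_l t^{n-N} g_{r_l}` (`t^{n-N} r_l t^N = σ^{n-N}(r_l) t^n`). The difference is in `J`, of degree `< n`. The empty sum (degree `< 0`) is `0`. (Representations as sums need not be unique; this does not matter.)
-/

set_option autoImplicit false

namespace Pool.Agent.Lib.PRI

namespace LauAux

variable {S : Type} [Ring S] (R : Subring S) (t u : S)

/-- sums of degree `< n` -/
def P (n : ℕ) : Submodule R S := Submodule.span R ((fun i : ℕ => t ^ i) '' Set.Iio n)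

theorem P_succ {n : ℕ} {x : S} :
    x ∈ P R t (n + 1) ↔ ∃ r : R, ∃ g ∈ P R t n, x = (r : S) * t ^ n + g := by
  have h1 : Set.Iio (n + 1) = insert n (Set.Iio n) := by
    ext i
    simp only [Set.mem_Iio, Set.mem_insert_iff]
    omega
  unfold P
  rw [h1, Set.image_insert_eq, Submodule.mem_span_insert]
  constructor
  · rintro ⟨r, g, hg, rfl⟩
    exact ⟨r, g, hg, rfl⟩
  · rintro ⟨r, g, hg, rfl⟩
    exact ⟨r, g, hg, rfl⟩

theorem P_zero {x : S} : x ∈ P R t 0 ↔ x = 0 := by
  unfold P
  have h1 : (Set.Iio 0 : Set ℕ) = ∅ := by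
    ext i
    simp
  rw [h1, Set.image_empty, Submodule.span_empty, Submodule.mem_bot]

theorem P_mono {m n : ℕ} (h : m ≤ n) : P R t m ≤ P R t n :=
  Submodule.span_mono (Set.image_mono (Set.Iio_subset_Iio h))

theorem P_one : (1 : S) ∈ P R t 1 := by
  rw [P_succ]
  exact ⟨1, 0, Submodule.zero_mem _, by simp⟩

theorem P_R (r : R) : (r : S) ∈ P R t 1 := by
  rw [P_succ]
  exact ⟨r, 0, Submodule.zero_mem _, by simp⟩

theorem mulR {n : ℕ} {x : S} (hx : x ∈ P R t n) {a : S} (ha : a ∈ R) : a * x ∈ P R t n :=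
  Submodule.smul_mem _ (⟨a, ha⟩ : R) hx

variable {R t u}

section
variable (htu : t * u = 1) (hut : u * t = 1) (hR : ∀ r ∈ R, t * r * u ∈ R ∧ u * r * t ∈ R)

include htu in
theorem tu_pow (n : ℕ) : t ^ n * u ^ n = 1 := by
  induction n with
  | zero => simp
  | succ n ih =>
    rw [pow_succ t, pow_succ' u]
    calc t ^ n * t * (u * u ^ n) = t ^ n * (t * u) * u ^ n := by noncomm_ring
      _ = 1 := by rw [htu, mul_one, ih]

include hR in
theorem conj_t (n : ℕ) {r : S} (hr : r ∈ R) : t ^ n * r * u ^ n ∈ R := by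
  induction n with
  | zero => simpa using hr
  | succ n ih =>
    have h1 := (hR _ ih).1
    have h2 : t ^ (n + 1) * r * u ^ (n + 1) = t * (t ^ n * r * u ^ n) * u := by
      rw [pow_succ' t, pow_succ u]
      noncomm_ring
    rw [h2]
    exact h1

include hR in
theorem conj_u (n : ℕ) {r : S} (hr : r ∈ R) : u ^ n * r * t ^ n ∈ R := by
  induction n with
  | zero => simpa using hr
  | succ n ih =>
    have h1 := (hR _ ih).2
    have h2 : u ^ (n + 1) * r * t ^ (n + 1) = u * (u ^ n * r * t ^ n) * t := by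
      rw [pow_succ' u, pow_succ t]
      noncomm_ring
    rw [h2]
    exact h1

include hut hR in
theorem mul_t {n : ℕ} : ∀ {x : S}, x ∈ P R t n → t * x ∈ P R t (n + 1) := by
  induction n with
  | zero =>
    intro x hx
    rw [P_zero] at hx
    rw [hx, mul_zero]
    exact Submodule.zero_mem _
  | succ n ih =>
    intro x hx
    rw [P_succ] at hx
    obtain ⟨r, g, hg, rfl⟩ := hx
    rw [P_succ]
    refine ⟨⟨t * r * u, (hR _ r.2).1⟩, t * g, ih hg, ?_⟩
    change t * ((r : S) * t ^ n + g) = t * r * u * t ^ (n + 1) + t * g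
    rw [pow_succ' t, mul_add]
    congr 1
    calc t * ((r : S) * t ^ n) = t * r * (1 : S) * t ^ n := by noncomm_ring
      _ = t * r * (u * t) * t ^ n := by rw [hut]
      _ = t * r * u * (t * t ^ n) := by noncomm_ring

include hut hR in
theorem mul_tpow {n : ℕ} (m : ℕ) {x : S} (hx : x ∈ P R t n) : t ^ m * x ∈ P R t (n + m) := by
  induction m with
  | zero => simpa using hx
  | succ m ih =>
    rw [pow_succ' t, mul_assoc]
    exact mul_t hut hR ih

include hut hR in
theorem mul_P {n k m : ℕ} {w : S} (hw : t ^ m * w ∈ P R t k) :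
    ∀ {z : S}, z ∈ P R t n → t ^ m * (z * w) ∈ P R t (k + n) := by
  have hut2 : ∀ m : ℕ, u ^ m * t ^ m = 1 := tu_pow hut
  induction n with
  | zero =>
    intro z hz
    rw [P_zero] at hz
    rw [hz, zero_mul, mul_zero]
    exact Submodule.zero_mem _
  | succ n ih =>
    intro z hz
    rw [P_succ] at hz
    obtain ⟨r, g, hg, rfl⟩ := hz
    have h1 : t ^ m * (((r : S) * t ^ n + g) * w) =
        (t ^ m * r * u ^ m) * (t ^ n * (t ^ m * w)) + t ^ m * (g * w) := by
      have h2 : (t ^ m * (r : S) * u ^ m) * (t ^ n * (t ^ m * w)) =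
          t ^ m * r * (u ^ m * t ^ m) * t ^ n * w := by
        have h3 : t ^ n * (t ^ m * w) = t ^ m * (t ^ n * w) := by
          rw [← mul_assoc, ← mul_assoc, ← pow_add, ← pow_add, add_comm]
        rw [h3]
        noncomm_ring
      rw [h2, hut2]
      noncomm_ring
    rw [h1]
    refine Submodule.add_mem _ ?_ ?_
    · exact P_mono R t (by omega) (mulR R t (mul_tpow hut hR n hw) (conj_t hR m r.2))
    · exact P_mono R t (by omega) (ih hg)

include htu hut hR in
theorem mem_cl {x : S} (hx : x ∈ Subring.closure ((R : Set S) ∪ {t, u})) :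
    ∃ m n, t ^ m * x ∈ P R t n := by
  induction hx using Subring.closure_induction with
  | mem x hx =>
    rcases hx with hx | hx
    · exact ⟨0, 1, by simpa using P_R R t ⟨x, hx⟩⟩
    · rcases hx with rfl | hx
      · refine ⟨0, 2, ?_⟩
        rw [pow_zero, one_mul]
        have := mul_t hut hR (P_one R x)
        rwa [mul_one] at this
      · rw [Set.mem_singleton_iff] at hx
        subst hx
        refine ⟨1, 1, ?_⟩
        rw [pow_one, htu]
        exact P_one R t
  | zero => exact ⟨0, 0, by simp⟩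
  | one => exact ⟨0, 1, by simpa using P_one R t⟩
  | add x y _ _ hx hy =>
    obtain ⟨m, n, h1⟩ := hx
    obtain ⟨m', n', h2⟩ := hy
    refine ⟨m + m', n + m' + (n' + m), ?_⟩
    rw [mul_add]
    refine Submodule.add_mem _ ?_ ?_
    · have := mul_tpow hut hR m' h1
      rw [← mul_assoc, ← pow_add, add_comm m' m] at this
      exact P_mono R t (by omega) this
    · have := mul_tpow hut hR m h2
      rw [← mul_assoc, ← pow_add] at this
      exact P_mono R t (by omega) this
  | neg x _ hx =>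
    obtain ⟨m, n, h1⟩ := hx
    exact ⟨m, n, by rw [mul_neg]; exact Submodule.neg_mem _ h1⟩
  | mul x y _ _ hx hy =>
    obtain ⟨m, n, h1⟩ := hx
    obtain ⟨m', n', h2⟩ := hy
    refine ⟨m' + m, n' + n, ?_⟩
    have := mul_P hut hR h2 h1
    rw [pow_add]
    have h3 : t ^ m' * t ^ m * (x * y) = t ^ m' * (t ^ m * x * y) := by noncomm_ring
    rw [h3]
    exact this

end

/-- the left ideal `J` of the closure as a set of elements of `S` -/
def memJ (J : Submodule (Subring.closure ((R : Set S) ∪ {t, u}))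
    (Subring.closure ((R : Set S) ∪ {t, u}))) (x : S) : Prop :=
  ∃ h : x ∈ Subring.closure ((R : Set S) ∪ {t, u}),
    (⟨x, h⟩ : Subring.closure ((R : Set S) ∪ {t, u})) ∈ J

variable {J K : Submodule (Subring.closure ((R : Set S) ∪ {t, u}))
    (Subring.closure ((R : Set S) ∪ {t, u}))}

theorem cl_R {x : S} (hx : x ∈ R) : x ∈ Subring.closure ((R : Set S) ∪ {t, u}) :=
  Subring.subset_closure (Or.inl hx)

theorem cl_t : t ∈ Subring.closure ((R : Set S) ∪ {t, u}) :=
  Subring.subset_closure (Or.inr (Or.inl rfl))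

theorem cl_u : u ∈ Subring.closure ((R : Set S) ∪ {t, u}) :=
  Subring.subset_closure (Or.inr (Or.inr rfl))

theorem memJ_zero : memJ J (0 : S) := ⟨Subring.zero_mem _, J.zero_mem⟩

theorem memJ_add {x y : S} (hx : memJ J x) (hy : memJ J y) : memJ J (x + y) := by
  obtain ⟨h1, h2⟩ := hx
  obtain ⟨h3, h4⟩ := hy
  exact ⟨Subring.add_mem _ h1 h3, J.add_mem h2 h4⟩

theorem memJ_sub {x y : S} (hx : memJ J x) (hy : memJ J y) : memJ J (x - y) := by
  obtain ⟨h1, h2⟩ := hx
  obtain ⟨h3, h4⟩ := hy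
  exact ⟨Subring.sub_mem _ h1 h3, J.sub_mem h2 h4⟩

theorem memJ_mul {a x : S} (ha : a ∈ Subring.closure ((R : Set S) ∪ {t, u})) (hx : memJ J x) :
    memJ J (a * x) := by
  obtain ⟨h1, h2⟩ := hx
  exact ⟨Subring.mul_mem _ ha h1,
    J.smul_mem (⟨a, ha⟩ : Subring.closure ((R : Set S) ∪ {t, u})) h2⟩

section
variable (htu : t * u = 1) (hut : u * t = 1) (hR : ∀ r ∈ R, t * r * u ∈ R ∧ u * r * t ∈ R)

/-- the leading coefficients of degree `n` -/
def M (hut : u * t = 1) (hR : ∀ r ∈ R, t * r * u ∈ R ∧ u * r * t ∈ R)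
    (J : Submodule (Subring.closure ((R : Set S) ∪ {t, u}))
    (Subring.closure ((R : Set S) ∪ {t, u}))) (n : ℕ) : Submodule R R where
  carrier := {r | ∃ g ∈ P R t n, memJ J (t ^ n * (r : S) + g)}
  zero_mem' := ⟨0, Submodule.zero_mem _, by simpa using memJ_zero⟩
  add_mem' := by
    rintro a b ⟨g, hg, h1⟩ ⟨g', hg', h2⟩
    refine ⟨g + g', Submodule.add_mem _ hg hg', ?_⟩
    have h3 := memJ_add h1 h2
    have h4 : t ^ n * ((a + b : R) : S) + (g + g') =
        t ^ n * (a : S) + g + (t ^ n * (b : S) + g') := by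
      rw [Subring.coe_add]
      noncomm_ring
    rw [h4]
    exact h3
  smul_mem' := by
    rintro s r ⟨g, hg, h1⟩
    have hs := conj_t hR n s.2
    refine ⟨(t ^ n * (s : S) * u ^ n) * g, mulR R t hg hs, ?_⟩
    have h2 := memJ_mul (cl_R hs) h1
    have h3 : t ^ n * ((s • r : R) : S) + t ^ n * (s : S) * u ^ n * g =
        t ^ n * (s : S) * u ^ n * (t ^ n * (r : S) + g) := by
      have h4 : ((s • r : R) : S) = (s : S) * r := rfl
      rw [h4]
      have h5 : t ^ n * (s : S) * u ^ n * (t ^ n * (r : S) + g) =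
          t ^ n * s * (u ^ n * t ^ n) * r + t ^ n * (s : S) * u ^ n * g := by noncomm_ring
      rw [h5, tu_pow hut n]
      noncomm_ring
    rw [h3]
    exact h2

theorem mem_M {n : ℕ} {r : R} :
    r ∈ M hut hR J n ↔ ∃ g ∈ P R t n, memJ J (t ^ n * (r : S) + g) := Iff.rfl

theorem M_mono_J (h : K ≤ J) (n : ℕ) : M hut hR K n ≤ M hut hR J n := by
  rintro r ⟨g, hg, h1, h2⟩
  exact ⟨g, hg, h1, h h2⟩

theorem M_succ (n : ℕ) : M hut hR J n ≤ M hut hR J (n + 1) := by
  rintro r ⟨g, hg, h1⟩
  refine ⟨t * g, mul_t hut hR hg, ?_⟩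
  have h2 := memJ_mul cl_t h1
  have h3 : t ^ (n + 1) * (r : S) + t * g = t * (t ^ n * (r : S) + g) := by
    rw [pow_succ' t]
    noncomm_ring
  rw [h3]
  exact h2

theorem M_mono {m n : ℕ} (h : m ≤ n) : M hut hR J m ≤ M hut hR J n :=
  monotone_nat_of_le_succ (f := M hut hR J) (M_succ hut hR) h

include htu in
theorem compare (h : K ≤ J) (hM : ∀ n, M hut hR J n ≤ M hut hR K n) : J ≤ K := by
  have h1 : ∀ n, ∀ f ∈ P R t n, memJ J f → memJ K f := by
    intro n
    induction n with
    | zero =>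
      intro f hf _
      rw [P_zero] at hf
      rw [hf]
      exact memJ_zero
    | succ n ih =>
      intro f hf hJ
      rw [P_succ] at hf
      obtain ⟨r, g, hg, rfl⟩ := hf
      have h2 : (r : S) * t ^ n = t ^ n * (u ^ n * r * t ^ n) := by
        have h3 : t ^ n * (u ^ n * (r : S) * t ^ n) = (t ^ n * u ^ n) * r * t ^ n := by
          noncomm_ring
        rw [h3, tu_pow htu n, one_mul]
      rw [h2] at hJ ⊢
      have h4 : (⟨u ^ n * r * t ^ n, conj_u hR n r.2⟩ : R) ∈ M hut hR J n := ⟨g, hg, hJ⟩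
      obtain ⟨g', hg', h5⟩ := hM n h4
      have h6 : memJ J (t ^ n * (u ^ n * (r : S) * t ^ n) + g') := by
        obtain ⟨h7, h8⟩ := h5
        exact ⟨h7, h h8⟩
      have h9 := memJ_sub hJ h6
      have h10 : t ^ n * (u ^ n * (r : S) * t ^ n) + g -
          (t ^ n * (u ^ n * (r : S) * t ^ n) + g') = g - g' := by noncomm_ring
      rw [h10] at h9
      have h11 := ih _ (Submodule.sub_mem _ hg hg') h9
      have h12 := memJ_add h5 h11
      have h13 : t ^ n * (u ^ n * (r : S) * t ^ n) + g' + (g - g') =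
          t ^ n * (u ^ n * (r : S) * t ^ n) + g := by noncomm_ring
      have h14 : memJ K (t ^ n * (u ^ n * (r : S) * t ^ n) + g' + (g - g')) := h12
      rw [h13] at h14
      exact h14
  intro x hx
  obtain ⟨m, n, h2⟩ := mem_cl htu hut hR x.2
  have hx' : memJ J (x : S) := ⟨x.2, hx⟩
  have ht : t ^ m ∈ Subring.closure ((R : Set S) ∪ {t, u}) := Subring.pow_mem _ cl_t m
  have hu : u ^ m ∈ Subring.closure ((R : Set S) ∪ {t, u}) := Subring.pow_mem _ cl_u m
  have h3 := h1 n _ h2 (memJ_mul ht hx')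
  have h4 := memJ_mul hu h3
  rw [← mul_assoc, tu_pow hut m, one_mul] at h4
  obtain ⟨h5, h6⟩ := h4
  exact h6

end

end LauAux

open LauAux in
theorem laurent_noeth {S : Type} [Ring S] (R : Subring S) (t u : S) (htu : t * u = 1) (hut : u * t = 1)
    (hR : ∀ r ∈ R, t * r * u ∈ R ∧ u * r * t ∈ R) (hN : IsNoetherianRing R) :
    IsNoetherianRing (Subring.closure ((R : Set S) ∪ {t, u})) := by
  have hN' : IsNoetherian R R := hN
  refine (isNoetherian_def).2 fun J => ?_
  -- the chain becomes stable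
  obtain ⟨N, hNs⟩ := monotone_stabilizes_iff_noetherian.2 hN'
    ⟨M hut hR J, fun m n h => M_mono hut hR h⟩
  -- generators
  have hfg : ∀ n, ∃ s : Finset R, Submodule.span R (s : Set R) = M hut hR J n := fun n =>
    (isNoetherian_def.1 hN') (M hut hR J n)
  choose G hG using hfg
  have hel : ∀ n, ∀ r : R, ∃ x : Subring.closure ((R : Set S) ∪ {t, u}), r ∈ M hut hR J n →
      x ∈ J ∧ ∃ g ∈ P R t n, (x : S) = t ^ n * (r : S) + g := by
    intro n r
    by_cases hr : r ∈ M hut hR J n
    · obtain ⟨g, hg, h1, h2⟩ := hr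
      exact ⟨⟨_, h1⟩, fun _ => ⟨h2, g, hg, rfl⟩⟩
    · exact ⟨0, fun h => absurd h hr⟩
  choose e he using hel
  classical
  let E : Finset (Subring.closure ((R : Set S) ∪ {t, u})) :=
    (Finset.range (N + 1)).biUnion fun n => (G n).image (e n)
  have hEJ : Submodule.span (Subring.closure ((R : Set S) ∪ {t, u}))
      (E : Set (Subring.closure ((R : Set S) ∪ {t, u}))) ≤ J := by
    rw [Submodule.span_le]
    intro x hx
    simp only [E, Finset.coe_biUnion, Finset.coe_image, Set.mem_iUnion, Set.mem_image] at hx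
    obtain ⟨n, -, r, hr, rfl⟩ := hx
    exact (he n r (by rw [← hG n]; exact Submodule.subset_span hr)).1
  refine ⟨E, le_antisymm hEJ (compare htu hut hR hEJ ?_)⟩
  set K := Submodule.span (Subring.closure ((R : Set S) ∪ {t, u}))
      (E : Set (Subring.closure ((R : Set S) ∪ {t, u}))) with hK
  have h1 : ∀ n ≤ N, M hut hR J n ≤ M hut hR K n := by
    intro n hn
    rw [← hG n, Submodule.span_le]
    intro r hr
    have hrJ : r ∈ M hut hR J n := by
      rw [← hG n]
      exact Submodule.subset_span hr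
    obtain ⟨-, g, hg, h2⟩ := he n r hrJ
    refine ⟨g, hg, ?_⟩
    rw [← h2]
    refine ⟨(e n r).2, ?_⟩
    change e n r ∈ K
    refine Submodule.subset_span ?_
    simp only [E, Finset.coe_biUnion, Finset.coe_image, Set.mem_iUnion, Set.mem_image]
    exact ⟨n, by simpa using Nat.lt_succ_of_le hn, r, hr, rfl⟩
  intro n
  rcases le_total n N with hn | hn
  · exact h1 n hn
  · have h2 : M hut hR J N = M hut hR J n := hNs n hn
    rw [← h2]
    exact (h1 N le_rfl).trans (M_mono hut hR hn)

end Pool.Agent.Lib.PRI
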