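import Pool.Agent.Lib.PRI.Defs
import Pool.Agent.Lib.Pf720nn.GNoeth

/-!
# PRI.Nn: finitely generated subgroups of nilpotent groups (1.2 h)
PROOF. `Pool.Agent.Lib.Pf720nn.subgroup_fg`: all subgroups of a finitely generated nilpotent group are finitely generated. `exists_fg_normal`: `H` is generated by lifts of generators of `G / A`. For `Y0`: `X = H ⊔ Y0` is finitely generated and nilpotent (a subgroup of a nilpotent group), `Y = X ⊓ A` is finitely generated (apply `subgroup_fg` to the group `X`), normalised by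
`H` (`H ≤ X`, `A` normal) and centralised by `A` (`A` commutative, `Y ≤ A`), so normal in `G = H ⊔ A`. `exists_series`: if `K < ⊤` is a subgroup then by the normalizer condition (`Group.normalizerCondition_of_isNilpotent`) there is `t ∉ K` that normalises `K`; replace `K` by `K ⊔ zpowers t`. Start with `⊥`; the chain reaches `⊤` after finitely many
steps, because all subgroups are finitely generated, so there is no infinite strictly increasing sequence (well-founded induction on `>`; `c` is constant `⊤` after the last step).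
-/

set_option autoImplicit false

namespace Pool.Agent.Lib.PRI

namespace NnAux

theorem fg_of_le_fg {G : Type} [Group G] [Group.IsNilpotent G] (X Y : Subgroup G) (hX : X.FG)
    (hYX : Y ≤ X) : Y.FG := by
  have h1 : Group.FG X := (Group.fg_iff_subgroup_fg X).2 hX
  have h2 : (Y.subgroupOf X).FG := Pool.Agent.Lib.Pf720nn.subgroup_fg X h1 (Y.subgroupOf X)
  obtain ⟨S, hS, hSf⟩ := (Subgroup.fg_iff _).1 h2
  rw [Subgroup.fg_iff]
  refine ⟨X.subtype '' S, ?_, hSf.image _⟩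
  rw [← MonoidHom.map_closure, hS, Subgroup.map_subgroupOf_eq_of_le hYX]

theorem fg_sup {G : Type} [Group G] (X Y : Subgroup G) (hX : X.FG) (hY : Y.FG) : (X ⊔ Y).FG := by
  obtain ⟨S, hS, hSf⟩ := (Subgroup.fg_iff _).1 hX
  obtain ⟨T, hT, hTf⟩ := (Subgroup.fg_iff _).1 hY
  rw [Subgroup.fg_iff]
  refine ⟨S ∪ T, ?_, hSf.union hTf⟩
  rw [Subgroup.closure_union, hS, hT]

theorem wf {H : Type} [Group H] (hH : ∀ K : Subgroup H, K.FG) :
    WellFounded ((· > ·) : Subgroup H → Subgroup H → Prop) := by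
  rw [RelEmbedding.wellFounded_iff_isEmpty]
  refine ⟨fun f => ?_⟩
  have hmono : StrictMono (fun n => f n) := by
    refine strictMono_nat_of_lt_succ fun n => ?_
    have := f.map_rel_iff.2 (show (n + 1 : ℕ) > n from Nat.lt_succ_self n)
    exact this
  have hdir : Directed (· ≤ ·) (fun n => f n) := hmono.monotone.directed_le
  obtain ⟨S, hS, hSf⟩ := (Subgroup.fg_iff _).1 (hH (⨆ n, f n))
  have h1 : ∀ s ∈ S, ∃ n, s ∈ f n := by
    intro s hs
    have h2 : s ∈ ⨆ n, f n := by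
      rw [← hS]; exact Subgroup.subset_closure hs
    exact (Subgroup.mem_iSup_of_directed hdir).1 h2
  choose! N hN using h1
  obtain ⟨M, hM⟩ := (hSf.image N).bddAbove
  have h3 : (⨆ n, f n) ≤ f M := by
    rw [← hS, Subgroup.closure_le]
    intro s hs
    exact hmono.monotone (hM (Set.mem_image_of_mem N hs)) (hN s hs)
  have h4 : f (M + 1) ≤ f M := (le_iSup (fun n => f n) (M + 1)).trans h3
  exact absurd (hmono (Nat.lt_succ_self M)) (not_lt_of_ge h4)

/-- there is a series from `⊥` to `K` -/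
def P {H : Type} [Group H] (K : Subgroup H) : Prop :=
  ∃ (n : ℕ) (c : ℕ → Subgroup H) (t : ℕ → H), c 0 = ⊥ ∧ c n = K ∧ ∀ i < n,
    c (i + 1) = c i ⊔ Subgroup.zpowers (t i) ∧
      ∀ h ∈ c i, t i * h * (t i)⁻¹ ∈ c i ∧ (t i)⁻¹ * h * t i ∈ c i

theorem P_bot {H : Type} [Group H] : P (⊥ : Subgroup H) :=
  ⟨0, fun _ => ⊥, fun _ => 1, rfl, rfl, fun i hi => absurd hi (Nat.not_lt_zero i)⟩

theorem P_step {H : Type} [Group H] (K : Subgroup H) (hK : P K) (x : H)
    (hx : ∀ h ∈ K, x * h * x⁻¹ ∈ K ∧ x⁻¹ * h * x ∈ K) : P (K ⊔ Subgroup.zpowers x) := by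
  obtain ⟨n, c, t, h0, hn, hc⟩ := hK
  refine ⟨n + 1, fun i => if i ≤ n then c i else K ⊔ Subgroup.zpowers x,
    fun i => if i < n then t i else x, ?_, ?_, ?_⟩
  · simp [h0]
  · simp
  · intro i hi
    by_cases h : i < n
    · have h1 : i + 1 ≤ n := h
      have h2 : i ≤ n := h.le
      simp only [h, h1, h2, if_true]
      exact hc i h
    · have h1 : i = n := le_antisymm (Nat.lt_succ_iff.1 hi) (not_lt.1 h)
      subst h1
      have h2 : ¬ (i + 1 ≤ i) := by omega
      simp only [h2, le_refl, lt_irrefl, if_true, if_false]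
      rw [hn]
      exact ⟨rfl, hx⟩

end NnAux

theorem exists_fg_normal {G : Type} [Group G] [Group.IsNilpotent G] (A : Subgroup G) [A.Normal]
    (hA : ∀ a ∈ A, ∀ b ∈ A, a * b = b * a) (hGA : Group.FG (G ⧸ A)) :
    ∃ H : Subgroup G, H.FG ∧ H ⊔ A = ⊤ ∧ ∀ Y0 : Subgroup G, Y0 ≤ A → Y0.FG →
      ∃ Y : Subgroup G, Y0 ≤ Y ∧ Y ≤ A ∧ Y.FG ∧ Y.Normal ∧ H ⊓ A ≤ Y := by
  obtain ⟨S, hS, hSf⟩ := Group.fg_iff.1 hGA
  have hmap : (Subgroup.closure (Quotient.out '' S : Set G)).map (QuotientGroup.mk' A) = ⊤ := by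
    rw [MonoidHom.map_closure, ← hS]
    congr 1
    ext x
    constructor
    · rintro ⟨y, ⟨z, hz, rfl⟩, rfl⟩
      have : (QuotientGroup.mk' A) (Quotient.out z) = z := Quotient.out_eq' z
      rw [this]; exact hz
    · intro hx
      exact ⟨Quotient.out x, ⟨x, hx, rfl⟩, Quotient.out_eq' x⟩
  have hHf : (Subgroup.closure (Quotient.out '' S : Set G)).FG := by
    rw [Subgroup.fg_iff]
    exact ⟨_, rfl, hSf.image _⟩
  generalize Subgroup.closure (Quotient.out '' S : Set G) = H at hmap hHf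
  have htop : H ⊔ A = ⊤ := by
    have h1 := Subgroup.comap_map_eq (QuotientGroup.mk' A) H
    rw [hmap, Subgroup.comap_top, QuotientGroup.ker_mk'] at h1
    exact h1.symm
  refine ⟨H, hHf, htop, ?_⟩
  intro Y0 hY0 hY0f
  refine ⟨(H ⊔ Y0) ⊓ A, le_inf le_sup_right hY0, inf_le_right, ?_, ?_, ?_⟩
  · exact NnAux.fg_of_le_fg (H ⊔ Y0) _ (NnAux.fg_sup H Y0 hHf hY0f) inf_le_left
  · refine ⟨fun y hy g => ?_⟩
    have hg : g ∈ ((H ⊔ A : Subgroup G) : Set G) := by rw [htop]; trivial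
    rw [Subgroup.mul_normal] at hg
    obtain ⟨h, hh, a, ha, rfl⟩ := hg
    have h1 : h * a * y * (h * a)⁻¹ = h * y * h⁻¹ := by
      have h2 : a * y = y * a := hA a ha y hy.2
      calc h * a * y * (h * a)⁻¹ = h * (a * y) * a⁻¹ * h⁻¹ := by group
        _ = h * (y * a) * a⁻¹ * h⁻¹ := by rw [h2]
        _ = h * y * h⁻¹ := by group
    show h * a * y * (h * a)⁻¹ ∈ _
    rw [h1]
    have hh' : h ∈ H ⊔ Y0 := (le_sup_left : H ≤ H ⊔ Y0) hh
    exact Subgroup.mem_inf.2 ⟨mul_mem (mul_mem hh' (Subgroup.mem_inf.1 hy).1) (inv_mem hh'),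
      (inferInstance : A.Normal).conj_mem y (Subgroup.mem_inf.1 hy).2 h⟩
  · exact inf_le_inf_right A le_sup_left

theorem exists_series {H : Type} [Group H] [Group.IsNilpotent H] (hH : Group.FG H) :
    ∃ (n : ℕ) (c : ℕ → Subgroup H) (t : ℕ → H), c 0 = ⊥ ∧ c n = ⊤ ∧ ∀ i < n,
      c (i + 1) = c i ⊔ Subgroup.zpowers (t i) ∧
        ∀ h ∈ c i, t i * h * (t i)⁻¹ ∈ c i ∧ (t i)⁻¹ * h * t i ∈ c i := by
  have hwf := NnAux.wf (fun K => Pool.Agent.Lib.Pf720nn.subgroup_fg H hH K)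
  obtain ⟨M, hM, hmin⟩ := hwf.has_min {K : Subgroup H | NnAux.P K} ⟨⊥, NnAux.P_bot⟩
  by_cases hMt : M = ⊤
  · subst hMt
    exact hM
  · exfalso
    have h1 := Group.normalizerCondition_of_isNilpotent (G := H) M (lt_top_iff_ne_top.2 hMt)
    obtain ⟨x, hx, hxM⟩ := SetLike.exists_of_lt h1
    refine hmin (M ⊔ Subgroup.zpowers x) (NnAux.P_step M hM x ?_) ?_
    · intro h hh
      exact ⟨(Subgroup.mem_normalizer_iff.1 hx h).1 hh, (Subgroup.mem_normalizer_iff''.1 hx h).1 hh⟩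
    · refine lt_of_le_of_ne le_sup_left fun h => hxM ?_
      rw [h]
      exact (le_sup_right : _ ≤ M ⊔ Subgroup.zpowers x) (Subgroup.mem_zpowers x)

end Pool.Agent.Lib.PRI
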