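import Pool.Agent.Lib.PRI.Lau

/-!
# PRI.SkN: the skew group ring of a polycyclic group over a field is Noetherian (1.3 h)
PROOF. `S = SkewMonoidAlgebra F H`, `R_i` = the subring of the elements with support in `c i` (closed under products: `SkewMonoidAlgebra.support_mul`, or define it as the closure of `{single h f | h ∈ c i}`). `R_0` is a copy of `F` (`single 1 f`; `SkewMonoidAlgebra.singleOneRingHom`, surjective onto `R_0`), so Noetherian (`isNoetherianRing_of_surjective`). With `t = single (t i) 1`,
`u = single (t i)⁻¹ 1`: `t * single h f * u = single (t h t⁻¹) (t • f)`, so `R_i` is normalised, and `R_{i+1}` is the closure of `R_i ∪ {t, u}`: `⊇` clear; `⊆`: every element of `c (i+1)` is `h (t i) ^ z`, `h ∈ c i`, `z : ℤ` (as `t i` normalises `c i`), and `single (h t^z) f = single h f * (single t 1) ^ z`. By `laurent_noeth` and induction `R_n` is Noetherian, and `R_n = ⊤`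
(`Subring.topEquiv`, `isNoetherianRing_of_ringEquiv`).
-/

set_option autoImplicit false

namespace Pool.Agent.Lib.PRI

namespace SkNAux

open SkewMonoidAlgebra

variable {F H : Type} [Field F] [Group H] [MulSemiringAction H F]

/-- the subring generated by the elements with support in `K` -/
noncomputable def RR (F : Type) {H : Type} [Field F] [Group H] [MulSemiringAction H F] (K : Subgroup H) :
    Subring (SkewMonoidAlgebra F H) :=
  Subring.closure {x | ∃ h ∈ K, ∃ f : F, x = single h f}

theorem single_mem {K : Subgroup H} {h : H} (hh : h ∈ K) (f : F) : single h f ∈ RR F K :=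
  Subring.subset_closure ⟨h, hh, f, rfl⟩

theorem RR_mono {K L : Subgroup H} (h : K ≤ L) : RR F K ≤ RR F L :=
  Subring.closure_mono (by rintro x ⟨k, hk, f, rfl⟩; exact ⟨k, h hk, f, rfl⟩)

theorem RR_bot : IsNoetherianRing (RR F (⊥ : Subgroup H)) := by
  have h1 : RR F (⊥ : Subgroup H) = (singleOneRingHom (k := F) (G := H)).range := by
    apply le_antisymm
    · refine Subring.closure_le.2 ?_
      rintro x ⟨k, hk, f, rfl⟩
      rw [Subgroup.mem_bot] at hk
      subst hk
      exact ⟨f, rfl⟩
    · rintro x ⟨f, rfl⟩
      exact single_mem (Subgroup.one_mem _) f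
  rw [h1]
  exact isNoetherianRing_range _

theorem RR_top : RR F (⊤ : Subgroup H) = ⊤ := by
  rw [eq_top_iff]
  rintro x -
  induction x using SkewMonoidAlgebra.induction_on with
  | zero => exact Subring.zero_mem _
  | single g a => exact single_mem (Subgroup.mem_top _) a
  | add f g hf hg => exact Subring.add_mem _ hf hg

theorem single_eq (h : H) (f : F) : single h f = single 1 f * single h (1 : F) := by
  rw [single_mul_single]
  simp

theorem sup_eq (K : Subgroup H) (t : H) :
    RR F (K ⊔ Subgroup.zpowers t) =
      Subring.closure ((RR F K : Set (SkewMonoidAlgebra F H)) ∪ {single t 1, single t⁻¹ 1}) := by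
  apply le_antisymm
  · refine Subring.closure_le.2 ?_
    rintro x ⟨h, hh, f, rfl⟩
    set C := Subring.closure
      ((RR F K : Set (SkewMonoidAlgebra F H)) ∪ {single t 1, single t⁻¹ 1}) with hC
    have hRC : RR F K ≤ C := fun y hy => Subring.subset_closure (Or.inl hy)
    let Q : Subgroup H :=
      { carrier := {h | single h (1 : F) ∈ C ∧ single h⁻¹ (1 : F) ∈ C}
        one_mem' := ⟨hRC (single_mem (Subgroup.one_mem _) 1), by
          rw [inv_one]; exact hRC (single_mem (Subgroup.one_mem _) 1)⟩
        mul_mem' := by
          rintro a b ⟨ha, ha'⟩ ⟨hb, hb'⟩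
          refine ⟨?_, ?_⟩
          · have := Subring.mul_mem _ ha hb
            rw [single_mul_single] at this
            simpa using this
          · have := Subring.mul_mem _ hb' ha'
            rw [single_mul_single] at this
            simpa using this
        inv_mem' := by
          rintro a ⟨ha, ha'⟩
          exact ⟨ha', by rw [inv_inv]; exact ha⟩ }
    have hQ : K ⊔ Subgroup.zpowers t ≤ Q := by
      refine sup_le ?_ ?_
      · intro k hk
        exact ⟨hRC (single_mem hk 1), hRC (single_mem (Subgroup.inv_mem _ hk) 1)⟩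
      · rw [Subgroup.zpowers_le]
        exact ⟨Subring.subset_closure (Or.inr (Or.inl rfl)),
          Subring.subset_closure (Or.inr (Or.inr rfl))⟩
    rw [SetLike.mem_coe, single_eq]
    exact Subring.mul_mem _ (hRC (single_mem (Subgroup.one_mem _) f)) (hQ hh).1
  · refine Subring.closure_le.2 ?_
    rintro x (hx | hx | hx)
    · exact RR_mono le_sup_left hx
    · rw [hx]
      exact single_mem (Subgroup.mem_sup_right (Subgroup.mem_zpowers t)) 1
    · rw [Set.mem_singleton_iff] at hx
      rw [hx]
      exact single_mem (Subgroup.mem_sup_right (Subgroup.inv_mem _ (Subgroup.mem_zpowers t))) 1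

theorem conj_mem {K : Subgroup H} {t : H} (ht : ∀ h ∈ K, t * h * t⁻¹ ∈ K)
    {r : SkewMonoidAlgebra F H} (hr : r ∈ RR F K) :
    single t (1 : F) * r * single t⁻¹ 1 ∈ RR F K := by
  have hUT : single t⁻¹ (1 : F) * single t (1 : F) = 1 := by
    rw [single_mul_single, inv_mul_cancel, smul_one, mul_one, single_one_one]
  have hTU : single t (1 : F) * single t⁻¹ (1 : F) = 1 := by
    rw [single_mul_single, mul_inv_cancel, smul_one, mul_one, single_one_one]
  induction hr using Subring.closure_induction with
  | mem x hx =>
    obtain ⟨h, hh, f, rfl⟩ := hx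
    rw [single_mul_single, single_mul_single]
    exact single_mem (ht h hh) _
  | zero => simp
  | one => rw [mul_one, hTU]; exact Subring.one_mem _
  | add x y _ _ hx hy => rw [mul_add, add_mul]; exact Subring.add_mem _ hx hy
  | neg x _ hx => rw [mul_neg, neg_mul]; exact Subring.neg_mem _ hx
  | mul x y _ _ hx hy =>
    have h1 : single t (1 : F) * (x * y) * single t⁻¹ 1 =
        (single t (1 : F) * x * single t⁻¹ 1) * (single t (1 : F) * y * single t⁻¹ 1) := by
      calc single t (1 : F) * (x * y) * single t⁻¹ 1
          = single t (1 : F) * x * 1 * y * single t⁻¹ 1 := by simp only [mul_assoc, mul_one, one_mul]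
        _ = single t (1 : F) * x * (single t⁻¹ 1 * single t 1) * y * single t⁻¹ 1 := by rw [hUT]
        _ = _ := by simp only [mul_assoc]
    rw [h1]
    exact Subring.mul_mem _ hx hy

end SkNAux

open SkNAux SkewMonoidAlgebra in
theorem skew_noeth {F H : Type} [Field F] [Group H] [MulSemiringAction H F] (n : ℕ) (c : ℕ → Subgroup H)
    (t : ℕ → H) (h0 : c 0 = ⊥) (hn : c n = ⊤)
    (hc : ∀ i < n, c (i + 1) = c i ⊔ Subgroup.zpowers (t i) ∧
      ∀ h ∈ c i, t i * h * (t i)⁻¹ ∈ c i ∧ (t i)⁻¹ * h * t i ∈ c i) :
    IsNoetherianRing (SkewMonoidAlgebra F H) := by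
  have key : ∀ i ≤ n, IsNoetherianRing (RR F (c i)) := by
    intro i
    induction i with
    | zero =>
      intro _
      rw [h0]
      exact RR_bot
    | succ i ih =>
      intro hi
      obtain ⟨h1, h2⟩ := hc i (by omega)
      rw [h1, sup_eq]
      refine laurent_noeth (RR F (c i)) _ _ ?_ ?_ ?_ (ih (by omega))
      · rw [single_mul_single, mul_inv_cancel, smul_one, mul_one, single_one_one]
      · rw [single_mul_single, inv_mul_cancel, smul_one, mul_one, single_one_one]
      · intro r hr
        refine ⟨conj_mem (fun h hh => (h2 h hh).1) hr, ?_⟩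
        have := conj_mem (t := (t i)⁻¹) (fun h hh => by
          rw [inv_inv]; exact (h2 h hh).2) hr
        rwa [inv_inv] at this
  have h3 := key n le_rfl
  rw [hn, RR_top] at h3
  exact isNoetherianRing_of_ringEquiv _ (Subring.topEquiv (R := SkewMonoidAlgebra F H))

end Pool.Agent.Lib.PRI
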