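import Pool.Agent.Lib.PRI.Mx
import Pool.Agent.Lib.PRI.Nn
import Pool.Agent.Lib.PRI.SkN
import Pool.Agent.Lib.PRI.Ku
import Pool.Agent.Lib.PRI.As
import Pool.Agent.Lib.PRI.Ds
import Pool.Agent.Lib.PRI.Dec

/-!
# PRI.Main: the theorem (1.5 h)
PROOF. `kummer_dat`: apply `kummer_indep`, `kummer_span` to the group `A` (a commutative group: `Subgroup.toGroup` with `mul_comm` from `hA`) and the homomorphism `a ↦ D.ι a` (`dat_mul`, `dat_one`, injective by `dat_inj`), `A0`, `π` from `minimax_abelian`, and translate subgroups of `A` into subgroups of `G` contained in `A` (`Subgroup.subgroupOf`, `Subgroup.map A.subtype`); `dat_gen`. `main`: `H`, `hex` from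
`exists_fg_normal`; the representation is torsion free over `A` (`ass_union`); `D` from `exists_dat`; `Y1` from `kummer_dat`; `H` is finitely generated and nilpotent, so `SkewMonoidAlgebra F H` is Noetherian (`exists_series`, `skew_noeth`); choose `v ≠ 0`, `J` from `exists_J`, `Y` from `exists_Y` (with this `J` and `Y1`); `coeff_desc` gives `hdesc`, so `A ≤ Y` by `not_prim`, `A = Y` is finitely generated, and `G` is
finitely generated (`G / A` and `A` are).
-/

set_option autoImplicit false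

namespace Pool.Agent.Lib.PRI

variable {G k V : Type} [Group G] [Field k] [AddCommGroup V] [Module k V]

theorem kummer_dat [CharZero k] (hk : FGField k) {ρ : Representation k G V} (hf : Function.Injective ρ)
    (hV : Nontrivial V) (hG : Minimax G) {A : Subgroup G} (hA : ∀ a ∈ A, ∀ b ∈ A, a * b = b * a)
    {F : Type} [Field F] [Algebra k F] [MulSemiringAction G F] (D : Dat ρ A F) :
    ∃ Y1 : Subgroup G, Y1 ≤ A ∧ Y1.FG ∧ ∀ Y : Subgroup G, Y1 ≤ Y → Y ≤ A →
      (∀ (m : ℕ) (t : Fin m → G), (∀ i, t i ∈ A) → (∀ i j, i ≠ j → (t i)⁻¹ * t j ∉ Y) →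
        LinearIndependent (FY D Y) (fun i => D.ι (t i))) ∧
      (∀ f : F, ∃ (m : ℕ) (t : Fin m → G) (c : Fin m → F), (∀ i, t i ∈ A ∧ c i ∈ FY D Y) ∧
        f = ∑ i, c i * D.ι (t i)) := by
  classical
  let iC : CommGroup A :=
    { (inferInstance : Group A) with
      mul_comm := fun a b => Subtype.ext (hA a a.2 b b.2) }
  obtain ⟨A0, π, hA0A, hA0fg, hπ, hpow⟩ := minimax_abelian hG A hA
  let ι' : A →* F :=
    { toFun := fun a => D.ι a
      map_one' := dat_one D hV
      map_mul' := fun a b => dat_mul D hV a.2 b.2 }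
  have hι : Function.Injective ι' := fun a b h => Subtype.ext (dat_inj D hf a.2 b.2 h)
  have hA0' : (A0.subgroupOf A).FG := by
    rw [← Group.fg_iff_subgroup_fg] at hA0fg ⊢
    exact Group.fg_of_surjective (f := (Subgroup.subgroupOfEquivOfLe hA0A).symm.toMonoidHom)
      (Subgroup.subgroupOfEquivOfLe hA0A).symm.surjective
  have ht : ∀ a : A, ∃ n, PiNum π n ∧ a ^ n ∈ A0.subgroupOf A := by
    intro a
    obtain ⟨m, hm, ham⟩ := hpow a a.2
    refine ⟨m, hm, ?_⟩
    rw [Subgroup.mem_subgroupOf]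
    exact ham
  obtain ⟨Y1', h01, hY1fg, hY1⟩ := kummer_indep hk ι' hι (A0.subgroupOf A) hA0' π hπ ht
  have hmfg : (Y1'.map A.subtype).FG := by
    rw [Subgroup.fg_iff_submonoid_fg] at hY1fg ⊢
    exact Submonoid.FG.map hY1fg A.subtype
  refine ⟨Y1'.map A.subtype, Subgroup.map_subtype_le _, hmfg, ?_⟩
  intro Y h1Y hYA
  have h1Y' : Y1' ≤ Y.subgroupOf A := fun a ha => h1Y (Subgroup.mem_map_of_mem _ ha)
  have hEq : ι' '' ((Y.subgroupOf A : Subgroup A) : Set A) = D.ι '' (Y : Set G) := by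
    ext f
    constructor
    · rintro ⟨a, ha, rfl⟩
      exact ⟨a, ha, rfl⟩
    · rintro ⟨a, ha, rfl⟩
      exact ⟨⟨a, hYA ha⟩, ha, rfl⟩
  constructor
  · intro m t htA htY
    have h := hY1 (Y.subgroupOf A) h1Y' m (fun i => ⟨t i, htA i⟩) (fun i j hij => htY i j hij)
    rw [hEq] at h
    exact h
  · intro f
    have hF : IntermediateField.adjoin k (Set.range ι') = ⊤ := by
      have h : Set.range ι' = D.ι '' (A : Set G) := by
        ext x
        constructor
        · rintro ⟨a, rfl⟩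
          exact ⟨a, a.2, rfl⟩
        · rintro ⟨a, ha, rfl⟩
          exact ⟨⟨a, ha⟩, rfl⟩
      rw [h]
      exact dat_gen D
    obtain ⟨m, t, c, -, hf⟩ := kummer_span ι' hF (Y.subgroupOf A) (fun a => by
      obtain ⟨n, hn, han⟩ := ht a
      exact ⟨n, hn.1, h1Y' (h01 han)⟩) f
    refine ⟨m, fun i => t i, fun i => c i, fun i => ⟨(t i).2, ?_⟩, hf⟩
    have hE : IntermediateField.adjoin k (ι' '' ((Y.subgroupOf A : Subgroup A) : Set A)) = FY D Y := by
      rw [hEq]
      rfl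
    exact hE ▸ (c i).2

theorem main [Group.IsNilpotent G] [CharZero k] (hG : Minimax G) (A : Subgroup G) [A.Normal]
    (hA : ∀ a ∈ A, ∀ b ∈ A, a * b = b * a) (hGA : Group.FG (G ⧸ A)) (hk : FGField k)
    (ρ : Representation k G V) (hf : Function.Injective ρ) (hi : Irr ρ) (hp : Prim ρ) : Group.FG G := by
  obtain ⟨H, hHfg, hHA, hex⟩ := exists_fg_normal A hA hGA
  have hV : Nontrivial V := hi.1
  have htf := ass_union ρ hi hp A hA (fun Y0 h h' => by
    obtain ⟨Y, h1, h2, h3, h4, -⟩ := hex Y0 h h'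
    exact ⟨Y, h1, h2, h3, h4⟩)
  obtain ⟨F, iF, iA, iM, ⟨D⟩⟩ := exists_dat ρ hV A inferInstance hA htf
  obtain ⟨Y1, hY1A, hY1fg, hY1⟩ := kummer_dat hk hf hV hG hA D
  have hHg : Group.FG H := (Group.fg_iff_subgroup_fg H).2 hHfg
  obtain ⟨n, c, t, h0, hn, hc⟩ := exists_series hHg
  have hN : IsNoetherianRing (SkewMonoidAlgebra F H) := skew_noeth n c t h0 hn hc
  obtain ⟨v, hv⟩ := exists_ne (0 : V)
  obtain ⟨J, hJ⟩ := exists_J D hV H v
  obtain ⟨Y, h1Y, hYA, hYfg, hYn, hHY, hYJ⟩ :=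
    exists_Y D hV inferInstance H hN hex J Y1 hY1A hY1fg
  have hAY : A ≤ Y := not_prim D hi hp inferInstance hA H Y hHA hYA hYn hHY v hv
    (fun m t htA htY r hr hmem i => by
      rw [← hJ] at hmem ⊢
      exact coeff_desc D hV H Y hYA J (hY1 Y h1Y hYA).1 (hY1 Y h1Y hYA).2 hYJ m t htA htY r hr hmem i)
  have hAfg : A.FG := by
    have h : A = Y := le_antisymm hAY hYA
    rw [h]
    exact hYfg
  have h : (H ⊔ A).FG := hHfg.sup hAfg
  rw [hHA] at h
  exact ⟨h⟩

end Pool.Agent.Lib.PRI
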