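import Pool.Agent.Lib.PRI.Defs

/-!
# PRI.Mx: abelian subgroups of minimax groups (1.4 h)
PROOF. Let `s`, `n` be as in `Minimax G`. By induction on `i ≤ n` the statement holds for `A ⊓ s i` in place of `A`. Step: `B = A ⊓ s (i+1)`, `B' = A ⊓ s i`. For a subgroup `K` with `B' ≤ K ≤ B` let `φ K = s i ⊔ K ∈ Icc (s i) (s (i+1))`; as `s i` is normal in `s (i+1)`, `s i ⊔ K` is the set of products and `(s i ⊔ K) ⊓ B = K ⊔ (s i ⊓ B) = K` (modular law), so `φ` is strictly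
monotone and the chain condition passes to `Icc B' B`. (a) Maximal condition: a maximal element `B' ⊔ L` (`L ≤ B` finitely generated) is `B`; take `A0' = A0 ⊔ L`: `b = b' l`, `b ^ m = b' ^ m l ^ m ∈ A0 ⊔ L` (`A` commutative). (b) Minimal condition: for `b ∈ B` the chain `B' ⊔ zpowers (b ^ (2 ^ j))` is eventually constant, so `b ^ (2 ^ j) ∈ B' ⊔ zpowers (b ^ (2 ^ (j+1)))`
and some positive power of `b` is in `B'`. The set `S` of primes `p` for which there is `b_p ∈ B` with `b_p ∉ B'`, `b_p ^ p ∈ B'` is finite: otherwise the groups `B' ⊔ closure {b_p | p ∈ S, p > j}` have no eventually constant chain (an element of this group has, modulo `B'`, an order prime to all `p ≤ j`). A positive `m`, minimal with `b ^ m ∈ B'`, has only prime divisors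
in `S` (`b ^ (m/p)`). So `b ^ (m m') ∈ A0`, `π' = π ∪ S`.
-/

set_option autoImplicit false

namespace Pool.Agent.Lib.PRI

namespace MxAux

variable {G : Type} [Group G]

theorem mem_sup_mul {S T L : Subgroup G} (hST : S ≤ T) (hn : (S.subgroupOf T).Normal)
    (hL : L ≤ T) {x : G} (hx : x ∈ S ⊔ L) : ∃ s ∈ S, ∃ l ∈ L, x = s * l := by
  have hconj : ∀ l ∈ T, ∀ s ∈ S, l * s * l⁻¹ ∈ S := by
    intro l hl s hs
    exact hn.conj_mem (⟨s, hST hs⟩ : T) hs (⟨l, hl⟩ : T)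
  let K : Subgroup G :=
    { carrier := {x | ∃ s ∈ S, ∃ l ∈ L, x = s * l}
      mul_mem' := by
        rintro _ _ ⟨s, hs, l, hl, rfl⟩ ⟨s', hs', l', hl', rfl⟩
        refine ⟨s * (l * s' * l⁻¹), S.mul_mem hs (hconj l (hL hl) s' hs'), l * l',
          L.mul_mem hl hl', ?_⟩
        group
      one_mem' := ⟨1, S.one_mem, 1, L.one_mem, by rw [mul_one]⟩
      inv_mem' := by
        rintro _ ⟨s, hs, l, hl, rfl⟩
        refine ⟨l⁻¹ * s⁻¹ * l⁻¹⁻¹, hconj l⁻¹ (T.inv_mem (hL hl)) s⁻¹ (S.inv_mem hs), l⁻¹,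
          L.inv_mem hl, ?_⟩
        group }
  have h1 : S ⊔ L ≤ K := by
    refine sup_le ?_ ?_
    · intro s hs
      exact ⟨s, hs, 1, L.one_mem, by rw [mul_one]⟩
    · intro l hl
      exact ⟨1, S.one_mem, l, hl, by rw [one_mul]⟩
  exact h1 hx

/-- decomposition inside an abelian subgroup -/
theorem split {S T A L : Subgroup G} (hST : S ≤ T) (hn : (S.subgroupOf T).Normal)
    (hL : L ≤ A ⊓ T) {x : G} (hxA : x ∈ A) (hx : x ∈ S ⊔ L) :
    ∃ s ∈ A ⊓ S, ∃ l ∈ L, x = s * l := by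
  obtain ⟨s, hs, l, hl, e⟩ := mem_sup_mul hST hn (hL.trans inf_le_right) hx
  refine ⟨s, ⟨?_, hs⟩, l, hl, e⟩
  have h1 : s = x * l⁻¹ := by rw [e]; group
  rw [h1]
  exact A.mul_mem hxA (A.inv_mem (hL hl).1)

theorem const_of_lt {α : Type*} [PartialOrder α] (h : WellFoundedLT α) (f : ℕ → α)
    (hf : Antitone f) : ∃ n, ∀ m, n ≤ m → f m = f n := by
  obtain ⟨x, ⟨n, rfl⟩, hx⟩ := h.wf.has_min (Set.range f) ⟨f 0, ⟨0, rfl⟩⟩
  refine ⟨n, fun m hm => ?_⟩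
  by_contra hne
  exact hx (f m) ⟨m, rfl⟩ (lt_of_le_of_ne (hf hm) hne)

theorem mul_pow_comm {A : Subgroup G} (hA : ∀ a ∈ A, ∀ b ∈ A, a * b = b * a) {x y : G}
    (hx : x ∈ A) (hy : y ∈ A) (m : ℕ) : (x * y) ^ m = x ^ m * y ^ m :=
  (show Commute x y from hA x hx y hy).mul_pow m

theorem piNum_mul {π : Finset ℕ} {a b : ℕ} (ha : PiNum π a) (hb : PiNum π b) :
    PiNum π (a * b) := by
  refine ⟨Nat.mul_pos ha.1 hb.1, fun p hp hd => ?_⟩
  rcases (Nat.Prime.dvd_mul hp).1 hd with h | h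
  · exact ha.2 p hp h
  · exact hb.2 p hp h

theorem piNum_mono {π π' : Finset ℕ} (h : π ⊆ π') {a : ℕ} (ha : PiNum π a) : PiNum π' a :=
  ⟨ha.1, fun p hp hd => h (ha.2 p hp hd)⟩

/-- maximal condition -/
theorem step_gt {S T A : Subgroup G} (hST : S ≤ T)
    (hn : (S.subgroupOf T).Normal) (hw : WellFoundedGT (Set.Icc S T)) :
    ∃ L : Subgroup G, L ≤ A ⊓ T ∧ L.FG ∧ ∀ b ∈ A ⊓ T, ∃ s ∈ A ⊓ S, ∃ l ∈ L, b = s * l := by
  obtain ⟨x, ⟨L, hL1, hL2, hL3⟩, hx⟩ := hw.wf.has_min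
    {x : Set.Icc S T | ∃ L : Subgroup G, L ≤ A ⊓ T ∧ L.FG ∧ x.1 = S ⊔ L}
    ⟨⟨S, le_refl S, hST⟩, ⊥, bot_le, ⟨∅, by simp⟩, by rw [sup_bot_eq]⟩
  refine ⟨L, hL1, hL2, fun b hb => ?_⟩
  have hZ : Subgroup.zpowers b ≤ A ⊓ T := by
    rw [Subgroup.zpowers_le]
    exact hb
  have hT : S ⊔ (L ⊔ Subgroup.zpowers b) ≤ T :=
    sup_le hST ((sup_le hL1 hZ).trans inf_le_right)
  have h1 := hx ⟨S ⊔ (L ⊔ Subgroup.zpowers b), le_sup_left, hT⟩
    ⟨L ⊔ Subgroup.zpowers b, sup_le hL1 hZ, Subgroup.FG.sup hL2 ⟨{b}, by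
      rw [Finset.coe_singleton, Subgroup.zpowers_eq_closure]⟩, rfl⟩
  have h2 : x.1 ≤ S ⊔ (L ⊔ Subgroup.zpowers b) := by
    rw [hL3]
    exact sup_le_sup_left le_sup_left _
  have h3 : b ∈ S ⊔ L := by
    by_contra hb'
    refine h1 (lt_of_le_of_ne h2 ?_)
    intro he
    apply hb'
    have he' : x.1 = S ⊔ (L ⊔ Subgroup.zpowers b) := congrArg Subtype.val he
    rw [← hL3, he']
    exact Subgroup.mem_sup_right (Subgroup.mem_sup_right (Subgroup.mem_zpowers b))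
  exact split hST hn hL1 hb.1 h3

/-- minimal condition: every element has a positive power below -/
theorem pow_lt {S T A : Subgroup G} (hST : S ≤ T)
    (hn : (S.subgroupOf T).Normal) (hw : WellFoundedLT (Set.Icc S T)) {b : G}
    (hb : b ∈ A ⊓ T) : ∃ m, 0 < m ∧ b ^ m ∈ A ⊓ S := by
  have hZ : ∀ j : ℕ, Subgroup.zpowers (b ^ (2 ^ j)) ≤ A ⊓ T := by
    intro j
    rw [Subgroup.zpowers_le]
    exact (A ⊓ T).pow_mem hb _
  let f : ℕ → Set.Icc S T := fun j =>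
    ⟨S ⊔ Subgroup.zpowers (b ^ (2 ^ j)), le_sup_left, sup_le hST ((hZ j).trans inf_le_right)⟩
  have hf : Antitone f := by
    refine antitone_nat_of_succ_le fun j => ?_
    change S ⊔ Subgroup.zpowers (b ^ (2 ^ (j + 1))) ≤ S ⊔ Subgroup.zpowers (b ^ (2 ^ j))
    refine sup_le_sup_left ?_ _
    rw [Subgroup.zpowers_le, pow_succ, pow_mul]
    exact Subgroup.pow_mem _ (Subgroup.mem_zpowers _) _
  obtain ⟨n, hn'⟩ := const_of_lt hw f hf
  have h1 : S ⊔ Subgroup.zpowers (b ^ (2 ^ (n + 1))) = S ⊔ Subgroup.zpowers (b ^ (2 ^ n)) :=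
    congrArg Subtype.val (hn' (n + 1) (Nat.le_succ n))
  have h2 : b ^ (2 ^ n) ∈ S ⊔ Subgroup.zpowers (b ^ (2 ^ (n + 1))) := by
    rw [h1]
    exact Subgroup.mem_sup_right (Subgroup.mem_zpowers _)
  obtain ⟨s, hs, l, hl, e⟩ := split hST hn (hZ (n + 1)) (A.pow_mem hb.1 _) h2
  obtain ⟨k, rfl⟩ := Subgroup.mem_zpowers_iff.1 hl
  have h3 : s = b ^ ((2 ^ n : ℤ) - 2 ^ (n + 1) * k) := by
    have h4 : s = b ^ (2 ^ n) * ((b ^ (2 ^ (n + 1))) ^ k)⁻¹ := by rw [e]; group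
    rw [h4, zpow_sub, ← zpow_natCast b (2 ^ n), ← zpow_natCast b (2 ^ (n + 1)), ← zpow_mul]
    push_cast
    rfl
  have h5 : ((2 ^ n : ℤ) - 2 ^ (n + 1) * k) ≠ 0 := by
    intro h0
    have h6 : (2 ^ n : ℤ) * (1 - 2 * k) = 0 := by
      rw [← h0]; ring
    rcases mul_eq_zero.1 h6 with h7 | h7
    · exact absurd h7 (by positivity)
    · omega
  rw [h3] at hs
  refine ⟨((2 ^ n : ℤ) - 2 ^ (n + 1) * k).natAbs, Int.natAbs_pos.2 h5, ?_⟩
  rw [← zpow_natCast, Int.natCast_natAbs]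
  rcases abs_choice ((2 ^ n : ℤ) - 2 ^ (n + 1) * k) with h | h
  · rw [h]; exact hs
  · rw [h, zpow_neg]; exact (A ⊓ S).inv_mem hs

theorem of_coprime {B : Subgroup G} {x : G} {a b : ℕ} (h : Nat.Coprime a b) (ha : x ^ a ∈ B)
    (hb : x ^ b ∈ B) : x ∈ B := by
  have h1 : x ^ (Nat.gcd a b : ℤ) ∈ B := by
    rw [Nat.gcd_eq_gcd_ab, zpow_add, zpow_mul, zpow_mul, zpow_natCast, zpow_natCast]
    exact B.mul_mem (B.zpow_mem ha _) (B.zpow_mem hb _)
  rw [h] at h1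
  rwa [Nat.cast_one, zpow_one] at h1

/-- minimal condition: finitely many primes -/
theorem primes_lt {S T A : Subgroup G} (hA : ∀ a ∈ A, ∀ b ∈ A, a * b = b * a) (hST : S ≤ T)
    (hn : (S.subgroupOf T).Normal) (hw : WellFoundedLT (Set.Icc S T)) :
    {p : ℕ | p.Prime ∧ ∃ b ∈ A ⊓ T, b ∉ A ⊓ S ∧ b ^ p ∈ A ⊓ S}.Finite := by
  by_contra hinf
  have hinf' : {p : ℕ | p.Prime ∧ ∃ b ∈ A ⊓ T, b ∉ A ⊓ S ∧ b ^ p ∈ A ⊓ S}.Infinite := hinf
  set P := {p : ℕ | p.Prime ∧ ∃ b ∈ A ⊓ T, b ∉ A ⊓ S ∧ b ^ p ∈ A ⊓ S} with hP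
  have hch : ∀ p ∈ P, ∃ b ∈ A ⊓ T, b ∉ A ⊓ S ∧ b ^ p ∈ A ⊓ S := fun p hp => hp.2
  choose! β hβ1 hβ2 hβ3 using hch
  let C : ℕ → Subgroup G := fun j => Subgroup.closure {x | ∃ p ∈ P, j ≤ p ∧ x = β p}
  have hC : ∀ j, C j ≤ A ⊓ T := by
    intro j
    refine (Subgroup.closure_le _).2 ?_
    rintro _ ⟨p, hp, _, rfl⟩
    exact hβ1 p hp
  let f : ℕ → Set.Icc S T := fun j =>
    ⟨S ⊔ C j, le_sup_left, sup_le hST ((hC j).trans inf_le_right)⟩
  have hf : Antitone f := by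
    intro i j hij
    change S ⊔ C j ≤ S ⊔ C i
    refine sup_le_sup_left (Subgroup.closure_mono ?_) _
    rintro _ ⟨p, hp, hjp, rfl⟩
    exact ⟨p, hp, hij.trans hjp, rfl⟩
  obtain ⟨n, hn'⟩ := const_of_lt hw f hf
  obtain ⟨p, hp, hnp⟩ := hinf'.exists_gt n
  have h1 : S ⊔ C (p + 1) = S ⊔ C n := congrArg Subtype.val (hn' (p + 1) (by omega))
  have h2 : β p ∈ S ⊔ C (p + 1) := by
    rw [h1]
    exact Subgroup.mem_sup_right (Subgroup.subset_closure ⟨p, hp, hnp.le, rfl⟩)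
  obtain ⟨s, hs, c, hc, e⟩ := split hST hn (hC (p + 1)) (hβ1 p hp).1 h2
  have h3 : ∀ x ∈ C (p + 1), x ∈ A ∧ ∃ N, Nat.Coprime p N ∧ x ^ N ∈ A ⊓ S := by
    intro x hx
    refine Subgroup.closure_induction (p := fun x _ => x ∈ A ∧ ∃ N, Nat.Coprime p N ∧
      x ^ N ∈ A ⊓ S) ?_ ?_ ?_ ?_ hx
    · rintro _ ⟨q, hq, hpq, rfl⟩
      refine ⟨(hβ1 q hq).1, q, ?_, hβ3 q hq⟩
      exact (Nat.coprime_primes hp.1 hq.1).2 (by omega)
    · exact ⟨A.one_mem, 1, Nat.coprime_one_right p, by rw [one_pow]; exact (A ⊓ S).one_mem⟩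
    · rintro x y _ _ ⟨hx1, N, hN, hN'⟩ ⟨hy1, M, hM, hM'⟩
      refine ⟨A.mul_mem hx1 hy1, N * M, Nat.Coprime.mul_right hN hM, ?_⟩
      rw [mul_pow_comm hA hx1 hy1, pow_mul, mul_comm N M, pow_mul]
      exact (A ⊓ S).mul_mem ((A ⊓ S).pow_mem hN' _) ((A ⊓ S).pow_mem hM' _)
    · rintro x _ ⟨hx1, N, hN, hN'⟩
      refine ⟨A.inv_mem hx1, N, hN, ?_⟩
      rw [inv_pow]
      exact (A ⊓ S).inv_mem hN'
  obtain ⟨hcA, N, hN, hN'⟩ := h3 c hc
  refine hβ2 p hp (of_coprime hN (hβ3 p hp) ?_)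
  rw [e, mul_pow_comm hA hs.1 hcA]
  exact (A ⊓ S).mul_mem ((A ⊓ S).pow_mem hs _) hN'

end MxAux

open MxAux

theorem minimax_abelian {G : Type} [Group G] (hG : Minimax G) (A : Subgroup G)
    (hA : ∀ a ∈ A, ∀ b ∈ A, a * b = b * a) :
    ∃ (A0 : Subgroup G) (π : Finset ℕ), A0 ≤ A ∧ A0.FG ∧ (∀ p ∈ π, p.Prime) ∧
      ∀ a ∈ A, ∃ m, PiNum π m ∧ a ^ m ∈ A0 := by
  classical
  obtain ⟨n, s, hs0, hsn, hs⟩ := hG
  have key : ∀ i, i ≤ n → ∃ (A0 : Subgroup G) (π : Finset ℕ), A0 ≤ A ∧ A0.FG ∧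
      (∀ p ∈ π, p.Prime) ∧ ∀ a ∈ A ⊓ s i, ∃ m, PiNum π m ∧ a ^ m ∈ A0 := by
    intro i
    induction i with
    | zero =>
      intro _
      refine ⟨⊥, ∅, bot_le, ⟨∅, by simp⟩, by simp, ?_⟩
      intro a ha
      rw [hs0, inf_bot_eq, Subgroup.mem_bot] at ha
      refine ⟨1, ⟨one_pos, fun p hp hd => ?_⟩, ?_⟩
      · exact absurd (Nat.dvd_one.1 hd) hp.one_lt.ne'
      · rw [ha, one_pow]
        exact Subgroup.one_mem _
    | succ i ih =>
      intro hi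
      obtain ⟨A0, π, h1, h2, h3, h4⟩ := ih (by omega)
      obtain ⟨hle, hnor, hw⟩ := hs i (by omega)
      rcases hw with hw | hw
      · -- minimal condition
        have hfin := primes_lt hA hle hnor hw
        refine ⟨A0, π ∪ hfin.toFinset, h1, h2, ?_, ?_⟩
        · intro p hp
          rcases Finset.mem_union.1 hp with hp | hp
          · exact h3 p hp
          · exact ((hfin.mem_toFinset).1 hp).1
        · intro b hb
          have hex := pow_lt hle hnor hw hb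
          have hm := Nat.find_spec hex
          set m := Nat.find hex with hmdef
          obtain ⟨m', hm'1, hm'2⟩ := h4 (b ^ m) hm.2
          refine ⟨m * m', piNum_mul ⟨hm.1, ?_⟩ (piNum_mono Finset.subset_union_left hm'1), ?_⟩
          · intro p hp hd
            refine Finset.mem_union_right _ ((hfin.mem_toFinset).2 ⟨hp, ?_⟩)
            obtain ⟨k, hk⟩ := hd
            have hk0 : 0 < k := by
              rcases Nat.eq_zero_or_pos k with h0 | h0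
              · rw [h0, mul_zero] at hk
                omega
              · exact h0
            refine ⟨b ^ k, (A ⊓ s (i + 1)).pow_mem hb _, ?_, ?_⟩
            · intro hc
              have hlt : k < m := by
                rw [hk]
                have := hp.two_le
                nlinarith
              exact Nat.find_min hex hlt ⟨hk0, hc⟩
            · rw [← pow_mul, mul_comm k p, ← hk]
              exact hm.2
          · rw [pow_mul]
            exact hm'2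
      · -- maximal condition
        obtain ⟨L, hL1, hL2, hL3⟩ := step_gt hle hnor hw
        refine ⟨A0 ⊔ L, π, sup_le h1 (hL1.trans inf_le_left), Subgroup.FG.sup h2 hL2, h3, ?_⟩
        intro b hb
        obtain ⟨x, hx, l, hl, e⟩ := hL3 b hb
        obtain ⟨m, hm1, hm2⟩ := h4 x hx
        refine ⟨m, hm1, ?_⟩
        rw [e, mul_pow_comm hA hx.1 (hL1 hl).1]
        exact Subgroup.mul_mem_sup hm2 (L.pow_mem hl _)
  obtain ⟨A0, π, h1, h2, h3, h4⟩ := key n le_rfl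
  refine ⟨A0, π, h1, h2, h3, fun a ha => h4 a ?_⟩
  rw [hsn, inf_top_eq]
  exact ha

end Pool.Agent.Lib.PRI
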